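import Mathlib

/-!
Evaluation of elements of the free algebra on matrices: naturality, equivariance, gradings.
-/

open Matrix

namespace Pool.Agent.Helper12

variable {K : Type*} [Field K] {X : Type*} {ι : Type*} [Fintype ι] [DecidableEq ι]

/-- The monomial (word) in the free algebra attached to a list of variables. -/
noncomputable def mon (K : Type*) [Field K] {X : Type*} (w : List X) : FreeAlgebra K X :=
  (w.map (FreeAlgebra.ι K)).prod

section Eval

variable {R : Type*} [CommRing R] [Algebra K R]

theorem lift_mon (a : X → Matrix ι ι R) (w : List X) :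
    FreeAlgebra.lift K a (mon K w) = (w.map a).prod := by
  unfold mon
  rw [map_list_prod, List.map_map]
  congr 1
  apply List.map_congr_left
  intro x _
  simp

theorem lift_map {S : Type*} [CommRing S] [Algebra K S] (f : R →ₐ[K] S)
    (a : X → Matrix ι ι R) (p : FreeAlgebra K X) :
    (FreeAlgebra.lift K a p).map f = FreeAlgebra.lift K (fun x => (a x).map f) p := by
  have h : (f.mapMatrix.comp (FreeAlgebra.lift K a) : FreeAlgebra K X →ₐ[K] Matrix ι ι S)
      = FreeAlgebra.lift K (fun x => (a x).map f) := by
    apply FreeAlgebra.hom_ext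
    funext x
    simp
  have := DFunLike.congr_fun h p
  simpa using this

theorem lift_submatrix {κ : Type*} [Fintype κ] [DecidableEq κ] (e : κ ≃ ι)
    (a : X → Matrix ι ι R) (p : FreeAlgebra K X) :
    (FreeAlgebra.lift K a p).submatrix e e
      = FreeAlgebra.lift K (fun x => (a x).submatrix e e) p := by
  have h : ((Matrix.reindexAlgEquiv K R e.symm).toAlgHom.comp (FreeAlgebra.lift K a) :
        FreeAlgebra K X →ₐ[K] Matrix κ κ R)
      = FreeAlgebra.lift K (fun x => (a x).submatrix e e) := by
    apply FreeAlgebra.hom_ext
    funext x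
    simp
  have := DFunLike.congr_fun h p
  simpa using this

theorem lift_conj (g h : Matrix ι ι R) (hgh : g * h = 1)
    (a : X → Matrix ι ι R) (p : FreeAlgebra K X) :
    g * FreeAlgebra.lift K a p * h = FreeAlgebra.lift K (fun x => g * a x * h) p := by
  have hhg : h * g = 1 := mul_eq_one_comm.mp hgh
  induction p using FreeAlgebra.induction with
  | grade0 r =>
    rw [AlgHom.commutes, AlgHom.commutes, ← Algebra.commutes r g, mul_assoc, hgh, mul_one]
  | grade1 x => simp
  | mul p q hp hq =>
    rw [map_mul, map_mul, ← hp, ← hq]
    have : g * (FreeAlgebra.lift K a p * FreeAlgebra.lift K a q) * h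
        = g * FreeAlgebra.lift K a p * (h * g) * FreeAlgebra.lift K a q * h := by
      rw [hhg]; noncomm_ring
    rw [this]; noncomm_ring
  | add p q hp hq =>
    rw [map_add, map_add, ← hp, ← hq, mul_add, add_mul]

/-- The generic matrices. -/
noncomputable def gen (K : Type*) [Field K] (X ι : Type*) :
    X → Matrix ι ι (MvPolynomial (X × ι × ι) K) :=
  fun x => Matrix.of fun i j => MvPolynomial.X (x, i, j)

/-- If `p ^ ν` takes only scalar values on matrices over the infinite field `K`,
the same holds on matrices over every commutative `K`-algebra. -/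
theorem scalar_transfer [Infinite K] (p : FreeAlgebra K X)
    (h : ∀ a : X → Matrix ι ι K, ∃ c : K, FreeAlgebra.lift K a p = Matrix.scalar ι c)
    (a : X → Matrix ι ι R) :
    (∀ i j, i ≠ j → FreeAlgebra.lift K a p i j = 0) ∧
    (∀ i j, FreeAlgebra.lift K a p i i = FreeAlgebra.lift K a p j j) := by
  -- evaluation of the generic matrices at a point
  have key : ∀ (b : X → Matrix ι ι K),
      (FreeAlgebra.lift K (gen K X ι) p).map
        (MvPolynomial.aeval (R := K) (S₁ := K) (fun t : X × ι × ι => b t.1 t.2.1 t.2.2))
        = FreeAlgebra.lift K b p := by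
    intro b
    rw [lift_map]
    congr 1
    congr 1
    funext x
    ext i j
    simp [gen]
  have key2 : (FreeAlgebra.lift K (gen K X ι) p).map
        (MvPolynomial.aeval (R := K) (S₁ := R) (fun t : X × ι × ι => a t.1 t.2.1 t.2.2))
        = FreeAlgebra.lift K a p := by
    rw [lift_map]
    congr 1
    congr 1
    funext x
    ext i j
    simp [gen]
  have off : ∀ i j, i ≠ j → FreeAlgebra.lift K (gen K X ι) p i j = 0 := by
    intro i j hij
    apply MvPolynomial.funext
    intro v
    obtain ⟨c, hc⟩ := h (fun x => Matrix.of fun i j => v (x, i, j))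
    have := congrFun (congrFun (key (fun x => Matrix.of fun i j => v (x, i, j))) i) j
    rw [hc] at this
    simp only [Matrix.map_apply, Matrix.of_apply, Matrix.scalar_apply, Matrix.diagonal_apply_ne _ hij] at this
    rw [MvPolynomial.aeval_eq_eval] at this
    simpa using this
  have dia : ∀ i j, FreeAlgebra.lift K (gen K X ι) p i i = FreeAlgebra.lift K (gen K X ι) p j j := by
    intro i j
    apply MvPolynomial.funext
    intro v
    obtain ⟨c, hc⟩ := h (fun x => Matrix.of fun i j => v (x, i, j))
    have h1 := congrFun (congrFun (key (fun x => Matrix.of fun i j => v (x, i, j))) i) i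
    have h2 := congrFun (congrFun (key (fun x => Matrix.of fun i j => v (x, i, j))) j) j
    rw [hc] at h1 h2
    simp only [Matrix.map_apply, Matrix.of_apply, Matrix.scalar_apply, Matrix.diagonal_apply_eq] at h1 h2
    rw [MvPolynomial.aeval_eq_eval] at h1 h2
    exact h1.trans h2.symm
  constructor
  · intro i j hij
    rw [← key2, Matrix.map_apply, off i j hij, map_zero]
  · intro i j
    rw [← key2, Matrix.map_apply, Matrix.map_apply, dia i j]

end Eval

end Pool.Agent.Helper12
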