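import Mathlib

/-!
Top-degree arguments for families of polynomials with a cyclic symmetry. These replace the fact
that rings of generic matrices (and tensor products of two of them) have no zero divisors.
-/

set_option linter.unusedSectionVars false
set_option linter.unusedVariables false

open Polynomial

namespace Pool.Agent.Helper12

/-- Selection of a lexicographically maximal nonzero coefficient. -/
theorem exists_top {Q : Type*} [Fintype Q] {R : Type*} [CommRing R] (Φ : Q → R[X][X])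
    (h : ∃ a, Φ a ≠ 0) :
    ∃ (m' m : ℕ) (a : Q), (∀ b, (Φ b).natDegree ≤ m') ∧ (∀ b, ((Φ b).coeff m').natDegree ≤ m) ∧
      ((Φ a).coeff m').coeff m ≠ 0 := by
  classical
  obtain ⟨a0, ha0⟩ := h
  obtain ⟨a1, ha1, hmax1⟩ := Finset.exists_max_image (Finset.univ.filter fun a => Φ a ≠ 0)
    (fun a => (Φ a).natDegree) ⟨a0, by simp [ha0]⟩
  set m' := (Φ a1).natDegree with hm'
  have h1 : ∀ b, (Φ b).natDegree ≤ m' := by
    intro b
    by_cases hb : Φ b = 0
    · rw [hb]; simp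
    · exact hmax1 b (by simp [hb])
  have ha1' : Φ a1 ≠ 0 := by simpa using ha1
  have hc1 : (Φ a1).coeff m' ≠ 0 := by
    rw [hm', Polynomial.coeff_natDegree]
    exact Polynomial.leadingCoeff_ne_zero.mpr ha1'
  obtain ⟨a2, ha2, hmax2⟩ := Finset.exists_max_image
    (Finset.univ.filter fun a => (Φ a).coeff m' ≠ 0)
    (fun a => ((Φ a).coeff m').natDegree) ⟨a1, by simp [hc1]⟩
  refine ⟨m', ((Φ a2).coeff m').natDegree, a2, h1, ?_, ?_⟩
  · intro b
    by_cases hb : (Φ b).coeff m' = 0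
    · rw [hb]; simp
    · exact hmax2 b (by simp [hb])
  · rw [Polynomial.coeff_natDegree]
    apply Polynomial.leadingCoeff_ne_zero.mpr
    simpa using ha2

theorem coeff_coeff_mul {R : Type*} [CommRing R] {f g : R[X][X]} {m' m n' n : ℕ}
    (hf : f.natDegree ≤ m') (hg : g.natDegree ≤ n') (hf' : (f.coeff m').natDegree ≤ m)
    (hg' : (g.coeff n').natDegree ≤ n) :
    ((f * g).coeff (m' + n')).coeff (m + n) = (f.coeff m').coeff m * (g.coeff n').coeff n := by
  rw [Polynomial.coeff_mul_add_eq_of_natDegree_le hf hg,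
    Polynomial.coeff_mul_add_eq_of_natDegree_le hf' hg']

/-- The two parameter lemma. -/
theorem two_param {R : Type*} [CommRing R] [IsDomain R] {k l : ℕ} [NeZero k] [NeZero l]
    (σA σB : R →+* R) (hσA : Function.Injective σA) (hσB : Function.Injective σB)
    (Φ : ZMod k → ZMod l → ZMod k → ZMod l → R[X][X])
    (Ψ : ZMod l → ZMod k → ZMod l → ZMod k → R[X][X])
    (hΦs : ∀ p q i j m m', ((Φ p q i j).coeff m').coeff m ≠ 0 → i = p + m ∧ q = j + m')
    (hΦA : ∀ p q i j m m', ((Φ (p + 1) q (i + 1) j).coeff m').coeff m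
      = σA (((Φ p q i j).coeff m').coeff m))
    (hΦB : ∀ p q i j m m', ((Φ p (q + 1) i (j + 1)).coeff m').coeff m
      = σB (((Φ p q i j).coeff m').coeff m))
    (hΨA : ∀ q p j i m m', ((Ψ q (p + 1) j (i + 1)).coeff m').coeff m
      = σA (((Ψ q p j i).coeff m').coeff m))
    (hΨB : ∀ q p j i m m', ((Ψ (q + 1) p (j + 1) i).coeff m').coeff m
      = σB (((Ψ q p j i).coeff m').coeff m))
    (hΦ : ∃ p q i j, Φ p q i j ≠ 0) (hΨ : ∃ q p j i, Ψ q p j i ≠ 0) :
    ∃ i j j' i', ∑ p, ∑ q, Φ p q i j * Ψ q p j' i' ≠ 0 := by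
  classical
  obtain ⟨m', m, ⟨p0, q0, i0, j0⟩, hm', hm, hne⟩ :=
    exists_top (fun a : ZMod k × ZMod l × ZMod k × ZMod l => Φ a.1 a.2.1 a.2.2.1 a.2.2.2)
      (by obtain ⟨p, q, i, j, h⟩ := hΦ; exact ⟨(p, q, i, j), h⟩)
  obtain ⟨n', n, ⟨q1, p1, j1, i1⟩, hn', hn, hne'⟩ :=
    exists_top (fun a : ZMod l × ZMod k × ZMod l × ZMod k => Ψ a.1 a.2.1 a.2.2.1 a.2.2.2)
      (by obtain ⟨q, p, j, i, h⟩ := hΨ; exact ⟨(q, p, j, i), h⟩)
  simp only at hne hne'
  have hm'2 : ∀ p q i j, (Φ p q i j).natDegree ≤ m' := fun p q i j => hm' (p, q, i, j)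
  have hm2 : ∀ p q i j, ((Φ p q i j).coeff m').natDegree ≤ m := fun p q i j => hm (p, q, i, j)
  have hn'2 : ∀ q p j i, (Ψ q p j i).natDegree ≤ n' := fun q p j i => hn' (q, p, j, i)
  have hn2 : ∀ q p j i, ((Ψ q p j i).coeff n').natDegree ≤ n := fun q p j i => hn (q, p, j, i)
  -- translate the nonzero coefficient of Ψ
  have hshiftA : ∀ s : ℕ, ((Ψ q1 (p1 + s) j1 (i1 + s)).coeff n').coeff n ≠ 0 := by
    intro s
    induction s with
    | zero => simpa using hne'
    | succ s ih =>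
      have h1 := hΨA q1 (p1 + s) j1 (i1 + s) n n'
      rw [Nat.cast_succ, ← add_assoc, ← add_assoc, h1]
      rwa [Ne, map_eq_zero_iff σA hσA]
  have hshift : ∀ s t : ℕ, ((Ψ (q1 + t) (p1 + s) (j1 + t) (i1 + s)).coeff n').coeff n ≠ 0 := by
    intro s t
    induction t with
    | zero => simpa using hshiftA s
    | succ t ih =>
      have h1 := hΨB (q1 + t) (p1 + s) (j1 + t) (i1 + s) n n'
      rw [Nat.cast_succ, ← add_assoc, ← add_assoc, h1]
      rwa [Ne, map_eq_zero_iff σB hσB]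
  have hs := hshift (p0 - p1).val (q0 - q1).val
  rw [ZMod.natCast_zmod_val, ZMod.natCast_zmod_val] at hs
  have e1 : q1 + (q0 - q1) = q0 := by ring
  have e2 : p1 + (p0 - p1) = p0 := by ring
  rw [e1, e2] at hs
  refine ⟨i0, j0, j1 + (q0 - q1), i1 + (p0 - p1), ?_⟩
  intro hzero
  have hc := congrArg (fun f : R[X][X] => (f.coeff (m' + n')).coeff (m + n)) hzero
  simp only [Polynomial.finsetSum_coeff, Polynomial.coeff_zero] at hc
  rw [Finset.sum_eq_single p0] at hc
  · rw [Finset.sum_eq_single q0] at hc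
    · rw [coeff_coeff_mul (hm'2 _ _ _ _) (hn'2 _ _ _ _) (hm2 _ _ _ _) (hn2 _ _ _ _)] at hc
      rcases mul_eq_zero.mp hc with h | h
      · exact hne h
      · exact hs h
    · intro q _ hq
      rw [coeff_coeff_mul (hm'2 _ _ _ _) (hn'2 _ _ _ _) (hm2 _ _ _ _) (hn2 _ _ _ _)]
      have : ((Φ p0 q i0 j0).coeff m').coeff m = 0 := by
        by_contra hcon
        have h1 := (hΦs _ _ _ _ _ _ hcon).2
        have h2 := (hΦs _ _ _ _ _ _ hne).2
        exact hq (h1.trans h2.symm)
      rw [this, zero_mul]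
    · simp
  · intro p _ hp
    apply Finset.sum_eq_zero
    intro q _
    rw [coeff_coeff_mul (hm'2 _ _ _ _) (hn'2 _ _ _ _) (hm2 _ _ _ _) (hn2 _ _ _ _)]
    have : ((Φ p q i0 j0).coeff m').coeff m = 0 := by
      by_contra hcon
      have h1 := (hΦs _ _ _ _ _ _ hcon).1
      have h2 := (hΦs _ _ _ _ _ _ hne).1
      apply hp
      rw [h1] at h2
      exact add_right_cancel h2
    rw [this, zero_mul]
  · simp

/-- The one parameter lemma: matrices with the cyclic symmetry have no zero divisors. -/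
theorem one_param {R : Type*} [CommRing R] [IsDomain R] {k : ℕ} [NeZero k]
    (σ : R →+* R) (hσ : Function.Injective σ)
    (M N : Matrix (ZMod k) (ZMod k) R[X][X])
    (hMs : ∀ i j j' m m', ((M i j).coeff m').coeff m ≠ 0 → ((M i j').coeff m').coeff m ≠ 0 → j = j')
    (hM : ∀ i j m m', ((M (i + 1) (j + 1)).coeff m').coeff m = σ (((M i j).coeff m').coeff m))
    (hN : ∀ i j m m', ((N (i + 1) (j + 1)).coeff m').coeff m = σ (((N i j).coeff m').coeff m))
    (hM0 : M ≠ 0) (hN0 : N ≠ 0) : M * N ≠ 0 := by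
  classical
  have hM0' : ∃ a : ZMod k × ZMod k, M a.1 a.2 ≠ 0 := by
    by_contra h
    push Not at h
    apply hM0
    ext1 i j
    exact h (i, j)
  have hN0' : ∃ a : ZMod k × ZMod k, N a.1 a.2 ≠ 0 := by
    by_contra h
    push Not at h
    apply hN0
    ext1 i j
    exact h (i, j)
  obtain ⟨m', m, ⟨i0, j0⟩, hm', hm, hne⟩ := exists_top (fun a : ZMod k × ZMod k => M a.1 a.2) hM0'
  obtain ⟨n', n, ⟨i1, j1⟩, hn', hn, hne'⟩ := exists_top (fun a : ZMod k × ZMod k => N a.1 a.2) hN0'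
  simp only at hne hne'
  have hm'2 : ∀ p q, (M p q).natDegree ≤ m' := fun p q => hm' (p, q)
  have hm2 : ∀ p q, ((M p q).coeff m').natDegree ≤ m := fun p q => hm (p, q)
  have hn'2 : ∀ p q, (N p q).natDegree ≤ n' := fun p q => hn' (p, q)
  have hn2 : ∀ p q, ((N p q).coeff n').natDegree ≤ n := fun p q => hn (p, q)
  have hshift : ∀ s : ℕ, ((N (i1 + s) (j1 + s)).coeff n').coeff n ≠ 0 := by
    intro s
    induction s with
    | zero => simpa using hne'
    | succ s ih =>
      have h1 := hN (i1 + s) (j1 + s) n n'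
      rw [Nat.cast_succ, ← add_assoc, ← add_assoc, h1]
      rwa [Ne, map_eq_zero_iff σ hσ]
  have hs := hshift (j0 - i1).val
  rw [ZMod.natCast_zmod_val] at hs
  have e1 : i1 + (j0 - i1) = j0 := by ring
  rw [e1] at hs
  intro hzero
  have h0 := congrFun (congrFun hzero i0) (j1 + (j0 - i1))
  rw [Matrix.mul_apply, Matrix.zero_apply] at h0
  have hc := congrArg (fun f : R[X][X] => (f.coeff (m' + n')).coeff (m + n)) h0
  simp only [Polynomial.finsetSum_coeff, Polynomial.coeff_zero] at hc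
  rw [Finset.sum_eq_single j0] at hc
  · rw [coeff_coeff_mul (hm'2 _ _) (hn'2 _ _) (hm2 _ _) (hn2 _ _)] at hc
    rcases mul_eq_zero.mp hc with h | h
    · exact hne h
    · exact hs h
  · intro q _ hq
    rw [coeff_coeff_mul (hm'2 _ _) (hn'2 _ _) (hm2 _ _) (hn2 _ _)]
    have : ((M i0 q).coeff m').coeff m = 0 := by
      by_contra hcon
      exact hq (hMs _ _ _ _ _ hcon hne)
    rw [this, zero_mul]
  · simp

end Pool.Agent.Helper12
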