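import Mathlib
import Pool.Agent.Helper12.FreeEval
import Pool.Agent.Helper12.TwoParam

/-!
Block triangular evaluations of elements of the free algebra.
-/

set_option linter.unusedSectionVars false
set_option linter.unusedVariables false

open Matrix Polynomial

namespace Pool.Agent.Helper12

variable {K : Type*} [Field K] {X : Type*}

/-- An element of the free algebra involves only finitely many letters. -/
theorem exists_letters (P : FreeAlgebra K X) :
    ∃ S : Finset X, ∀ (A : Type*) [Semiring A] [Algebra K A] (a b : X → A),
      (∀ y ∈ S, a y = b y) → FreeAlgebra.lift K a P = FreeAlgebra.lift K b P := by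
  classical
  induction P using FreeAlgebra.induction with
  | grade0 r => exact ⟨∅, fun A _ _ a b _ => by rw [AlgHom.commutes, AlgHom.commutes]⟩
  | grade1 x =>
    refine ⟨{x}, fun A _ _ a b h => ?_⟩
    rw [FreeAlgebra.lift_ι_apply, FreeAlgebra.lift_ι_apply]
    exact h x (Finset.mem_singleton_self x)
  | mul p q hp hq =>
    obtain ⟨S, hS⟩ := hp
    obtain ⟨S', hS'⟩ := hq
    refine ⟨S ∪ S', fun A _ _ a b h => ?_⟩
    rw [map_mul, map_mul, hS A a b (fun y hy => h y (Finset.mem_union_left _ hy)),
      hS' A a b (fun y hy => h y (Finset.mem_union_right _ hy))]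
  | add p q hp hq =>
    obtain ⟨S, hS⟩ := hp
    obtain ⟨S', hS'⟩ := hq
    refine ⟨S ∪ S', fun A _ _ a b h => ?_⟩
    rw [map_add, map_add, hS A a b (fun y hy => h y (Finset.mem_union_left _ hy)),
      hS' A a b (fun y hy => h y (Finset.mem_union_right _ hy))]

section Upper

variable {m n : Type*} [Fintype m] [DecidableEq m] [Fintype n] [DecidableEq n]
variable {S : Type*} [CommRing S] [Algebra K S]

/-- Block upper triangular assignment. -/
def upA (a : X → Matrix m m S) (b : X → Matrix n n S) (Y : X → Matrix m n S) :
    X → Matrix (m ⊕ n) (m ⊕ n) S := fun y => fromBlocks (a y) (Y y) 0 (b y)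

/-- Block lower triangular assignment. -/
def loA (a : X → Matrix m m S) (b : X → Matrix n n S) (Z : X → Matrix n m S) :
    X → Matrix (m ⊕ n) (m ⊕ n) S := fun y => fromBlocks (a y) 0 (Z y) (b y)

theorem algebraMap_fromBlocks (r : K) :
    (algebraMap K (Matrix (m ⊕ n) (m ⊕ n) S)) r
      = fromBlocks (algebraMap K (Matrix m m S) r) 0 0 (algebraMap K (Matrix n n S) r) := by
  rw [Matrix.algebraMap_eq_diagonal, Matrix.algebraMap_eq_diagonal, Matrix.algebraMap_eq_diagonal,
    Matrix.fromBlocks_diagonal]
  congr 1
  funext x
  rcases x with x | x <;> simp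

theorem lift_upA (a : X → Matrix m m S) (b : X → Matrix n n S) (Y : X → Matrix m n S)
    (P : FreeAlgebra K X) :
    FreeAlgebra.lift K (upA a b Y) P = fromBlocks (FreeAlgebra.lift K a P)
      (FreeAlgebra.lift K (upA a b Y) P).toBlocks₁₂ 0 (FreeAlgebra.lift K b P) := by
  induction P using FreeAlgebra.induction with
  | grade0 r =>
    rw [AlgHom.commutes, AlgHom.commutes, AlgHom.commutes, algebraMap_fromBlocks,
      toBlocks_fromBlocks₁₂]
  | grade1 x =>
    rw [FreeAlgebra.lift_ι_apply, FreeAlgebra.lift_ι_apply, FreeAlgebra.lift_ι_apply, upA,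
      toBlocks_fromBlocks₁₂]
  | mul p q hp hq =>
    rw [map_mul, map_mul, map_mul, hp, hq, fromBlocks_multiply, toBlocks_fromBlocks₁₂]
    simp
  | add p q hp hq =>
    rw [map_add, map_add, map_add, hp, hq, fromBlocks_add, toBlocks_fromBlocks₁₂]
    simp

theorem lift_loA (a : X → Matrix m m S) (b : X → Matrix n n S) (Z : X → Matrix n m S)
    (P : FreeAlgebra K X) :
    FreeAlgebra.lift K (loA a b Z) P = fromBlocks (FreeAlgebra.lift K a P)
      0 (FreeAlgebra.lift K (loA a b Z) P).toBlocks₂₁ (FreeAlgebra.lift K b P) := by
  induction P using FreeAlgebra.induction with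
  | grade0 r =>
    rw [AlgHom.commutes, AlgHom.commutes, AlgHom.commutes, algebraMap_fromBlocks,
      toBlocks_fromBlocks₂₁]
  | grade1 x =>
    rw [FreeAlgebra.lift_ι_apply, FreeAlgebra.lift_ι_apply, FreeAlgebra.lift_ι_apply, loA,
      toBlocks_fromBlocks₂₁]
  | mul p q hp hq =>
    rw [map_mul, map_mul, map_mul, hp, hq, fromBlocks_multiply, toBlocks_fromBlocks₂₁]
    simp
  | add p q hp hq =>
    rw [map_add, map_add, map_add, hp, hq, fromBlocks_add, toBlocks_fromBlocks₂₁]
    simp

/-- The off-diagonal block. -/
noncomputable def upD (P : FreeAlgebra K X) (a : X → Matrix m m S) (b : X → Matrix n n S)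
    (Y : X → Matrix m n S) : Matrix m n S := (FreeAlgebra.lift K (upA a b Y) P).toBlocks₁₂

noncomputable def loD (P : FreeAlgebra K X) (a : X → Matrix m m S) (b : X → Matrix n n S)
    (Z : X → Matrix n m S) : Matrix n m S := (FreeAlgebra.lift K (loA a b Z) P).toBlocks₂₁

theorem upD_algebraMap (r : K) (a : X → Matrix m m S) (b : X → Matrix n n S)
    (Y : X → Matrix m n S) : upD (algebraMap K (FreeAlgebra K X) r) a b Y = 0 := by
  unfold upD
  rw [AlgHom.commutes, algebraMap_fromBlocks, toBlocks_fromBlocks₁₂]

theorem upD_ι (x : X) (a : X → Matrix m m S) (b : X → Matrix n n S)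
    (Y : X → Matrix m n S) : upD (FreeAlgebra.ι K x) a b Y = Y x := by
  unfold upD
  rw [FreeAlgebra.lift_ι_apply, upA, toBlocks_fromBlocks₁₂]

theorem upD_mul (p q : FreeAlgebra K X) (a : X → Matrix m m S) (b : X → Matrix n n S)
    (Y : X → Matrix m n S) :
    upD (p * q) a b Y = FreeAlgebra.lift K a p * upD q a b Y + upD p a b Y * FreeAlgebra.lift K b q := by
  unfold upD
  rw [map_mul, lift_upA a b Y p, lift_upA a b Y q, fromBlocks_multiply, toBlocks_fromBlocks₁₂,
    toBlocks_fromBlocks₁₂, toBlocks_fromBlocks₁₂]

theorem upD_add (p q : FreeAlgebra K X) (a : X → Matrix m m S) (b : X → Matrix n n S)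
    (Y : X → Matrix m n S) :
    upD (p + q) a b Y = upD p a b Y + upD q a b Y := by
  unfold upD
  rw [map_add, lift_upA a b Y p, lift_upA a b Y q, fromBlocks_add, toBlocks_fromBlocks₁₂,
    toBlocks_fromBlocks₁₂, toBlocks_fromBlocks₁₂]

theorem loD_algebraMap (r : K) (a : X → Matrix m m S) (b : X → Matrix n n S)
    (Z : X → Matrix n m S) : loD (algebraMap K (FreeAlgebra K X) r) a b Z = 0 := by
  unfold loD
  rw [AlgHom.commutes, algebraMap_fromBlocks, toBlocks_fromBlocks₂₁]

theorem loD_ι (x : X) (a : X → Matrix m m S) (b : X → Matrix n n S)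
    (Z : X → Matrix n m S) : loD (FreeAlgebra.ι K x) a b Z = Z x := by
  unfold loD
  rw [FreeAlgebra.lift_ι_apply, loA, toBlocks_fromBlocks₂₁]

theorem loD_mul (p q : FreeAlgebra K X) (a : X → Matrix m m S) (b : X → Matrix n n S)
    (Z : X → Matrix n m S) :
    loD (p * q) a b Z = loD p a b Z * FreeAlgebra.lift K a q + FreeAlgebra.lift K b p * loD q a b Z := by
  unfold loD
  rw [map_mul, lift_loA a b Z p, lift_loA a b Z q, fromBlocks_multiply, toBlocks_fromBlocks₂₁,
    toBlocks_fromBlocks₂₁, toBlocks_fromBlocks₂₁]

theorem loD_add (p q : FreeAlgebra K X) (a : X → Matrix m m S) (b : X → Matrix n n S)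
    (Z : X → Matrix n m S) :
    loD (p + q) a b Z = loD p a b Z + loD q a b Z := by
  unfold loD
  rw [map_add, lift_loA a b Z p, lift_loA a b Z q, fromBlocks_add, toBlocks_fromBlocks₂₁,
    toBlocks_fromBlocks₂₁, toBlocks_fromBlocks₂₁]

theorem upD_lin (P : FreeAlgebra K X) (a : X → Matrix m m S) (b : X → Matrix n n S)
    (Y Y' : X → Matrix m n S) (s : S) :
    upD P a b (fun x => s • Y x + Y' x) = s • upD P a b Y + upD P a b Y' := by
  induction P using FreeAlgebra.induction with
  | grade0 r => simp only [upD_algebraMap, smul_zero, add_zero]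
  | grade1 x => simp only [upD_ι]
  | mul p q hp hq =>
    simp only [upD_mul, hp, hq, Matrix.mul_add, Matrix.add_mul, smul_add, Matrix.mul_smul, Matrix.smul_mul]
    abel
  | add p q hp hq =>
    simp only [upD_add, hp, hq, smul_add]
    abel

theorem loD_lin (P : FreeAlgebra K X) (a : X → Matrix m m S) (b : X → Matrix n n S)
    (Z Z' : X → Matrix n m S) (s : S) :
    loD P a b (fun x => s • Z x + Z' x) = s • loD P a b Z + loD P a b Z' := by
  induction P using FreeAlgebra.induction with
  | grade0 r => simp only [loD_algebraMap, smul_zero, add_zero]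
  | grade1 x => simp only [loD_ι]
  | mul p q hp hq =>
    simp only [loD_mul, hp, hq, Matrix.mul_add, Matrix.add_mul, smul_add, Matrix.mul_smul, Matrix.smul_mul]
    abel
  | add p q hp hq =>
    simp only [loD_add, hp, hq, smul_add]
    abel

theorem upD_zero (P : FreeAlgebra K X) (a : X → Matrix m m S) (b : X → Matrix n n S) :
    upD P a b (fun _ => 0) = 0 := by
  have := upD_lin P a b (fun _ => 0) (fun _ => 0) 1
  simpa using this

theorem loD_zero (P : FreeAlgebra K X) (a : X → Matrix m m S) (b : X → Matrix n n S) :
    loD P a b (fun _ => 0) = 0 := by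
  have := loD_lin P a b (fun _ => 0) (fun _ => 0) 1
  simpa using this

/-- If the off-diagonal block vanishes for elementary values it vanishes for all values. -/
theorem upD_eq_zero [DecidableEq X] (P : FreeAlgebra K X) (a : X → Matrix m m S) (b : X → Matrix n n S)
    (h : ∀ x i j, upD P a b (fun y => if y = x then single i j 1 else 0) = 0)
    (Y : X → Matrix m n S) : upD P a b Y = 0 := by
  obtain ⟨F, hF⟩ := exists_letters P
  have key : ∀ (F : Finset X) (Y : X → Matrix m n S), (∀ y, y ∉ F → Y y = 0) → upD P a b Y = 0 := by
    intro F
    induction F using Finset.induction_on with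
    | empty =>
      intro Y hY
      have : Y = fun _ => 0 := by funext y; exact hY y (by simp)
      rw [this, upD_zero]
    | insert x F hx ih =>
      intro Y hY
      have h1 : Y = fun y => (1 : S) • (if y = x then Y x else 0) + (if y = x then 0 else Y y) := by
        funext y
        by_cases hy : y = x
        · subst hy; simp
        · simp [hy]
      rw [h1, upD_lin]
      have h2 : upD P a b (fun y => if y = x then 0 else Y y) = 0 := by
        apply ih
        intro y hy
        by_cases hyx : y = x
        · simp [hyx]
        · simp only [hyx, if_false]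
          apply hY
          simp [hyx, hy]
      have h3 : ∀ M : Matrix m n S, upD P a b (fun y => if y = x then M else 0) = 0 := by
        intro M
        induction M using Matrix.induction_on' with
        | h_zero =>
          have : (fun y => if y = x then (0 : Matrix m n S) else 0) = fun _ => 0 := by
            funext y; simp
          rw [this, upD_zero]
        | h_add M N hM hN =>
          have : (fun y => if y = x then M + N else 0)
              = fun y => (1 : S) • (if y = x then M else 0) + (if y = x then N else 0) := by
            funext y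
            by_cases hy : y = x <;> simp [hy]
          rw [this, upD_lin, hM, hN]; simp
        | h_std_basis i j r =>
          have : (fun y => if y = x then single i j r else 0)
              = fun y => r • (if y = x then single i j (1 : S) else 0) + (fun _ => 0) y := by
            funext y
            by_cases hy : y = x <;> simp [hy]
          rw [this, upD_lin, h, upD_zero]; simp
      rw [h2, h3]; simp
  have hY' : upD P a b Y = upD P a b (fun y => if y ∈ F then Y y else 0) := by
    unfold upD
    rw [hF (Matrix (m ⊕ n) (m ⊕ n) S) (upA a b Y) (upA a b (fun y => if y ∈ F then Y y else 0))]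
    intro y hy
    simp only [upA, if_pos hy]
  rw [hY']
  apply key F
  intro y hy
  simp [hy]

theorem loD_eq_zero [DecidableEq X] (P : FreeAlgebra K X) (a : X → Matrix m m S) (b : X → Matrix n n S)
    (h : ∀ x i j, loD P a b (fun y => if y = x then single i j 1 else 0) = 0)
    (Z : X → Matrix n m S) : loD P a b Z = 0 := by
  obtain ⟨F, hF⟩ := exists_letters P
  have key : ∀ (F : Finset X) (Y : X → Matrix n m S), (∀ y, y ∉ F → Y y = 0) → loD P a b Y = 0 := by
    intro F
    induction F using Finset.induction_on with
    | empty =>
      intro Y hY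
      have : Y = fun _ => 0 := by funext y; exact hY y (by simp)
      rw [this, loD_zero]
    | insert x F hx ih =>
      intro Y hY
      have h1 : Y = fun y => (1 : S) • (if y = x then Y x else 0) + (if y = x then 0 else Y y) := by
        funext y
        by_cases hy : y = x
        · subst hy; simp
        · simp [hy]
      rw [h1, loD_lin]
      have h2 : loD P a b (fun y => if y = x then 0 else Y y) = 0 := by
        apply ih
        intro y hy
        by_cases hyx : y = x
        · simp [hyx]
        · simp only [hyx, if_false]
          apply hY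
          simp [hyx, hy]
      have h3 : ∀ M : Matrix n m S, loD P a b (fun y => if y = x then M else 0) = 0 := by
        intro M
        induction M using Matrix.induction_on' with
        | h_zero =>
          have : (fun y => if y = x then (0 : Matrix n m S) else 0) = fun _ => 0 := by
            funext y; simp
          rw [this, loD_zero]
        | h_add M N hM hN =>
          have : (fun y => if y = x then M + N else 0)
              = fun y => (1 : S) • (if y = x then M else 0) + (if y = x then N else 0) := by
            funext y
            by_cases hy : y = x <;> simp [hy]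
          rw [this, loD_lin, hM, hN]; simp
        | h_std_basis i j r =>
          have : (fun y => if y = x then single i j r else 0)
              = fun y => r • (if y = x then single i j (1 : S) else 0) + (fun _ => 0) y := by
            funext y
            by_cases hy : y = x <;> simp [hy]
          rw [this, loD_lin, h, loD_zero]; simp
      rw [h2, h3]; simp
  have hY' : loD P a b Z = loD P a b (fun y => if y ∈ F then Z y else 0) := by
    unfold loD
    rw [hF (Matrix (m ⊕ n) (m ⊕ n) S) (loA a b Z) (loA a b (fun y => if y ∈ F then Z y else 0))]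
    intro y hy
    simp only [loA, if_pos hy]
  rw [hY']
  apply key F
  intro y hy
  simp [hy]

end Upper

end Pool.Agent.Helper12
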