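import Mathlib
import Pool.Agent.Helper12.BlockEval

/-!
Generic block matrices with two bookkeeping parameters, their homogeneity and cyclic symmetry.
-/

set_option linter.unusedSectionVars false
set_option linter.unusedVariables false

open Matrix Polynomial

namespace Pool.Agent.Helper12

variable (K : Type*) [Field K] (X : Type*) (k l : ℕ)

/-- Polynomials in the entries of generic `k × k` and `l × l` matrices. -/
abbrev RR := MvPolynomial ((X × ZMod k × ZMod k) ⊕ (X × ZMod l × ZMod l)) K

/-- Two more parameters. -/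
abbrev TT := Polynomial (Polynomial (RR K X k l))

/-- Generic `k × k` matrices weighted by the inner parameter. -/
noncomputable def matA : X → Matrix (ZMod k) (ZMod k) (TT K X k l) :=
  fun y => Matrix.of fun i j =>
    C (C (MvPolynomial.X (Sum.inl (y, i, j))) * Polynomial.X ^ (j - i).val)

/-- Generic `l × l` matrices weighted by the outer parameter. -/
noncomputable def matB : X → Matrix (ZMod l) (ZMod l) (TT K X k l) :=
  fun y => Matrix.of fun i j =>
    C (C (MvPolynomial.X (Sum.inr (y, i, j)))) * Polynomial.X ^ (j - i).val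

variable {K X k l}

/-- Bihomogeneity of a matrix over `R[X][X]` for a potential `g`. -/
def BiHom {R : Type*} [CommRing R] {ι : Type*} (g : ι → ZMod k × ZMod l)
    (M : Matrix ι ι R[X][X]) : Prop :=
  ∀ r s m m', ((M r s).coeff m').coeff m ≠ 0 → g s = g r + ((m : ZMod k), (m' : ZMod l))

section

variable {R : Type*} [CommRing R] {ι : Type*} [Fintype ι] [DecidableEq ι]
  {g : ι → ZMod k × ZMod l}

theorem BiHom.mul {M N : Matrix ι ι R[X][X]} (hM : BiHom g M) (hN : BiHom g N) :
    BiHom g (M * N) := by
  intro r s m m' h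
  rw [Matrix.mul_apply, Polynomial.finsetSum_coeff, Polynomial.finsetSum_coeff] at h
  obtain ⟨t, -, ht⟩ := Finset.exists_ne_zero_of_sum_ne_zero h
  rw [Polynomial.coeff_mul, Polynomial.finsetSum_coeff] at ht
  obtain ⟨⟨a, b⟩, hab, h2⟩ := Finset.exists_ne_zero_of_sum_ne_zero ht
  rw [Polynomial.coeff_mul] at h2
  obtain ⟨⟨c, d⟩, hcd, h3⟩ := Finset.exists_ne_zero_of_sum_ne_zero h2
  rw [Finset.HasAntidiagonal.mem_antidiagonal] at hab hcd
  simp only at hab hcd h3
  have e1 := hM r t c a (left_ne_zero_of_mul h3)
  have e2 := hN t s d b (right_ne_zero_of_mul h3)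
  rw [e2, e1, add_assoc]
  congr 1
  rw [← hab, ← hcd, Nat.cast_add, Nat.cast_add]
  rfl

theorem BiHom.add {M N : Matrix ι ι R[X][X]} (hM : BiHom g M) (hN : BiHom g N) :
    BiHom g (M + N) := by
  intro r s m m' h
  by_cases h1 : ((M r s).coeff m').coeff m = 0
  · by_cases h2 : ((N r s).coeff m').coeff m = 0
    · exfalso; apply h; simp [h1, h2]
    · exact hN r s m m' h2
  · exact hM r s m m' h1

theorem BiHom.scalar (r : R) : BiHom g (Matrix.scalar ι (C (C r)) : Matrix ι ι R[X][X]) := by
  intro i j m m' h
  by_cases hij : i = j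
  · subst hij
    rw [Matrix.scalar_apply, Matrix.diagonal_apply_eq, Polynomial.coeff_C] at h
    split_ifs at h with h1
    · rw [Polynomial.coeff_C] at h
      split_ifs at h with h2
      · rw [h1, h2]; simp
      · exact absurd rfl h
    · exact absurd (Polynomial.coeff_zero _) h
  · rw [Matrix.scalar_apply, Matrix.diagonal_apply_ne _ hij] at h
    simp at h

theorem BiHom.lift [Algebra K R] {a : X → Matrix ι ι R[X][X]} (h : ∀ x, BiHom g (a x))
    (P : FreeAlgebra K X) : BiHom g (FreeAlgebra.lift K a P) := by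
  induction P using FreeAlgebra.induction with
  | grade0 r =>
    rw [AlgHom.commutes]
    have : algebraMap K (Matrix ι ι R[X][X]) r = Matrix.scalar ι (C (C (algebraMap K R r))) := by
      rw [Matrix.algebraMap_eq_diagonal]
      rfl
    rw [this]
    exact BiHom.scalar _
  | grade1 x => rw [FreeAlgebra.lift_ι_apply]; exact h x
  | mul p q hp hq => rw [map_mul]; exact hp.mul hq
  | add p q hp hq => rw [map_add]; exact hp.add hq

end

/-- Coefficientwise action of an algebra endomorphism. -/
noncomputable def tau {R : Type*} [CommRing R] [Algebra K R] (σ : R →ₐ[K] R) :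
    R[X][X] →ₐ[K] R[X][X] := mapAlgHom (mapAlgHom σ)

theorem coeff_tau {R : Type*} [CommRing R] [Algebra K R] (σ : R →ₐ[K] R) (f : R[X][X]) (m m' : ℕ) :
    ((tau σ f).coeff m').coeff m = σ ((f.coeff m').coeff m) := by
  simp [tau]

/-- Cyclic shift of the first family of variables. -/
noncomputable def sigA : RR K X k l →ₐ[K] RR K X k l :=
  MvPolynomial.rename (Sum.map (fun t => (t.1, t.2.1 + 1, t.2.2 + 1)) id)

/-- Cyclic shift of the second family of variables. -/
noncomputable def sigB : RR K X k l →ₐ[K] RR K X k l :=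
  MvPolynomial.rename (Sum.map id (fun t => (t.1, t.2.1 + 1, t.2.2 + 1)))

theorem sigA_injective : Function.Injective (sigA : RR K X k l →ₐ[K] RR K X k l) := by
  apply MvPolynomial.rename_injective
  apply Function.Injective.sumMap _ Function.injective_id
  rintro ⟨x, i, j⟩ ⟨x', i', j'⟩ h
  simp only [Prod.mk.injEq, add_left_inj] at h
  obtain ⟨h1, h2, h3⟩ := h
  rw [h1, h2, h3]

theorem sigB_injective : Function.Injective (sigB : RR K X k l →ₐ[K] RR K X k l) := by
  apply MvPolynomial.rename_injective
  apply Function.Injective.sumMap Function.injective_id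
  rintro ⟨x, i, j⟩ ⟨x', i', j'⟩ h
  simp only [Prod.mk.injEq, add_left_inj] at h
  obtain ⟨h1, h2, h3⟩ := h
  rw [h1, h2, h3]

theorem tau_sigA_matA (y : X) (i j : ZMod k) :
    tau sigA (matA K X k l y i j) = matA K X k l y (i + 1) (j + 1) := by
  have : j + 1 - (i + 1) = j - i := by ring
  simp only [matA, Matrix.of_apply, this, tau, coe_mapAlgHom]
  simp [sigA]

theorem tau_sigA_matB (y : X) (i j : ZMod l) :
    tau sigA (matB K X k l y i j) = matB K X k l y i j := by
  simp only [matB, Matrix.of_apply, tau, coe_mapAlgHom]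
  simp [sigA]

theorem tau_sigB_matB (y : X) (i j : ZMod l) :
    tau sigB (matB K X k l y i j) = matB K X k l y (i + 1) (j + 1) := by
  have : j + 1 - (i + 1) = j - i := by ring
  simp only [matB, Matrix.of_apply, this, tau, coe_mapAlgHom]
  simp [sigB]

theorem tau_sigB_matA (y : X) (i j : ZMod k) :
    tau sigB (matA K X k l y i j) = matA K X k l y i j := by
  simp only [matA, Matrix.of_apply, tau, coe_mapAlgHom]
  simp [sigB]

theorem coeff_matA {y : X} [NeZero k] {i j : ZMod k} {m m' : ℕ}
    (h : ((matA K X k l y i j).coeff m').coeff m ≠ 0) : (m : ZMod k) = j - i ∧ m' = 0 := by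
  simp only [matA, Matrix.of_apply, Polynomial.coeff_C] at h
  split_ifs at h with h1
  · rw [Polynomial.coeff_C_mul, Polynomial.coeff_X_pow] at h
    split_ifs at h with h2
    · exact ⟨by rw [h2, ZMod.natCast_zmod_val], h1⟩
    · simp at h
  · exact absurd (Polynomial.coeff_zero _) h

theorem coeff_matB {y : X} [NeZero l] {i j : ZMod l} {m m' : ℕ}
    (h : ((matB K X k l y i j).coeff m').coeff m ≠ 0) : (m' : ZMod l) = j - i ∧ m = 0 := by
  simp only [matB, Matrix.of_apply] at h
  rw [Polynomial.coeff_C_mul, Polynomial.coeff_X_pow] at h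
  split_ifs at h with h2
  · rw [mul_one, Polynomial.coeff_C] at h
    split_ifs at h with h1
    · exact ⟨by rw [h2, ZMod.natCast_zmod_val], h1⟩
    · exact absurd rfl h
  · simp at h

/-- Specialisation of all parameters. -/
noncomputable def specTT (a : X → Matrix (ZMod k) (ZMod k) K) (b : X → Matrix (ZMod l) (ZMod l) K) :
    TT K X k l →ₐ[K] K :=
  (Polynomial.aeval (R := K) (1 : K)).comp (mapAlgHom ((Polynomial.aeval (R := K) (1 : K)).comp
    (mapAlgHom (MvPolynomial.aeval (Sum.elim (fun t => a t.1 t.2.1 t.2.2)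
      (fun t => b t.1 t.2.1 t.2.2))))))

theorem specTT_matA (a : X → Matrix (ZMod k) (ZMod k) K) (b : X → Matrix (ZMod l) (ZMod l) K) (y : X) :
    (matA K X k l y).map (specTT a b) = a y := by
  ext i j
  simp [specTT, matA]

theorem specTT_matB (a : X → Matrix (ZMod k) (ZMod k) K) (b : X → Matrix (ZMod l) (ZMod l) K) (y : X) :
    (matB K X k l y).map (specTT a b) = b y := by
  ext i j
  simp [specTT, matB]

end Pool.Agent.Helper12
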