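import Mathlib
import Pool.Agent.Helper12.CyclicGeneric

/-!
Power-scalar polynomials and block triangular matrices.
-/

set_option linter.unusedSectionVars false
set_option linter.unusedVariables false

open Matrix Polynomial

namespace Pool.Agent.Helper12

variable {K : Type*} [Field K] {X : Type*}

section Eps

variable {m n : Type*} [Fintype m] [DecidableEq m] [Fintype n] [DecidableEq n]
variable {S : Type*} [CommRing S] [Algebra K S]

/-- First order deformation of a block diagonal tuple. -/
noncomputable def epsA (a : X → Matrix m m S) (b : X → Matrix n n S) (Y : X → Matrix m n S)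
    (Z : X → Matrix n m S) : X → Matrix (m ⊕ n) (m ⊕ n) S[X] :=
  fun y => fromBlocks ((a y).map C) ((Y y).map (fun s => C s * Polynomial.X))
    ((Z y).map (fun s => C s * Polynomial.X)) ((b y).map C)

theorem coeff_zero_mul' {ι : Type*} [Fintype ι] (M N : Matrix ι ι S[X]) :
    (M * N).map (fun f => f.coeff 0) = M.map (fun f => f.coeff 0) * N.map (fun f => f.coeff 0) := by
  ext r s
  simp [Matrix.mul_apply, Polynomial.finsetSum_coeff, Polynomial.mul_coeff_zero]

theorem coeff_one_mul' {ι : Type*} [Fintype ι] (M N : Matrix ι ι S[X]) :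
    (M * N).map (fun f => f.coeff 1) = M.map (fun f => f.coeff 0) * N.map (fun f => f.coeff 1)
      + M.map (fun f => f.coeff 1) * N.map (fun f => f.coeff 0) := by
  ext r s
  simp [Matrix.mul_apply, Polynomial.finsetSum_coeff, Polynomial.mul_coeff_one,
    Finset.sum_add_distrib]

theorem eps_coeffs (a : X → Matrix m m S) (b : X → Matrix n n S) (Y : X → Matrix m n S)
    (Z : X → Matrix n m S) (P : FreeAlgebra K X) :
    (FreeAlgebra.lift K (epsA a b Y Z) P).map (fun f => f.coeff 0)
      = fromBlocks (FreeAlgebra.lift K a P) 0 0 (FreeAlgebra.lift K b P) ∧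
    (FreeAlgebra.lift K (epsA a b Y Z) P).map (fun f => f.coeff 1)
      = fromBlocks 0 (upD P a b Y) (loD P a b Z) 0 := by
  induction P using FreeAlgebra.induction with
  | grade0 r =>
    rw [AlgHom.commutes, AlgHom.commutes, AlgHom.commutes, upD_algebraMap, loD_algebraMap]
    constructor
    · ext r' s'
      by_cases hrs : r' = s'
      · subst hrs
        rcases r' with r' | r' <;>
          simp [Matrix.algebraMap_matrix_apply, Polynomial.algebraMap_apply]
      · rcases r' with r' | r' <;> rcases s' with s' | s' <;>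
          simp [Matrix.algebraMap_matrix_apply, Polynomial.algebraMap_apply] <;>
          (try (have h2 : r' ≠ s' := fun h => hrs (by rw [h])
                simp [h2]))
    · ext r' s'
      by_cases hrs : r' = s'
      · subst hrs
        rcases r' with r' | r' <;>
          simp [Matrix.algebraMap_matrix_apply, Polynomial.algebraMap_apply]
      · rcases r' with r' | r' <;> rcases s' with s' | s' <;>
          simp [Matrix.algebraMap_matrix_apply, Polynomial.algebraMap_apply] <;>
          (try (have h2 : r' ≠ s' := fun h => hrs (by rw [h])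
                simp [h2]))
  | grade1 x =>
    rw [FreeAlgebra.lift_ι_apply, FreeAlgebra.lift_ι_apply, FreeAlgebra.lift_ι_apply, upD_ι, loD_ι]
    constructor
    · ext r' s'
      rcases r' with r' | r' <;> rcases s' with s' | s' <;> simp [epsA]
    · ext r' s'
      rcases r' with r' | r' <;> rcases s' with s' | s' <;> simp [epsA, Polynomial.coeff_C]
  | mul p q hp hq =>
    rw [map_mul, map_mul, map_mul, coeff_zero_mul', coeff_one_mul', hp.1, hq.1, hp.2, hq.2,
      upD_mul, loD_mul, fromBlocks_multiply, fromBlocks_multiply, fromBlocks_multiply,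
      fromBlocks_add]
    constructor
    · simp
    · simp [add_comm]
  | add p q hp hq =>
    rw [map_add, map_add, map_add, upD_add, loD_add]
    constructor
    · have : (FreeAlgebra.lift K (epsA a b Y Z) p + FreeAlgebra.lift K (epsA a b Y Z) q).map
          (fun f => f.coeff 0) = (FreeAlgebra.lift K (epsA a b Y Z) p).map (fun f => f.coeff 0)
            + (FreeAlgebra.lift K (epsA a b Y Z) q).map (fun f => f.coeff 0) := by
        ext r s; simp
      rw [this, hp.1, hq.1, fromBlocks_add]
      simp
    · have : (FreeAlgebra.lift K (epsA a b Y Z) p + FreeAlgebra.lift K (epsA a b Y Z) q).map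
          (fun f => f.coeff 1) = (FreeAlgebra.lift K (epsA a b Y Z) p).map (fun f => f.coeff 1)
            + (FreeAlgebra.lift K (epsA a b Y Z) q).map (fun f => f.coeff 1) := by
        ext r s; simp
      rw [this, hp.2, hq.2, fromBlocks_add]
      simp

/-- The `ν`-th power of the leading term of a deformation is scalar. -/
theorem eps_pow [IsDomain S] {ν : ℕ} {P : FreeAlgebra K X}
    (hpow : ∀ c : X → Matrix (m ⊕ n) (m ⊕ n) S[X],
      (∀ i j, i ≠ j → ((FreeAlgebra.lift K c P) ^ ν) i j = 0) ∧
      (∀ i j, ((FreeAlgebra.lift K c P) ^ ν) i i = ((FreeAlgebra.lift K c P) ^ ν) j j))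
    {a : X → Matrix m m S} {b : X → Matrix n n S} (ha : FreeAlgebra.lift K a P = 0)
    (hb : FreeAlgebra.lift K b P = 0) (Y : X → Matrix m n S) (Z : X → Matrix n m S) :
    (∀ i j, i ≠ j → ((fromBlocks 0 (upD P a b Y) (loD P a b Z) 0) ^ ν) i j = 0) ∧
    (∀ i j, ((fromBlocks 0 (upD P a b Y) (loD P a b Z) 0) ^ ν) i i
      = ((fromBlocks 0 (upD P a b Y) (loD P a b Z) 0) ^ ν) j j) := by
  set M := FreeAlgebra.lift K (epsA a b Y Z) P with hM
  obtain ⟨h0, h1⟩ := eps_coeffs a b Y Z P
  rw [ha, hb, ← hM, fromBlocks_zero] at h0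
  rw [← hM] at h1
  set M1 : Matrix (m ⊕ n) (m ⊕ n) S[X] := M.map Polynomial.divX with hM1
  have hMX : M = (Polynomial.X : S[X]) • M1 := by
    ext1 r s
    have e0 : (M r s).coeff 0 = 0 := by
      have := congrFun (congrFun h0 r) s
      simpa using this
    have e1 := Polynomial.divX_mul_X_add (M r s)
    rw [e0, map_zero, add_zero] at e1
    rw [Matrix.smul_apply, hM1, Matrix.map_apply, smul_eq_mul, mul_comm]
    exact e1.symm
  have hN : M1.map (fun f => f.coeff 0) = fromBlocks 0 (upD P a b Y) (loD P a b Z) 0 := by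
    rw [← h1]
    ext r s
    simp [hM1, Polynomial.coeff_divX]
  have hpw : M ^ ν = (Polynomial.X ^ ν : S[X]) • M1 ^ ν := by
    rw [hMX, _root_.smul_pow]
  have hcoef : ∀ j : ℕ, (M1 ^ j).map (fun f => f.coeff 0)
      = (fromBlocks 0 (upD P a b Y) (loD P a b Z) 0) ^ j := by
    intro j
    induction j with
    | zero =>
      ext r s
      by_cases hrs : r = s
      · subst hrs; simp
      · simp [Matrix.one_apply_ne hrs]
    | succ j ih => rw [pow_succ, pow_succ, coeff_zero_mul', ih, hN]
  have hX : (Polynomial.X ^ ν : S[X]) ≠ 0 := pow_ne_zero _ Polynomial.X_ne_zero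
  obtain ⟨g1, g2⟩ := hpow (epsA a b Y Z)
  rw [← hM, hpw] at g1 g2
  constructor
  · intro i j hij
    have e1 := g1 i j hij
    rw [Matrix.smul_apply, smul_eq_mul] at e1
    have e2 := (mul_eq_zero.mp e1).resolve_left hX
    have e3 := congrFun (congrFun (hcoef ν) i) j
    rw [Matrix.map_apply, e2, Polynomial.coeff_zero] at e3
    exact e3.symm
  · intro i j
    have e1 := g2 i j
    rw [Matrix.smul_apply, smul_eq_mul, Matrix.smul_apply, smul_eq_mul] at e1
    have e2 := mul_left_cancel₀ hX e1
    have e3 := congrFun (congrFun (hcoef ν) i) i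
    have e4 := congrFun (congrFun (hcoef ν) j) j
    rw [Matrix.map_apply] at e3 e4
    rw [← e3, ← e4, e2]

theorem fromBlocks_diag_pow (A : Matrix m m S) (D : Matrix n n S) (j : ℕ) :
    (fromBlocks A 0 0 D) ^ j = fromBlocks (A ^ j) 0 0 (D ^ j) := by
  induction j with
  | zero => simp [fromBlocks_one]
  | succ j ih => rw [pow_succ, ih, fromBlocks_multiply, pow_succ, pow_succ]; simp

/-- Rank argument: an antidiagonal block matrix with rectangular blocks some power of which is
scalar is nilpotent. -/
theorem antidiag_nilpotent [IsDomain S] (hmn : Fintype.card m ≠ Fintype.card n) {ν : ℕ} (hν : ν ≠ 0)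
    (φ : Matrix m n S) (ψ : Matrix n m S)
    (h1 : ∀ i j, i ≠ j → ((fromBlocks 0 φ ψ 0) ^ ν : Matrix (m ⊕ n) (m ⊕ n) S) i j = 0)
    (h2 : ∀ i j, ((fromBlocks 0 φ ψ 0) ^ ν : Matrix (m ⊕ n) (m ⊕ n) S) i i
      = ((fromBlocks 0 φ ψ 0) ^ ν) j j) :
    IsNilpotent (φ * ψ) := by
  classical
  set N : Matrix (m ⊕ n) (m ⊕ n) S := fromBlocks 0 φ ψ 0 with hN
  -- the scalar
  rcases isEmpty_or_nonempty (m ⊕ n) with hemp | ⟨⟨r0⟩⟩
  · exact ⟨1, by ext i; exact (hemp.false (Sum.inl i)).elim⟩
  set c := (N ^ ν) r0 r0 with hc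
  have hNν : N ^ ν = Matrix.scalar (m ⊕ n) c := by
    ext i j
    by_cases hij : i = j
    · subst hij
      rw [Matrix.scalar_apply, Matrix.diagonal_apply_eq]
      exact h2 i r0
    · rw [Matrix.scalar_apply, Matrix.diagonal_apply_ne _ hij]
      exact h1 i j hij
  have hN2 : N * N = fromBlocks (φ * ψ) 0 0 (ψ * φ) := by
    rw [hN, fromBlocks_multiply]; simp
  have hN2ν : fromBlocks ((φ * ψ) ^ ν) 0 0 ((ψ * φ) ^ ν) = Matrix.scalar (m ⊕ n) (c * c) := by
    rw [← fromBlocks_diag_pow, ← hN2, ← pow_two, ← pow_mul, mul_comm 2 ν, pow_mul, hNν, pow_two,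
      ← map_mul]
  have hA : (φ * ψ) ^ ν = Matrix.scalar m (c * c) := by
    ext i j
    have := congrFun (congrFun hN2ν (Sum.inl i)) (Sum.inl j)
    rw [fromBlocks_apply₁₁] at this
    rw [this]
    by_cases hij : i = j
    · subst hij; simp
    · simp [hij]
  have hB : (ψ * φ) ^ ν = Matrix.scalar n (c * c) := by
    ext i j
    have := congrFun (congrFun hN2ν (Sum.inr i)) (Sum.inr j)
    rw [fromBlocks_apply₂₂] at this
    rw [this]
    by_cases hij : i = j
    · subst hij; simp
    · simp [hij]
  by_cases hcz : c * c = 0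
  · exact ⟨ν, by rw [hA, hcz, map_zero]⟩
  exfalso
  have hinj := IsFractionRing.injective S (FractionRing S)
  set f : S →+* FractionRing S := algebraMap S (FractionRing S) with hf
  have hcF : f (c * c) ≠ 0 := by
    intro h
    exact hcz ((map_eq_zero_iff _ hinj).mp h)
  have hunitA : IsUnit (φ.map f * ψ.map f) := by
    rw [← isUnit_pow_iff hν, ← Matrix.map_mul]
    have h3 : ((φ * ψ).map f) ^ ν = Matrix.scalar m (f (c * c)) := by
      have h4 := map_pow (f.mapMatrix : Matrix m m S →+* _) (φ * ψ) ν
      rw [hA] at h4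
      simp only [RingHom.mapMatrix_apply] at h4
      rw [← h4]
      ext i j
      by_cases hij : i = j
      · subst hij; simp
      · simp [hij]
    rw [h3]
    exact (IsUnit.mk0 _ hcF).map (Matrix.scalar m)
  have hunitB : IsUnit (ψ.map f * φ.map f) := by
    rw [← isUnit_pow_iff hν, ← Matrix.map_mul]
    have h3 : ((ψ * φ).map f) ^ ν = Matrix.scalar n (f (c * c)) := by
      have h4 := map_pow (f.mapMatrix : Matrix n n S →+* _) (ψ * φ) ν
      rw [hB] at h4
      simp only [RingHom.mapMatrix_apply] at h4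
      rw [← h4]
      ext i j
      by_cases hij : i = j
      · subst hij; simp
      · simp [hij]
    rw [h3]
    exact (IsUnit.mk0 _ hcF).map (Matrix.scalar n)
  have r1 := Matrix.rank_of_isUnit _ hunitA
  have r2 := Matrix.rank_of_isUnit _ hunitB
  have r3 := (Matrix.rank_mul_le_left (φ.map f) (ψ.map f)).trans (Matrix.rank_le_card_width (φ.map f))
  have r4 := (Matrix.rank_mul_le_left (ψ.map f) (φ.map f)).trans (Matrix.rank_le_card_width (ψ.map f))
  rw [r1] at r3
  rw [r2] at r4
  exact hmn (le_antisymm r3 r4)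

end Eps


section Main

/-- `P ^ ν` is scalar valued over `K`, for matrices indexed by `ι`. -/
def PowScalarOn (K : Type*) [Field K] {X : Type*} (ι : Type*) [Fintype ι] [DecidableEq ι] (ν : ℕ)
    (P : FreeAlgebra K X) : Prop :=
  ∀ c : X → Matrix ι ι K, ∃ s : K, (FreeAlgebra.lift K c P) ^ ν = Matrix.scalar ι s

theorem PowScalarOn.transfer [Infinite K] {ι : Type*} [Fintype ι] [DecidableEq ι] {ν : ℕ}
    {P : FreeAlgebra K X} (h : PowScalarOn K ι ν P) {R : Type*} [CommRing R] [Algebra K R]
    (a : X → Matrix ι ι R) :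
    (∀ i j, i ≠ j → ((FreeAlgebra.lift K a P) ^ ν) i j = 0) ∧
    (∀ i j, ((FreeAlgebra.lift K a P) ^ ν) i i = ((FreeAlgebra.lift K a P) ^ ν) j j) := by
  have := scalar_transfer (K := K) (P ^ ν) (by
    intro b
    obtain ⟨c, hc⟩ := h b
    exact ⟨c, by rw [map_pow, hc]⟩) a
  rw [map_pow] at this
  exact this

theorem lift_zero_eq {A : Type*} [Ring A] [Algebra K A] {P : FreeAlgebra K X}
    (hP : FreeAlgebra.lift K (fun _ : X => (0 : K)) P = 0) :
    FreeAlgebra.lift K (fun _ : X => (0 : A)) P = 0 := by
  have h : (Algebra.ofId K A).comp (FreeAlgebra.lift K (fun _ : X => (0 : K)))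
      = FreeAlgebra.lift K (fun _ : X => (0 : A)) := by
    apply FreeAlgebra.hom_ext
    funext x
    simp
  rw [← h]
  simp [hP]

/-- The values on the diagonal blocks are nilpotent. -/
theorem pow_left_zero [Infinite K] {m n : Type*} [Fintype m] [DecidableEq m] [Fintype n]
    [DecidableEq n] [Nonempty n] {ν : ℕ} (hν : ν ≠ 0) {P : FreeAlgebra K X}
    (hP : FreeAlgebra.lift K (fun _ : X => (0 : K)) P = 0) (hpow : PowScalarOn K (m ⊕ n) ν P)
    {S : Type*} [CommRing S] [Algebra K S] (a : X → Matrix m m S) :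
    (FreeAlgebra.lift K a P) ^ ν = 0 := by
  obtain ⟨h1, h2⟩ := hpow.transfer (upA a (fun _ => (0 : Matrix n n S)) (fun _ => 0))
  have h3 : FreeAlgebra.lift K (upA a (fun _ => (0 : Matrix n n S)) (fun _ => 0)) P
      = fromBlocks (FreeAlgebra.lift K a P) 0 0 0 := by
    rw [lift_upA, lift_zero_eq hP]
    have := upD_zero P a (fun _ => (0 : Matrix n n S))
    unfold upD at this
    rw [this]
  rw [h3, fromBlocks_diag_pow, zero_pow hν] at h1 h2
  obtain ⟨j0⟩ := ‹Nonempty n›
  ext i j
  by_cases hij : i = j
  · subst hij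
    have := h2 (Sum.inl i) (Sum.inr j0)
    simpa using this
  · have := h1 (Sum.inl i) (Sum.inl j) (by simpa using hij)
    simpa using this

theorem pow_right_zero [Infinite K] {m n : Type*} [Fintype m] [DecidableEq m] [Fintype n]
    [DecidableEq n] [Nonempty m] {ν : ℕ} (hν : ν ≠ 0) {P : FreeAlgebra K X}
    (hP : FreeAlgebra.lift K (fun _ : X => (0 : K)) P = 0) (hpow : PowScalarOn K (m ⊕ n) ν P)
    {S : Type*} [CommRing S] [Algebra K S] (b : X → Matrix n n S) :
    (FreeAlgebra.lift K b P) ^ ν = 0 := by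
  obtain ⟨h1, h2⟩ := hpow.transfer (upA (fun _ => (0 : Matrix m m S)) b (fun _ => 0))
  have h3 : FreeAlgebra.lift K (upA (fun _ => (0 : Matrix m m S)) b (fun _ => 0)) P
      = fromBlocks 0 0 0 (FreeAlgebra.lift K b P) := by
    rw [lift_upA, lift_zero_eq hP]
    have := upD_zero P (fun _ => (0 : Matrix m m S)) b
    unfold upD at this
    rw [this]
  rw [h3, fromBlocks_diag_pow, zero_pow hν] at h1 h2
  obtain ⟨j0⟩ := ‹Nonempty m›
  ext i j
  by_cases hij : i = j
  · subst hij
    have := h2 (Sum.inr i) (Sum.inl j0)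
    simpa using this
  · have := h1 (Sum.inr i) (Sum.inr j) (by simpa using hij)
    simpa using this

variable {k l : ℕ} [NeZero k] [NeZero l]

theorem lift_matA_shift (P : FreeAlgebra K X) (i j : ZMod k) :
    FreeAlgebra.lift K (matA K X k l) P (i + 1) (j + 1)
      = tau sigA (FreeAlgebra.lift K (matA K X k l) P i j) := by
  have h1 := lift_map (tau (sigA : RR K X k l →ₐ[K] _)) (matA K X k l) P
  have h2 := lift_submatrix (K := K) (Equiv.addRight (1 : ZMod k)) (matA K X k l) P
  have h3 : (fun x => (matA K X k l x).map (tau (sigA : RR K X k l →ₐ[K] _)))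
      = fun x => (matA K X k l x).submatrix (Equiv.addRight (1 : ZMod k)) (Equiv.addRight (1 : ZMod k)) := by
    funext x
    ext1 i j
    exact tau_sigA_matA x i j
  rw [h3, ← h2] at h1
  exact (congrFun (congrFun h1 i) j).symm

theorem lift_matB_shift (P : FreeAlgebra K X) (i j : ZMod l) :
    FreeAlgebra.lift K (matB K X k l) P (i + 1) (j + 1)
      = tau sigB (FreeAlgebra.lift K (matB K X k l) P i j) := by
  have h1 := lift_map (tau (sigB : RR K X k l →ₐ[K] _)) (matB K X k l) P
  have h2 := lift_submatrix (K := K) (Equiv.addRight (1 : ZMod l)) (matB K X k l) P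
  have h3 : (fun x => (matB K X k l x).map (tau (sigB : RR K X k l →ₐ[K] _)))
      = fun x => (matB K X k l x).submatrix (Equiv.addRight (1 : ZMod l)) (Equiv.addRight (1 : ZMod l)) := by
    funext x
    ext1 i j
    exact tau_sigB_matB x i j
  rw [h3, ← h2] at h1
  exact (congrFun (congrFun h1 i) j).symm

theorem biHom_matA (P : FreeAlgebra K X) :
    BiHom (fun i : ZMod k => (i, (0 : ZMod l))) (FreeAlgebra.lift K (matA K X k l) P) := by
  apply BiHom.lift
  intro x r s m m' hx
  obtain ⟨e1, e2⟩ := coeff_matA hx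
  rw [e1, e2]
  ext <;> simp

theorem biHom_matB (P : FreeAlgebra K X) :
    BiHom (fun i : ZMod l => ((0 : ZMod k), i)) (FreeAlgebra.lift K (matB K X k l) P) := by
  apply BiHom.lift
  intro x r s m m' hx
  obtain ⟨e1, e2⟩ := coeff_matB hx
  rw [e1, e2]
  ext <;> simp

theorem lift_matA_ne {P : FreeAlgebra K X} (h : FreeAlgebra.lift K (matA K X k l) P ≠ 0)
    (j : ℕ) : (FreeAlgebra.lift K (matA K X k l) P) ^ j ≠ 0 := by
  induction j with
  | zero =>
    rw [pow_zero]
    intro h0
    have := congrFun (congrFun h0 0) 0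
    simp at this
  | succ j ih =>
    rw [pow_succ']
    rw [← map_pow] at ih ⊢
    apply one_param (sigA : RR K X k l →ₐ[K] _).toRingHom sigA_injective _ _ _ _ _ h ih
    · intro r s s' m m' h1 h2
      have e1 := congrArg Prod.fst (biHom_matA P r s m m' h1)
      have e2 := congrArg Prod.fst (biHom_matA P r s' m m' h2)
      simp only at e1 e2
      rw [e1, e2]
    · intro r s m m'
      rw [lift_matA_shift, coeff_tau]
      rfl
    · intro r s m m'
      rw [lift_matA_shift, coeff_tau]
      rfl

theorem lift_matB_ne {P : FreeAlgebra K X} (h : FreeAlgebra.lift K (matB K X k l) P ≠ 0)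
    (j : ℕ) : (FreeAlgebra.lift K (matB K X k l) P) ^ j ≠ 0 := by
  induction j with
  | zero =>
    rw [pow_zero]
    intro h0
    have := congrFun (congrFun h0 0) 0
    simp at this
  | succ j ih =>
    rw [pow_succ']
    rw [← map_pow] at ih ⊢
    apply one_param (sigB : RR K X k l →ₐ[K] _).toRingHom sigB_injective _ _ _ _ _ h ih
    · intro r s s' m m' h1 h2
      have e1 := congrArg Prod.snd (biHom_matB P r s m m' h1)
      have e2 := congrArg Prod.snd (biHom_matB P r s' m m' h2)
      simp only at e1 e2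
      rw [e1, e2]
    · intro r s m m'
      rw [lift_matB_shift, coeff_tau]
      rfl
    · intro r s m m'
      rw [lift_matB_shift, coeff_tau]
      rfl

/-- The elementary off-diagonal values. -/
noncomputable def Phi (P : FreeAlgebra K X) [DecidableEq X] (x : X) (p : ZMod k) (q : ZMod l)
    (i : ZMod k) (j : ZMod l) : TT K X k l :=
  upD P (matA K X k l) (matB K X k l) (fun y => if y = x then single i j 1 else 0) p q

noncomputable def Psi (P : FreeAlgebra K X) [DecidableEq X] (x : X) (q : ZMod l) (p : ZMod k)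
    (j : ZMod l) (i : ZMod k) : TT K X k l :=
  loD P (matA K X k l) (matB K X k l) (fun y => if y = x then single j i 1 else 0) q p

variable [DecidableEq X]

theorem Phi_eq (P : FreeAlgebra K X) (x : X) (p : ZMod k) (q : ZMod l) (i : ZMod k) (j : ZMod l) :
    Phi P x p q i j = FreeAlgebra.lift K (upA (matA K X k l) (matB K X k l)
      (fun y => if y = x then single i j 1 else 0)) P (Sum.inl p) (Sum.inr q) := rfl

theorem Psi_eq (P : FreeAlgebra K X) (x : X) (q : ZMod l) (p : ZMod k) (j : ZMod l) (i : ZMod k) :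
    Psi P x q p j i = FreeAlgebra.lift K (loA (matA K X k l) (matB K X k l)
      (fun y => if y = x then single j i 1 else 0)) P (Sum.inr q) (Sum.inl p) := rfl

/-- The potential attached to a pair `(i, j)`. -/
def pot (i : ZMod k) (j : ZMod l) : ZMod k ⊕ ZMod l → ZMod k × ZMod l :=
  Sum.elim (fun p => (p, j)) (fun q => (i, q))

theorem coeff_single_ne {R : Type*} [CommRing R] {ι κ : Type*} [DecidableEq ι] [DecidableEq κ]
    {i r : ι} {j s : κ} {m m' : ℕ}
    (h : (((single i j (1 : R[X][X]) : Matrix ι κ R[X][X]) r s).coeff m').coeff m ≠ 0) :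
    i = r ∧ j = s ∧ m = 0 ∧ m' = 0 := by
  rw [Matrix.single_apply] at h
  split_ifs at h with h1
  · rw [Polynomial.coeff_one] at h
    split_ifs at h with h2
    · rw [Polynomial.coeff_one] at h
      split_ifs at h with h3
      · exact ⟨h1.1, h1.2, h3, h2⟩
      · exact absurd rfl h
    · exact absurd (Polynomial.coeff_zero _) h
  · simp at h

theorem biHom_up (P : FreeAlgebra K X) (x : X) (i : ZMod k) (j : ZMod l) :
    BiHom (pot i j) (FreeAlgebra.lift K (upA (matA K X k l) (matB K X k l)
      (fun y => if y = x then single i j 1 else 0)) P) := by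
  apply BiHom.lift
  intro y r s m m' h
  unfold upA at h
  rcases r with r | r <;> rcases s with s | s
  · rw [fromBlocks_apply₁₁] at h
    obtain ⟨e1, e2⟩ := coeff_matA h
    rw [e1, e2]
    ext <;> simp [pot]
  · rw [fromBlocks_apply₁₂] at h
    beta_reduce at h
    split_ifs at h with hy
    · obtain ⟨e1, e2, e3, e4⟩ := coeff_single_ne h
      subst e1 e2 e3 e4
      ext <;> simp [pot]
    · simp at h
  · rw [fromBlocks_apply₂₁] at h
    simp at h
  · rw [fromBlocks_apply₂₂] at h
    obtain ⟨e1, e2⟩ := coeff_matB h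
    rw [e1, e2]
    ext <;> simp [pot]

theorem Phi_support (P : FreeAlgebra K X) (x : X) (p : ZMod k) (q : ZMod l) (i : ZMod k) (j : ZMod l)
    (m m' : ℕ) (h : ((Phi P x p q i j).coeff m').coeff m ≠ 0) : i = p + m ∧ q = j + m' := by
  have := biHom_up P x i j (Sum.inl p) (Sum.inr q) m m' h
  simp only [pot, Sum.elim_inl, Sum.elim_inr, Prod.mk_add_mk, Prod.mk.injEq] at this
  exact this

/-- Shift of the first block. -/
def eA (k l : ℕ) : (ZMod k ⊕ ZMod l) ≃ (ZMod k ⊕ ZMod l) :=
  Equiv.sumCongr (Equiv.addRight 1) (Equiv.refl _)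

/-- Shift of the second block. -/
def eB (k l : ℕ) : (ZMod k ⊕ ZMod l) ≃ (ZMod k ⊕ ZMod l) :=
  Equiv.sumCongr (Equiv.refl _) (Equiv.addRight 1)

theorem tau_single {R : Type*} [CommRing R] [Algebra K R] (σ : R →ₐ[K] R) {ι κ : Type*}
    [DecidableEq ι] [DecidableEq κ] (i r : ι) (j s : κ) :
    tau σ ((single i j (1 : R[X][X]) : Matrix ι κ R[X][X]) r s) = single i j 1 r s := by
  rw [Matrix.single_apply]
  split_ifs
  · rw [map_one]
  · rw [map_zero]

theorem Phi_shiftA (P : FreeAlgebra K X) (x : X) (p : ZMod k) (q : ZMod l) (i : ZMod k) (j : ZMod l) :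
    Phi P x (p + 1) q (i + 1) j = tau sigA (Phi P x p q i j) := by
  have h1 := lift_map (tau (sigA : RR K X k l →ₐ[K] _)) (upA (matA K X k l) (matB K X k l)
      (fun y => if y = x then single i j 1 else 0)) P
  have h2 := lift_submatrix (K := K) (eA k l) (upA (matA K X k l) (matB K X k l)
      (fun y => if y = x then single (i + 1) j 1 else 0)) P
  have h3 : (fun y => ((upA (matA K X k l) (matB K X k l)
      (fun y => if y = x then single i j 1 else 0)) y).map (tau (sigA : RR K X k l →ₐ[K] _)))
      = fun y => ((upA (matA K X k l) (matB K X k l)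
      (fun y => if y = x then single (i + 1) j 1 else 0)) y).submatrix (eA k l) (eA k l) := by
    funext y
    ext1 r s
    rw [Matrix.map_apply, Matrix.submatrix_apply]
    rcases r with r | r <;> rcases s with s | s
    · exact tau_sigA_matA y r s
    · simp only [upA, fromBlocks_apply₁₂, eA, Equiv.sumCongr_apply, Sum.map_inl, Sum.map_inr,
        Equiv.coe_addRight, Equiv.refl_apply]
      split_ifs with hy
      · rw [tau_single]
        simp [Matrix.single_apply]
      · simp
    · simp [upA, eA]
    · exact tau_sigA_matB y r s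
  rw [h3, ← h2] at h1
  exact (congrFun (congrFun h1 (Sum.inl p)) (Sum.inr q)).symm

theorem Phi_shiftB (P : FreeAlgebra K X) (x : X) (p : ZMod k) (q : ZMod l) (i : ZMod k) (j : ZMod l) :
    Phi P x p (q + 1) i (j + 1) = tau sigB (Phi P x p q i j) := by
  have h1 := lift_map (tau (sigB : RR K X k l →ₐ[K] _)) (upA (matA K X k l) (matB K X k l)
      (fun y => if y = x then single i j 1 else 0)) P
  have h2 := lift_submatrix (K := K) (eB k l) (upA (matA K X k l) (matB K X k l)
      (fun y => if y = x then single i (j + 1) 1 else 0)) P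
  have h3 : (fun y => ((upA (matA K X k l) (matB K X k l)
      (fun y => if y = x then single i j 1 else 0)) y).map (tau (sigB : RR K X k l →ₐ[K] _)))
      = fun y => ((upA (matA K X k l) (matB K X k l)
      (fun y => if y = x then single i (j + 1) 1 else 0)) y).submatrix (eB k l) (eB k l) := by
    funext y
    ext1 r s
    rw [Matrix.map_apply, Matrix.submatrix_apply]
    rcases r with r | r <;> rcases s with s | s
    · exact tau_sigB_matA y r s
    · simp only [upA, fromBlocks_apply₁₂, eB, Equiv.sumCongr_apply, Sum.map_inl, Sum.map_inr,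
        Equiv.coe_addRight, Equiv.refl_apply]
      split_ifs with hy
      · rw [tau_single]
        simp [Matrix.single_apply]
      · simp
    · simp [upA, eB]
    · exact tau_sigB_matB y r s
  rw [h3, ← h2] at h1
  exact (congrFun (congrFun h1 (Sum.inl p)) (Sum.inr q)).symm

theorem Psi_shiftA (P : FreeAlgebra K X) (x : X) (q : ZMod l) (p : ZMod k) (j : ZMod l) (i : ZMod k) :
    Psi P x q (p + 1) j (i + 1) = tau sigA (Psi P x q p j i) := by
  have h1 := lift_map (tau (sigA : RR K X k l →ₐ[K] _)) (loA (matA K X k l) (matB K X k l)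
      (fun y => if y = x then single j i 1 else 0)) P
  have h2 := lift_submatrix (K := K) (eA k l) (loA (matA K X k l) (matB K X k l)
      (fun y => if y = x then single j (i + 1) 1 else 0)) P
  have h3 : (fun y => ((loA (matA K X k l) (matB K X k l)
      (fun y => if y = x then single j i 1 else 0)) y).map (tau (sigA : RR K X k l →ₐ[K] _)))
      = fun y => ((loA (matA K X k l) (matB K X k l)
      (fun y => if y = x then single j (i + 1) 1 else 0)) y).submatrix (eA k l) (eA k l) := by
    funext y
    ext1 r s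
    rw [Matrix.map_apply, Matrix.submatrix_apply]
    rcases r with r | r <;> rcases s with s | s
    · exact tau_sigA_matA y r s
    · simp [loA, eA]
    · simp only [loA, fromBlocks_apply₂₁, eA, Equiv.sumCongr_apply, Sum.map_inl, Sum.map_inr,
        Equiv.coe_addRight, Equiv.refl_apply]
      split_ifs with hy
      · rw [tau_single]
        simp [Matrix.single_apply]
      · simp
    · exact tau_sigA_matB y r s
  rw [h3, ← h2] at h1
  exact (congrFun (congrFun h1 (Sum.inr q)) (Sum.inl p)).symm

theorem Psi_shiftB (P : FreeAlgebra K X) (x : X) (q : ZMod l) (p : ZMod k) (j : ZMod l) (i : ZMod k) :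
    Psi P x (q + 1) p (j + 1) i = tau sigB (Psi P x q p j i) := by
  have h1 := lift_map (tau (sigB : RR K X k l →ₐ[K] _)) (loA (matA K X k l) (matB K X k l)
      (fun y => if y = x then single j i 1 else 0)) P
  have h2 := lift_submatrix (K := K) (eB k l) (loA (matA K X k l) (matB K X k l)
      (fun y => if y = x then single (j + 1) i 1 else 0)) P
  have h3 : (fun y => ((loA (matA K X k l) (matB K X k l)
      (fun y => if y = x then single j i 1 else 0)) y).map (tau (sigB : RR K X k l →ₐ[K] _)))
      = fun y => ((loA (matA K X k l) (matB K X k l)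
      (fun y => if y = x then single (j + 1) i 1 else 0)) y).submatrix (eB k l) (eB k l) := by
    funext y
    ext1 r s
    rw [Matrix.map_apply, Matrix.submatrix_apply]
    rcases r with r | r <;> rcases s with s | s
    · exact tau_sigB_matA y r s
    · simp [loA, eB]
    · simp only [loA, fromBlocks_apply₂₁, eB, Equiv.sumCongr_apply, Sum.map_inl, Sum.map_inr,
        Equiv.coe_addRight, Equiv.refl_apply]
      split_ifs with hy
      · rw [tau_single]
        simp [Matrix.single_apply]
      · simp
    · exact tau_sigB_matB y r s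
  rw [h3, ← h2] at h1
  exact (congrFun (congrFun h1 (Sum.inr q)) (Sum.inl p)).symm

/-- Nonvanishing of a trace pairing between the two families. -/
theorem exists_pair (P : FreeAlgebra K X) (x x' : X)
    (hx : ∃ p q i j, Phi (k := k) (l := l) P x p q i j ≠ 0)
    (hx' : ∃ q p j i, Psi (k := k) (l := l) P x' q p j i ≠ 0) :
    ∃ (i : ZMod k) (j : ZMod l) (j' : ZMod l) (i' : ZMod k),
      ∑ p : ZMod k, ∑ q : ZMod l, Phi P x p q i j * Psi P x' q p j' i' ≠ 0 := by
  have e1 : ∀ (p : ZMod k) (q : ZMod l) (i : ZMod k) (j : ZMod l) (m m' : ℕ),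
      ((Phi P x (p + 1) q (i + 1) j).coeff m').coeff m
      = ((sigA : RR K X k l →ₐ[K] RR K X k l) : RR K X k l →+* RR K X k l)
        (((Phi P x p q i j).coeff m').coeff m) := by
    intro p q i j m m'
    rw [Phi_shiftA]
    exact coeff_tau sigA _ m m'
  have e2 : ∀ (p : ZMod k) (q : ZMod l) (i : ZMod k) (j : ZMod l) (m m' : ℕ),
      ((Phi P x p (q + 1) i (j + 1)).coeff m').coeff m
      = ((sigB : RR K X k l →ₐ[K] RR K X k l) : RR K X k l →+* RR K X k l)
        (((Phi P x p q i j).coeff m').coeff m) := by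
    intro p q i j m m'
    rw [Phi_shiftB]
    exact coeff_tau sigB _ m m'
  have e3 : ∀ (q : ZMod l) (p : ZMod k) (j : ZMod l) (i : ZMod k) (m m' : ℕ),
      ((Psi P x' q (p + 1) j (i + 1)).coeff m').coeff m
      = ((sigA : RR K X k l →ₐ[K] RR K X k l) : RR K X k l →+* RR K X k l)
        (((Psi P x' q p j i).coeff m').coeff m) := by
    intro p q i j m m'
    rw [Psi_shiftA]
    exact coeff_tau sigA _ m m'
  have e4 : ∀ (q : ZMod l) (p : ZMod k) (j : ZMod l) (i : ZMod k) (m m' : ℕ),
      ((Psi P x' (q + 1) p (j + 1) i).coeff m').coeff m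
      = ((sigB : RR K X k l →ₐ[K] RR K X k l) : RR K X k l →+* RR K X k l)
        (((Psi P x' q p j i).coeff m').coeff m) := by
    intro p q i j m m'
    rw [Psi_shiftB]
    exact coeff_tau sigB _ m m'
  have hA : Function.Injective
      ((sigA : RR K X k l →ₐ[K] RR K X k l) : RR K X k l →+* RR K X k l) := sigA_injective
  have hB : Function.Injective
      ((sigB : RR K X k l →ₐ[K] RR K X k l) : RR K X k l →+* RR K X k l) := sigB_injective
  exact two_param (R := RR K X k l) _ _ hA hB (Phi P x) (Psi P x') (Phi_support P x)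
    e1 e2 e3 e4 hx hx'

theorem exists_Phi {P : FreeAlgebra K X} (hA : FreeAlgebra.lift K (matA K X k l) P = 0)
    (hB : FreeAlgebra.lift K (matB K X k l) P = 0)
    (a1 : X → Matrix (ZMod k) (ZMod k) K) (b1 : X → Matrix (ZMod l) (ZMod l) K)
    (Y1 : X → Matrix (ZMod k) (ZMod l) K) (hY1 : FreeAlgebra.lift K (upA a1 b1 Y1) P ≠ 0) :
    ∃ x, ∃ p q i j, Phi (k := k) (l := l) P x p q i j ≠ 0 := by
  by_contra hall
  push Not at hall
  apply hY1
  have h1 : ∀ Y, upD P (matA K X k l) (matB K X k l) Y = 0 := by
    apply upD_eq_zero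
    intro x i j
    ext1 p q
    exact hall x p q i j
  have h2 := lift_map (specTT a1 b1) (upA (matA K X k l) (matB K X k l)
    (fun y => (Y1 y).map (algebraMap K (TT K X k l)))) P
  have h3 : (fun x => ((upA (matA K X k l) (matB K X k l)
    (fun y => (Y1 y).map (algebraMap K (TT K X k l)))) x).map (specTT a1 b1)) = upA a1 b1 Y1 := by
    funext x
    unfold upA
    rw [fromBlocks_map, specTT_matA, specTT_matB]
    congr 1
    · ext i j
      exact (specTT a1 b1).commutes _
    · ext i j
      exact map_zero (specTT a1 b1)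
  have h4 := h1 (fun y => (Y1 y).map (algebraMap K (TT K X k l)))
  rw [h3, lift_upA, hA, hB] at h2
  unfold upD at h4
  rw [h4] at h2
  rw [← h2]
  ext i j
  rw [Matrix.map_apply]
  rcases i with i | i <;> rcases j with j | j <;> exact map_zero (specTT a1 b1)

theorem exists_Psi {P : FreeAlgebra K X} (hA : FreeAlgebra.lift K (matA K X k l) P = 0)
    (hB : FreeAlgebra.lift K (matB K X k l) P = 0)
    (a1 : X → Matrix (ZMod k) (ZMod k) K) (b1 : X → Matrix (ZMod l) (ZMod l) K)
    (Z1 : X → Matrix (ZMod l) (ZMod k) K) (hZ1 : FreeAlgebra.lift K (loA a1 b1 Z1) P ≠ 0) :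
    ∃ x, ∃ q p j i, Psi (k := k) (l := l) P x q p j i ≠ 0 := by
  by_contra hall
  push Not at hall
  apply hZ1
  have h1 : ∀ Z, loD P (matA K X k l) (matB K X k l) Z = 0 := by
    apply loD_eq_zero
    intro x j i
    ext1 q p
    exact hall x q p j i
  have h2 := lift_map (specTT a1 b1) (loA (matA K X k l) (matB K X k l)
    (fun y => (Z1 y).map (algebraMap K (TT K X k l)))) P
  have h3 : (fun x => ((loA (matA K X k l) (matB K X k l)
    (fun y => (Z1 y).map (algebraMap K (TT K X k l)))) x).map (specTT a1 b1)) = loA a1 b1 Z1 := by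
    funext x
    unfold loA
    rw [fromBlocks_map, specTT_matA, specTT_matB]
    congr 1
    · ext i j
      exact map_zero (specTT a1 b1)
    · ext i j
      exact (specTT a1 b1).commutes _
  have h4 := h1 (fun y => (Z1 y).map (algebraMap K (TT K X k l)))
  rw [h3, lift_loA, hA, hB] at h2
  unfold loD at h4
  rw [h4] at h2
  rw [← h2]
  ext i j
  rw [Matrix.map_apply]
  rcases i with i | i <;> rcases j with j | j <;> exact map_zero (specTT a1 b1)

theorem pairing_eq_zero [Infinite K] {m n : Type*} [Fintype m] [DecidableEq m] [Fintype n]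
    [DecidableEq n] (hcard : Fintype.card m ≠ Fintype.card n) {ν : ℕ} (hν : ν ≠ 0)
    {P : FreeAlgebra K X} (hpow : PowScalarOn K (m ⊕ n) ν P)
    {S : Type*} [CommRing S] [IsDomain S] [Algebra K S] {a : X → Matrix m m S}
    {b : X → Matrix n n S} (ha : FreeAlgebra.lift K a P = 0) (hb : FreeAlgebra.lift K b P = 0)
    (Y : X → Matrix m n S) (Z : X → Matrix n m S) :
    ∑ p, ∑ q, upD P a b Y p q * loD P a b Z q p = 0 := by
  obtain ⟨g1, g2⟩ := eps_pow (ν := ν) (P := P) (fun c => hpow.transfer c) ha hb Y Z
  have hnil := antidiag_nilpotent hcard hν _ _ g1 g2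
  have htr := (Matrix.isNilpotent_trace_of_isNilpotent hnil).eq_zero
  rw [Matrix.trace] at htr
  rw [← htr]
  apply Finset.sum_congr rfl
  intro p _
  rw [Matrix.diag_apply, Matrix.mul_apply]


end Main

end Pool.Agent.Helper12
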