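import Mathlib
import Pool.Agent.Helper12.Triangular

set_option linter.unusedSectionVars false
set_option linter.unusedVariables false

open Matrix Polynomial

namespace Pool.Agent.Helper12

section Main

variable {K : Type*} [Field K] {X : Type*} {k l : ℕ} [NeZero k] [NeZero l] [DecidableEq X]

theorem sum_pair_aux [Infinite K] (hkl : k ≠ l) {ν : ℕ} (hν : ν ≠ 0) {P : FreeAlgebra K X}
    (hpow : PowScalarOn K (ZMod k ⊕ ZMod l) ν P)
    (hA : FreeAlgebra.lift K (matA K X k l) P = 0)
    (hB : FreeAlgebra.lift K (matB K X k l) P = 0) (x x' : X) (i : ZMod k) (j : ZMod l)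
    (j' : ZMod l) (i' : ZMod k) :
    ∑ p : ZMod k, ∑ q : ZMod l,
      upD P (matA K X k l) (matB K X k l) (fun y => if y = x then single i j 1 else 0) p q *
      loD P (matA K X k l) (matB K X k l) (fun y => if y = x' then single j' i' 1 else 0) q p
        = 0 := by
  have hcard : Fintype.card (ZMod k) ≠ Fintype.card (ZMod l) := by
    rwa [ZMod.card, ZMod.card]
  have h := pairing_eq_zero (S := TT K X k l) hcard hν hpow (a := matA K X k l)
    (b := matB K X k l) hA hB
  exact h _ _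

theorem sum_pair_eq_zero [Infinite K] (hkl : k ≠ l) {ν : ℕ} (hν : ν ≠ 0) {P : FreeAlgebra K X}
    (hpow : PowScalarOn K (ZMod k ⊕ ZMod l) ν P)
    (hA : FreeAlgebra.lift K (matA K X k l) P = 0)
    (hB : FreeAlgebra.lift K (matB K X k l) P = 0) (x x' : X) (i : ZMod k) (j : ZMod l)
    (j' : ZMod l) (i' : ZMod k) :
    ∑ p : ZMod k, ∑ q : ZMod l, Phi P x p q i j * Psi P x' q p j' i' = 0 := by
  have h := sum_pair_aux hkl hν hpow hA hB x x' i j j' i'
  have e1 : ∀ p q, Phi P x p q i j
      = upD P (matA K X k l) (matB K X k l) (fun y => if y = x then single i j 1 else 0) p q :=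
    fun _ _ => rfl
  have e2 : ∀ p q, Psi P x' q p j' i'
      = loD P (matA K X k l) (matB K X k l) (fun y => if y = x' then single j' i' 1 else 0) q p :=
    fun _ _ => rfl
  simp only [e1, e2]
  exact h

/-- The dichotomy, for blocks indexed by cyclic groups. -/
theorem dichotomy [Infinite K] (hkl : k ≠ l) {ν : ℕ} (hν : ν ≠ 0) {P : FreeAlgebra K X}
    (hP : FreeAlgebra.lift K (fun _ : X => (0 : K)) P = 0)
    (hpow : PowScalarOn K (ZMod k ⊕ ZMod l) ν P) :
    (∀ (a : X → Matrix (ZMod k) (ZMod k) K) (b : X → Matrix (ZMod l) (ZMod l) K)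
      (Y : X → Matrix (ZMod k) (ZMod l) K), FreeAlgebra.lift K (upA a b Y) P = 0) ∨
    (∀ (a : X → Matrix (ZMod k) (ZMod k) K) (b : X → Matrix (ZMod l) (ZMod l) K)
      (Z : X → Matrix (ZMod l) (ZMod k) K), FreeAlgebra.lift K (loA a b Z) P = 0) := by
  have hA : FreeAlgebra.lift K (matA K X k l) P = 0 := by
    by_contra h
    have h0 := pow_left_zero (S := TT K X k l) hν hP hpow (matA K X k l)
    exact lift_matA_ne h ν h0
  have hB : FreeAlgebra.lift K (matB K X k l) P = 0 := by
    by_contra h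
    have h0 := pow_right_zero (S := TT K X k l) hν hP hpow (matB K X k l)
    exact lift_matB_ne h ν h0
  by_contra hcon
  push Not at hcon
  obtain ⟨⟨a1, b1, Y1, hY1⟩, ⟨a2, b2, Z2, hZ2⟩⟩ := hcon
  obtain ⟨x, hx⟩ := exists_Phi hA hB a1 b1 Y1 hY1
  obtain ⟨x', hx'⟩ := exists_Psi hA hB a2 b2 Z2 hZ2
  obtain ⟨i, j, j', i', hne⟩ := exists_pair P x x' hx hx'
  apply hne
  exact sum_pair_eq_zero hkl hν hpow hA hB x x' i j j' i'

end Main

end Pool.Agent.Helper12
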