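import Mathlib
import Pool.Agent.Helper12.TriFinal

/-!
The dichotomy for block triangular tuples, with values in arbitrary commutative algebras.
-/

set_option linter.unusedSectionVars false
set_option linter.unusedVariables false

open Matrix Polynomial

namespace Pool.Agent.Helper12

variable {K : Type*} [Field K] {X : Type*} {k l : ℕ}

section Spec

variable {R : Type*} [CommRing R] [Algebra K R]

/-- Specialisation of all parameters to a commutative algebra. -/
noncomputable def spec (a : X → Matrix (ZMod k) (ZMod k) R) (b : X → Matrix (ZMod l) (ZMod l) R) :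
    TT K X k l →ₐ[K] R :=
  ((Polynomial.aeval (R := R) (1 : R)).restrictScalars K).comp
    (mapAlgHom (((Polynomial.aeval (R := R) (1 : R)).restrictScalars K).comp
    (mapAlgHom (MvPolynomial.aeval (Sum.elim (fun t => a t.1 t.2.1 t.2.2)
      (fun t => b t.1 t.2.1 t.2.2))))))

theorem spec_matA (a : X → Matrix (ZMod k) (ZMod k) R) (b : X → Matrix (ZMod l) (ZMod l) R) (y : X) :
    (matA K X k l y).map (spec a b) = a y := by
  ext i j
  simp [spec, matA]

theorem spec_matB (a : X → Matrix (ZMod k) (ZMod k) R) (b : X → Matrix (ZMod l) (ZMod l) R) (y : X) :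
    (matB K X k l y).map (spec a b) = b y := by
  ext i j
  simp [spec, matB]

end Spec

section Main

variable [NeZero k] [NeZero l] [DecidableEq X]

theorem lift_zero_of_matA {R : Type*} [CommRing R] [Algebra K R] {P : FreeAlgebra K X}
    (hA : FreeAlgebra.lift K (matA K X k l) P = 0)
    (a : X → Matrix (ZMod k) (ZMod k) R) : FreeAlgebra.lift K a P = 0 := by
  have h2 := lift_map (spec a (fun _ => (0 : Matrix (ZMod l) (ZMod l) R))) (matA K X k l) P
  rw [hA] at h2
  have h3 : (fun x => (matA K X k l x).map (spec a (fun _ => (0 : Matrix (ZMod l) (ZMod l) R))))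
      = a := by
    funext x; exact spec_matA _ _ x
  rw [h3] at h2
  rw [← h2]
  ext i j
  rw [Matrix.map_apply]
  exact map_zero (spec a _)

theorem lift_zero_of_matB {R : Type*} [CommRing R] [Algebra K R] {P : FreeAlgebra K X}
    (hB : FreeAlgebra.lift K (matB K X k l) P = 0)
    (b : X → Matrix (ZMod l) (ZMod l) R) : FreeAlgebra.lift K b P = 0 := by
  have h2 := lift_map (spec (fun _ => (0 : Matrix (ZMod k) (ZMod k) R)) b) (matB K X k l) P
  rw [hB] at h2
  have h3 : (fun x => (matB K X k l x).map (spec (fun _ => (0 : Matrix (ZMod k) (ZMod k) R)) b))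
      = b := by
    funext x; exact spec_matB _ _ x
  rw [h3] at h2
  rw [← h2]
  ext i j
  rw [Matrix.map_apply]
  exact map_zero (spec _ b)

theorem up_zero_of_Phi {R : Type*} [CommRing R] [Algebra K R] {P : FreeAlgebra K X}
    (hA : FreeAlgebra.lift K (matA K X k l) P = 0)
    (hB : FreeAlgebra.lift K (matB K X k l) P = 0)
    (hΦ : ∀ x p q i j, Phi (k := k) (l := l) P x p q i j = 0)
    (a : X → Matrix (ZMod k) (ZMod k) R) (b : X → Matrix (ZMod l) (ZMod l) R)
    (Y : X → Matrix (ZMod k) (ZMod l) R) : FreeAlgebra.lift K (upA a b Y) P = 0 := by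
  have hu : upD P a b Y = 0 := by
    apply upD_eq_zero
    intro x i j
    have h2 := lift_map (spec a b) (upA (matA K X k l) (matB K X k l)
      (fun y => if y = x then single i j 1 else 0)) P
    have h3 : (fun y => ((upA (matA K X k l) (matB K X k l)
        (fun y => if y = x then single i j 1 else 0)) y).map (spec a b))
        = upA a b (fun y => if y = x then single i j 1 else 0) := by
      funext y
      unfold upA
      rw [fromBlocks_map, spec_matA, spec_matB]
      congr 1
      · beta_reduce
        split_ifs
        · ext r s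
          rw [Matrix.map_apply, Matrix.single_apply, Matrix.single_apply]
          split_ifs
          · exact map_one (spec a b)
          · exact map_zero (spec a b)
        · ext r s
          exact map_zero (spec a b)
      · ext r s
        exact map_zero (spec a b)
    rw [h3] at h2
    ext r s
    have h5 := congrFun (congrFun h2 (Sum.inl r)) (Sum.inr s)
    rw [Matrix.map_apply] at h5
    have h6 : FreeAlgebra.lift K (upA (matA K X k l) (matB K X k l)
      (fun y => if y = x then single i j 1 else 0)) P (Sum.inl r) (Sum.inr s) = 0 := hΦ x r s i j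
    rw [h6, map_zero] at h5
    exact h5.symm
  rw [lift_upA, lift_zero_of_matA hA, lift_zero_of_matB hB]
  have := hu
  unfold upD at this
  rw [this, fromBlocks_zero]

theorem lo_zero_of_Psi {R : Type*} [CommRing R] [Algebra K R] {P : FreeAlgebra K X}
    (hA : FreeAlgebra.lift K (matA K X k l) P = 0)
    (hB : FreeAlgebra.lift K (matB K X k l) P = 0)
    (hΨ : ∀ x q p j i, Psi (k := k) (l := l) P x q p j i = 0)
    (a : X → Matrix (ZMod k) (ZMod k) R) (b : X → Matrix (ZMod l) (ZMod l) R)
    (Z : X → Matrix (ZMod l) (ZMod k) R) : FreeAlgebra.lift K (loA a b Z) P = 0 := by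
  have hu : loD P a b Z = 0 := by
    apply loD_eq_zero
    intro x j i
    have h2 := lift_map (spec a b) (loA (matA K X k l) (matB K X k l)
      (fun y => if y = x then single j i 1 else 0)) P
    have h3 : (fun y => ((loA (matA K X k l) (matB K X k l)
        (fun y => if y = x then single j i 1 else 0)) y).map (spec a b))
        = loA a b (fun y => if y = x then single j i 1 else 0) := by
      funext y
      unfold loA
      rw [fromBlocks_map, spec_matA, spec_matB]
      congr 1
      · ext r s
        exact map_zero (spec a b)
      · beta_reduce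
        split_ifs
        · ext r s
          rw [Matrix.map_apply, Matrix.single_apply, Matrix.single_apply]
          split_ifs
          · exact map_one (spec a b)
          · exact map_zero (spec a b)
        · ext r s
          exact map_zero (spec a b)
    rw [h3] at h2
    ext r s
    have h5 := congrFun (congrFun h2 (Sum.inr r)) (Sum.inl s)
    rw [Matrix.map_apply] at h5
    have h6 : FreeAlgebra.lift K (loA (matA K X k l) (matB K X k l)
      (fun y => if y = x then single j i 1 else 0)) P (Sum.inr r) (Sum.inl s) = 0 := hΨ x r s j i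
    rw [h6, map_zero] at h5
    exact h5.symm
  rw [lift_loA, lift_zero_of_matA hA, lift_zero_of_matB hB]
  have := hu
  unfold loD at this
  rw [this, fromBlocks_zero]

/-- The dichotomy in terms of the generic off-diagonal values. -/
theorem dichotomy_generic [Infinite K] (hkl : k ≠ l) {ν : ℕ} (hν : ν ≠ 0) {P : FreeAlgebra K X}
    (hP : FreeAlgebra.lift K (fun _ : X => (0 : K)) P = 0)
    (hpow : PowScalarOn K (ZMod k ⊕ ZMod l) ν P) :
    FreeAlgebra.lift K (matA K X k l) P = 0 ∧ FreeAlgebra.lift K (matB K X k l) P = 0 ∧
    ((∀ x p q i j, Phi (k := k) (l := l) P x p q i j = 0) ∨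
      (∀ x q p j i, Psi (k := k) (l := l) P x q p j i = 0)) := by
  have hA : FreeAlgebra.lift K (matA K X k l) P = 0 := by
    by_contra h
    have h0 := pow_left_zero (S := TT K X k l) hν hP hpow (matA K X k l)
    exact lift_matA_ne h ν h0
  have hB : FreeAlgebra.lift K (matB K X k l) P = 0 := by
    by_contra h
    have h0 := pow_right_zero (S := TT K X k l) hν hP hpow (matB K X k l)
    exact lift_matB_ne h ν h0
  refine ⟨hA, hB, ?_⟩
  by_contra hcon
  push Not at hcon
  obtain ⟨⟨x, hx⟩, ⟨x', hx'⟩⟩ := hcon
  obtain ⟨i, j, j', i', hne⟩ := exists_pair P x x' hx hx'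
  apply hne
  exact sum_pair_eq_zero hkl hν hpow hA hB x x' i j j' i'

end Main

section Final

open scoped Classical in
/-- The dichotomy for arbitrary index types. -/
theorem dichotomy_final [Infinite K] {m n : Type*} [Fintype m] [DecidableEq m] [Fintype n]
    [DecidableEq n] [Nonempty m] [Nonempty n] (hmn : Fintype.card m ≠ Fintype.card n)
    {ν : ℕ} (hν : ν ≠ 0) {P : FreeAlgebra K X}
    (hP : FreeAlgebra.lift K (fun _ : X => (0 : K)) P = 0)
    (hpow : PowScalarOn K (m ⊕ n) ν P) :
    (∀ (R : Type*) [CommRing R] [Algebra K R] (a : X → Matrix m m R) (b : X → Matrix n n R)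
      (Y : X → Matrix m n R), FreeAlgebra.lift K (upA a b Y) P = 0) ∨
    (∀ (R : Type*) [CommRing R] [Algebra K R] (a : X → Matrix m m R) (b : X → Matrix n n R)
      (Z : X → Matrix n m R), FreeAlgebra.lift K (loA a b Z) P = 0) := by
  haveI : NeZero (Fintype.card m) := ⟨Fintype.card_ne_zero⟩
  haveI : NeZero (Fintype.card n) := ⟨Fintype.card_ne_zero⟩
  let em : ZMod (Fintype.card m) ≃ m := Fintype.equivOfCardEq (ZMod.card _)
  let en : ZMod (Fintype.card n) ≃ n := Fintype.equivOfCardEq (ZMod.card _)
  let e : ZMod (Fintype.card m) ⊕ ZMod (Fintype.card n) ≃ m ⊕ n := Equiv.sumCongr em en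
  have hpow' : PowScalarOn K (ZMod (Fintype.card m) ⊕ ZMod (Fintype.card n)) ν P := by
    intro c
    obtain ⟨s, hs⟩ := hpow (fun x => (c x).submatrix e.symm e.symm)
    refine ⟨s, ?_⟩
    have h1 := lift_submatrix (K := K) e (fun x => (c x).submatrix e.symm e.symm) P
    have h2 : (fun x => ((c x).submatrix e.symm e.symm).submatrix e e) = c := by
      funext x
      ext i j
      simp
    rw [h2] at h1
    rw [← h1]
    have h3 : ∀ (M : Matrix (m ⊕ n) (m ⊕ n) K) (j : ℕ),
        (M.submatrix e e) ^ j = (M ^ j).submatrix e e := by
      intro M j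
      have := map_pow (Matrix.reindexAlgEquiv K K e.symm) M j
      simpa using this.symm
    rw [h3, hs]
    ext i j
    simp [Matrix.diagonal_apply]
  obtain ⟨hA, hB, h⟩ := dichotomy_generic hmn hν hP hpow'
  rcases h with h | h
  · left
    intro R _ _ a b Y
    have h1 := up_zero_of_Phi hA hB h (fun x => (a x).submatrix em em)
      (fun x => (b x).submatrix en en) (fun x => (Y x).submatrix em en)
    have h2 := lift_submatrix (K := K) e (upA a b Y) P
    have h3 : (fun x => ((upA a b Y) x).submatrix e e) = upA (fun x => (a x).submatrix em em)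
      (fun x => (b x).submatrix en en) (fun x => (Y x).submatrix em en) := by
      funext x
      ext i j
      rcases i with i | i <;> rcases j with j | j <;> simp [upA, e]
    rw [h3, h1] at h2
    ext i j
    have := congrFun (congrFun h2 (e.symm i)) (e.symm j)
    simpa using this
  · right
    intro R _ _ a b Z
    have h1 := lo_zero_of_Psi hA hB h (fun x => (a x).submatrix em em)
      (fun x => (b x).submatrix en en) (fun x => (Z x).submatrix en em)
    have h2 := lift_submatrix (K := K) e (loA a b Z) P
    have h3 : (fun x => ((loA a b Z) x).submatrix e e) = loA (fun x => (a x).submatrix em em)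
      (fun x => (b x).submatrix en en) (fun x => (Z x).submatrix en em) := by
      funext x
      ext i j
      rcases i with i | i <;> rcases j with j | j <;> simp [loA, e]
    rw [h3, h1] at h2
    ext i j
    have := congrFun (congrFun h2 (e.symm i)) (e.symm j)
    simpa using this

end Final

end Pool.Agent.Helper12
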