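import Mathlib
import Pool.Agent.Helper12.FreeEval

/-!
From diagonal matrices to all matrices in one variable: if the value of `p` is scalar whenever the
variable `x₀` is diagonal (over every commutative `K`-algebra), then it is always scalar.
-/

set_option linter.unusedSectionVars false
set_option linter.unusedVariables false

open Matrix Polynomial

namespace Pool.Agent.Helper12

variable {K : Type*} [Field K]

/-- A matrix with separable characteristic polynomial over an algebraically closed field is
diagonalisable. -/
theorem exists_diagonalization {F : Type*} [Field F] [IsAlgClosed F] {n : ℕ}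
    (M : Matrix (Fin n) (Fin n) F) (h : M.charpoly.Separable) :
    ∃ (g g' : Matrix (Fin n) (Fin n) F) (t : Fin n → F), g' * g = 1 ∧ g' * M * g = Matrix.diagonal t := by
  have hsplit : M.charpoly.Splits := IsAlgClosed.splits _
  classical
  have hcard : M.charpoly.roots.card = n := by
    rw [Polynomial.splits_iff_card_roots.mp hsplit, Matrix.charpoly_natDegree_eq_dim, Fintype.card_fin]
  have hnodup : M.charpoly.roots.Nodup := Polynomial.nodup_roots h
  -- enumerate the roots
  obtain ⟨μ, hμinj, hμroot⟩ : ∃ μ : Fin n → F, Function.Injective μ ∧ ∀ i, M.charpoly.IsRoot (μ i) := by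
    have hc : M.charpoly.roots.toFinset.card = n := by
      rw [Multiset.toFinset_card_of_nodup hnodup, hcard]
    let e := M.charpoly.roots.toFinset.equivFin.symm
    refine ⟨fun i => (e (Fin.cast hc.symm i) : F), ?_, ?_⟩
    · intro i j hij
      have := Subtype.ext hij
      have := e.injective this
      simpa using this
    · intro i
      have h1 := (e (Fin.cast hc.symm i)).2
      rw [Multiset.mem_toFinset, Polynomial.mem_roots'] at h1
      exact h1.2
  have hev : ∀ i, ∃ v : Fin n → F, Module.End.HasEigenvector (Matrix.toLin' M) (μ i) v := by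
    intro i
    have h1 : Module.End.HasEigenvalue (Matrix.toLin' M) (μ i) := by
      rw [Module.End.hasEigenvalue_iff_isRoot_charpoly, Matrix.charpoly_toLin']
      exact hμroot i
    exact h1.exists_hasEigenvector
  choose v hv using hev
  have hli := Module.End.eigenvectors_linearIndependent' (Matrix.toLin' M) μ hμinj v hv
  let g : Matrix (Fin n) (Fin n) F := Matrix.of fun i j => v j i
  have hcol : LinearIndependent F g.col := by
    have : g.col = v := by
      funext j i; rfl
    rw [this]; exact hli
  have hunit : IsUnit g := Matrix.linearIndependent_cols_iff_isUnit.mp hcol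
  have hdet : IsUnit g.det := (Matrix.isUnit_iff_isUnit_det g).mp hunit
  refine ⟨g, g⁻¹, μ, Matrix.nonsing_inv_mul g hdet, ?_⟩
  have hMg : M * g = g * Matrix.diagonal μ := by
    ext i j
    rw [Matrix.mul_diagonal]
    have := (hv j).apply_eq_smul
    rw [Matrix.toLin'_apply] at this
    have := congrFun this i
    rw [Pi.smul_apply, smul_eq_mul] at this
    rw [Matrix.mul_apply]
    change ∑ k, M i k * v j k = v j i * μ j
    rw [mul_comm (v j i), ← this]
    rfl
  rw [Matrix.mul_assoc, hMg, ← Matrix.mul_assoc, Matrix.nonsing_inv_mul g hdet, Matrix.one_mul]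

theorem separable_iff_resultant {F : Type*} [Field F] {n : ℕ} {f : F[X]} (hf : f.Monic)
    (hn : f.natDegree = n) (hn0 : 0 < n) :
    f.Separable ↔ Polynomial.resultant f (derivative f) n (n - 1) ≠ 0 := by
  have hd : (derivative f).natDegree ≤ n - 1 := by
    rw [← hn]; exact Polynomial.natDegree_derivative_le f
  obtain ⟨k, hk⟩ := Nat.exists_eq_add_of_le hd
  have h1 : Polynomial.resultant f (derivative f) n (n - 1)
      = Polynomial.resultant f (derivative f) := by
    rw [hk, Polynomial.resultant_add_right_deg _ _ _ _ _ le_rfl, ← hn]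
    rw [hf.coeff_natDegree, one_pow, one_mul]
  rw [h1, Ne, Polynomial.resultant_eq_zero_iff, Polynomial.separable_def]
  constructor
  · intro h h2
    exact h2.2 h
  · intro h
    by_contra h2
    exact h ⟨Or.inl hf.ne_zero, h2⟩

variable {X : Type*} [DecidableEq X]

theorem scalar_of_diagonal [Infinite K] {n : ℕ} (hn : 0 < n) (x₀ : X) (p : FreeAlgebra K X)
    (hF : ∀ (a : X → Matrix (Fin n) (Fin n) (AlgebraicClosure K)) (t : Fin n → AlgebraicClosure K),
      a x₀ = Matrix.diagonal t →
      (∀ k l, k ≠ l → FreeAlgebra.lift K a p k l = 0) ∧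
      (∀ k l, FreeAlgebra.lift K a p k k = FreeAlgebra.lift K a p l l))
    (a : X → Matrix (Fin n) (Fin n) K) :
    ∃ c : K, FreeAlgebra.lift K a p = Matrix.scalar (Fin n) c := by
  set F := AlgebraicClosure K with hFdef
  -- a diagonal matrix with distinct entries
  obtain ⟨d, hd⟩ : ∃ d : Fin n → K, Function.Injective d :=
    ⟨fun i => Infinite.natEmbedding K i.val, fun i j h => Fin.ext ((Infinite.natEmbedding K).injective h)⟩
  -- the line joining `a x₀` to it
  set xs : Matrix (Fin n) (Fin n) K[X] :=
    Matrix.of fun i j => (1 - Polynomial.X) * C (a x₀ i j) + Polynomial.X * C (Matrix.diagonal d i j) with hxs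
  set as : X → Matrix (Fin n) (Fin n) K[X] :=
    fun x => if x = x₀ then xs else (a x).map (C : K →+* K[X]) with has
  set r : K[X] := Polynomial.resultant xs.charpoly (derivative xs.charpoly) n (n - 1) with hr
  have hxsc : ∀ c : K, xs.map (evalRingHom c) = Matrix.of fun i j => (1 - c) * a x₀ i j + c * Matrix.diagonal d i j := by
    intro c
    ext i j
    simp [hxs]
    ring
  have hreval : ∀ c : K, r.eval c ≠ 0 ↔ (xs.map (evalRingHom c)).charpoly.Separable := by
    intro c
    rw [separable_iff_resultant (Matrix.charpoly_monic _)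
      (by rw [Matrix.charpoly_natDegree_eq_dim, Fintype.card_fin]) hn]
    rw [Matrix.charpoly_map, Polynomial.derivative_map, Polynomial.resultant_map_map]
    rfl
  have hr0 : r ≠ 0 := by
    intro h0
    have h1 : ¬ (r.eval 1 ≠ 0) := by rw [h0]; simp
    apply h1
    rw [hreval]
    have : xs.map (evalRingHom (1 : K)) = Matrix.diagonal d := by
      rw [hxsc]
      ext i j
      simp
    rw [this, Matrix.charpoly_diagonal, Polynomial.separable_prod_X_sub_C_iff]
    exact hd
  -- evaluation of the family
  have heval : ∀ c : K, (FreeAlgebra.lift K as p).map (Polynomial.aeval c : K[X] →ₐ[K] K)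
      = FreeAlgebra.lift K (fun x => (as x).map (Polynomial.aeval c : K[X] →ₐ[K] K)) p :=
    fun c => lift_map _ _ _
  have hgood : ∀ c : K, r.eval c ≠ 0 →
      (∀ k l, k ≠ l → (FreeAlgebra.lift K as p k l).eval c = 0) ∧
      (∀ k l, (FreeAlgebra.lift K as p k k).eval c = (FreeAlgebra.lift K as p l l).eval c) := by
    intro c hc
    rw [hreval] at hc
    set b : X → Matrix (Fin n) (Fin n) K := fun x => (as x).map (Polynomial.aeval c : K[X] →ₐ[K] K) with hb
    have hb0 : b x₀ = xs.map (evalRingHom c) := by
      simp only [hb, has, if_true]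
      ext i j
      simp [Polynomial.aeval_def, Polynomial.eval₂_eq_eval_map]
    -- pass to the algebraic closure
    set ψ : K →ₐ[K] F := Algebra.ofId K F with hψ
    set bF : X → Matrix (Fin n) (Fin n) F := fun x => (b x).map ψ with hbF
    have hsepF : (bF x₀).charpoly.Separable := by
      have : (bF x₀).charpoly = ((xs.map (evalRingHom c)).charpoly).map (algebraMap K F) := by
        rw [← Matrix.charpoly_map, hbF]
        simp only [hb0]
        rfl
      rw [this]
      exact hc.map
    obtain ⟨g, g', t, hg, hgt⟩ := exists_diagonalization (bF x₀) hsepF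
    have hg2 : g * g' = 1 := mul_eq_one_comm.mp hg
    have hconj := lift_conj (K := K) g' g hg bF p
    have hD := hF (fun x => g' * bF x * g) t hgt
    rw [← hconj] at hD
    have hsc : ∃ s : F, g' * FreeAlgebra.lift K bF p * g = Matrix.scalar (Fin n) s := by
      refine ⟨(g' * FreeAlgebra.lift K bF p * g) ⟨0, hn⟩ ⟨0, hn⟩, ?_⟩
      ext k l
      by_cases hkl : k = l
      · subst hkl
        rw [Matrix.scalar_apply, Matrix.diagonal_apply_eq]
        exact hD.2 _ _
      · rw [Matrix.scalar_apply, Matrix.diagonal_apply_ne _ hkl]
        exact hD.1 _ _ hkl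
    obtain ⟨s, hs⟩ := hsc
    have hval : FreeAlgebra.lift K bF p = Matrix.scalar (Fin n) s := by
      have h1 : g * (g' * FreeAlgebra.lift K bF p * g) * g' = FreeAlgebra.lift K bF p := by
        calc g * (g' * FreeAlgebra.lift K bF p * g) * g'
            = (g * g') * FreeAlgebra.lift K bF p * (g * g') := by noncomm_ring
          _ = FreeAlgebra.lift K bF p := by rw [hg2, one_mul, mul_one]
      rw [← h1, hs]
      have h2 : g * Matrix.scalar (Fin n) s = Matrix.scalar (Fin n) s * g :=
        ((Matrix.scalar_commute s (fun r => Commute.all s r) g).eq).symm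
      rw [h2, mul_assoc, hg2, mul_one]
    have hmapF : (FreeAlgebra.lift K b p).map ψ = FreeAlgebra.lift K bF p := lift_map _ _ _
    have hψinj : Function.Injective ψ := ψ.toRingHom.injective
    have hbe : ∀ k l, (FreeAlgebra.lift K as p k l).eval c = FreeAlgebra.lift K b p k l := by
      intro k l
      have := congrFun (congrFun (heval c) k) l
      rw [Matrix.map_apply] at this
      rw [hb, ← this]
      simp [Polynomial.aeval_def, Polynomial.eval₂_eq_eval_map]
    constructor
    · intro k l hkl
      rw [hbe]
      apply hψinj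
      rw [map_zero]
      have := congrFun (congrFun hmapF k) l
      rw [Matrix.map_apply, hval, Matrix.scalar_apply, Matrix.diagonal_apply_ne _ hkl] at this
      exact this
    · intro k l
      rw [hbe, hbe]
      apply hψinj
      have h1 := congrFun (congrFun hmapF k) k
      have h2 := congrFun (congrFun hmapF l) l
      rw [Matrix.map_apply, hval, Matrix.scalar_apply, Matrix.diagonal_apply_eq] at h1 h2
      rw [h1, h2]
  -- the polynomial identities
  have hoff : ∀ k l, k ≠ l → FreeAlgebra.lift K as p k l = 0 := by
    intro k l hkl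
    have h1 : r * FreeAlgebra.lift K as p k l = 0 := by
      apply Polynomial.funext
      intro c
      rw [eval_mul, eval_zero]
      by_cases hc : r.eval c = 0
      · rw [hc, zero_mul]
      · rw [(hgood c hc).1 k l hkl, mul_zero]
    exact (mul_eq_zero.mp h1).resolve_left hr0
  have hdia : ∀ k l, FreeAlgebra.lift K as p k k = FreeAlgebra.lift K as p l l := by
    intro k l
    have h1 : r * (FreeAlgebra.lift K as p k k - FreeAlgebra.lift K as p l l) = 0 := by
      apply Polynomial.funext
      intro c
      rw [eval_mul, eval_zero, eval_sub]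
      by_cases hc : r.eval c = 0
      · rw [hc, zero_mul]
      · rw [(hgood c hc).2 k l, sub_self, mul_zero]
    exact sub_eq_zero.mp ((mul_eq_zero.mp h1).resolve_left hr0)
  -- specialise at zero
  have hzero : (fun x => (as x).map (Polynomial.aeval (0 : K) : K[X] →ₐ[K] K)) = a := by
    funext x
    simp only [has]
    split_ifs with hx
    · subst hx
      ext i j
      simp [hxs]
    · ext i j
      simp
  have h0 := heval 0
  rw [hzero] at h0
  refine ⟨FreeAlgebra.lift K a p ⟨0, hn⟩ ⟨0, hn⟩, ?_⟩
  ext k l
  by_cases hkl : k = l
  · subst hkl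
    rw [Matrix.scalar_apply, Matrix.diagonal_apply_eq, ← h0, Matrix.map_apply, Matrix.map_apply,
      hdia k ⟨0, hn⟩]
  · rw [Matrix.scalar_apply, Matrix.diagonal_apply_ne _ hkl, ← h0, Matrix.map_apply, hoff k l hkl,
      map_zero]

end Pool.Agent.Helper12
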