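import Mathlib

namespace Pool.Agent.Helper12

/-- In a polynomial ring over a field, two polynomials with equal `ν`-th powers differ by a
constant factor. -/
theorem ratio_const {K : Type*} [Field K] {σ : Type*} {p q : MvPolynomial σ K} {ν : ℕ}
    (hν : ν ≠ 0) (h : p ^ ν = q ^ ν) : ∃ ω : K, p = MvPolynomial.C ω * q := by
  have hassoc : Associated (q ^ ν) (p ^ ν) := by rw [h]
  have h2 : Associated q p := (Associated.pow_iff hν).mp hassoc
  obtain ⟨u, hu⟩ := h2
  obtain ⟨r, -, hr⟩ := MvPolynomial.isUnit_iff_eq_C_of_isReduced.mp u.isUnit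
  refine ⟨r, ?_⟩
  rw [← hu, hr, mul_comm]

end Pool.Agent.Helper12
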