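import Mathlib
import Pool.Agent.Helper12.FreeEval

/-!
Words with prescribed multiplicities: gradings and multilinearity of evaluations.
-/

set_option linter.unusedSectionVars false
set_option linter.unusedVariables false

open Matrix

namespace Pool.Agent.Helper12

variable {K : Type*} [Field K] {X : Type*} [DecidableEq X] {ι : Type*} [Fintype ι] [DecidableEq ι]

/-- Words in `x₀`, in the letters of `Y₀` (each exactly once) and of `Y₁` (each at most once). -/
def Good (x₀ : X) (Y₀ Y₁ : Finset X) (w : List X) : Prop :=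
  (∀ x ∈ w, x = x₀ ∨ x ∈ Y₀ ∨ x ∈ Y₁) ∧ (∀ y ∈ Y₀, w.count y = 1) ∧ (∀ y ∈ Y₁, w.count y ≤ 1)

/-- The span of the corresponding monomials. -/
noncomputable def fam (K : Type*) [Field K] (x₀ : X) (Y₀ Y₁ : Finset X) :
    Submodule K (FreeAlgebra K X) :=
  Submodule.span K {q | ∃ w, Good x₀ Y₀ Y₁ w ∧ q = mon K w}

section Grading

variable {R : Type*} [CommRing R] [Algebra K R] {G : Type*} [AddCommGroup G]

/-- A matrix is homogeneous of degree `d` for the elementary grading given by `g : ι → G`. -/
def InDeg (g : ι → G) (d : G) (M : Matrix ι ι R) : Prop :=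
  ∀ i j, M i j ≠ 0 → g j = g i + d

theorem InDeg.mul {g : ι → G} {d e : G} {M N : Matrix ι ι R}
    (hM : InDeg g d M) (hN : InDeg g e N) : InDeg g (d + e) (M * N) := by
  intro i j h
  rw [Matrix.mul_apply] at h
  obtain ⟨k, -, hk⟩ := Finset.exists_ne_zero_of_sum_ne_zero h
  rw [hN k j (right_ne_zero_of_mul hk), hM i k (left_ne_zero_of_mul hk)]
  abel

theorem InDeg.one {g : ι → G} : InDeg g 0 (1 : Matrix ι ι R) := by
  intro i j h
  by_cases hij : i = j
  · subst hij; simp
  · exact absurd (Matrix.one_apply_ne hij) h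

theorem InDeg.add {g : ι → G} {d : G} {M N : Matrix ι ι R}
    (hM : InDeg g d M) (hN : InDeg g d N) : InDeg g d (M + N) := by
  intro i j h
  by_cases h1 : M i j = 0
  · by_cases h2 : N i j = 0
    · exact absurd (by simp [h1, h2]) h
    · exact hN i j h2
  · exact hM i j h1

theorem InDeg.smul {g : ι → G} {d : G} {M : Matrix ι ι R} (r : R)
    (hM : InDeg g d M) : InDeg g d (r • M) := by
  intro i j h
  apply hM i j
  intro h0
  apply h
  simp [h0]

theorem InDeg.smul' {g : ι → G} {d : G} {M : Matrix ι ι R} (r : K)
    (hM : InDeg g d M) : InDeg g d (r • M) := by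
  intro i j h
  apply hM i j
  intro h0
  apply h
  simp [h0]

theorem InDeg.zero {g : ι → G} {d : G} : InDeg g d (0 : Matrix ι ι R) := by
  intro i j h
  exact absurd rfl h

theorem InDeg.listProd {g : ι → G} {d : X → G} {a : X → Matrix ι ι R}
    (h : ∀ x, InDeg g (d x) (a x)) (w : List X) :
    InDeg g (w.map d).sum (w.map a).prod := by
  induction w with
  | nil => simpa using InDeg.one
  | cons x w ih => simpa using (h x).mul ih

theorem InDeg.diagonal {g : ι → G} (t : ι → R) : InDeg g 0 (Matrix.diagonal t) := by
  intro i j h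
  by_cases hij : i = j
  · subst hij; simp
  · exact absurd (Matrix.diagonal_apply_ne _ hij) h

theorem InDeg.single {g : ι → G} (i j : ι) (r : R) :
    InDeg g (g j - g i) (Matrix.single i j r) := by
  intro k l h
  by_cases hk : i = k ∧ j = l
  · obtain ⟨rfl, rfl⟩ := hk; abel
  · exact absurd (Matrix.single_apply_of_ne _ _ _ _ _ hk) h

theorem sum_deg {x₀ : X} {Y : Finset X} (hx : x₀ ∉ Y) {w : List X} (hw : Good x₀ Y ∅ w)
    {d : X → G} (hd : d x₀ = 0) : (w.map d).sum = ∑ y ∈ Y, d y := by
  rw [Finset.sum_list_map_count]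
  have h1 : ∑ m ∈ w.toFinset, w.count m • d m = ∑ m ∈ insert x₀ Y, w.count m • d m := by
    apply Finset.sum_subset
    · intro m hm
      rw [List.mem_toFinset] at hm
      rcases hw.1 m hm with h | h | h
      · simp [h]
      · simp [h]
      · simp at h
    · intro m _ hm
      rw [List.mem_toFinset] at hm
      rw [List.count_eq_zero_of_not_mem hm, zero_smul]
  rw [h1, Finset.sum_insert hx, hd, smul_zero, zero_add]
  apply Finset.sum_congr rfl
  intro y hy
  rw [hw.2.1 y hy, one_smul]

theorem fam_inDeg {x₀ : X} {Y : Finset X} (hx : x₀ ∉ Y) {p : FreeAlgebra K X}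
    (hp : p ∈ fam K x₀ Y ∅) {g : ι → G} {d : X → G} {a : X → Matrix ι ι R}
    (hd : d x₀ = 0) (h : ∀ x, x ∈ insert x₀ Y → InDeg g (d x) (a x)) :
    InDeg g (∑ y ∈ Y, d y) (FreeAlgebra.lift K a p) := by
  unfold fam at hp
  induction hp using Submodule.span_induction with
  | mem q hq =>
    obtain ⟨w, hw, rfl⟩ := hq
    rw [lift_mon]
    -- replace `a` outside `insert x₀ Y` by zero
    let a' : X → Matrix ι ι R := fun x => if x ∈ insert x₀ Y then a x else 0
    have ha' : w.map a = w.map a' := by
      apply List.map_congr_left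
      intro x hx
      have : x ∈ insert x₀ Y := by
        rcases hw.1 x hx with h | h | h
        · simp [h]
        · simp [h]
        · simp at h
      simp only [a', if_pos this]
    rw [ha', ← sum_deg hx hw hd]
    apply InDeg.listProd
    intro x
    simp only [a']
    split_ifs with hxx
    · exact h x hxx
    · exact InDeg.zero
  | zero => rw [map_zero]; exact InDeg.zero
  | add p q _ _ hp hq => rw [map_add]; exact hp.add hq
  | smul r p _ hp => rw [map_smul]; exact hp.smul' r

end Grading

section Linear

variable {R : Type*} [CommRing R] [Algebra K R]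

theorem exists_split {y : X} {w : List X} (h : w.count y = 1) :
    ∃ u v : List X, w = u ++ y :: v ∧ y ∉ u ∧ y ∉ v := by
  have hy : y ∈ w := by
    rw [← List.count_pos_iff]; omega
  obtain ⟨u, v, rfl, hu⟩ := List.eq_append_cons_of_mem hy
  refine ⟨u, v, rfl, hu, ?_⟩
  rw [List.count_append, List.count_cons_self, List.count_eq_zero_of_not_mem hu] at h
  rw [← List.count_eq_zero]
  omega

theorem map_update_of_notMem {a : X → Matrix ι ι R} {y : X} {u : List X} (hu : y ∉ u)
    (M : Matrix ι ι R) : u.map (Function.update a y M) = u.map a := by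
  apply List.map_congr_left
  intro x hx
  rw [Function.update_of_ne]
  rintro rfl
  exact hu hx

theorem lift_update_word {y : X} {w : List X} (h : w.count y = 1)
    (a : X → Matrix ι ι R) (M : Matrix ι ι R) :
    ∃ A B : Matrix ι ι R, ∀ M, (w.map (Function.update a y M)).prod = A * M * B := by
  obtain ⟨u, v, rfl, hu, hv⟩ := exists_split h
  refine ⟨(u.map a).prod, (v.map a).prod, fun M => ?_⟩
  rw [List.map_append, List.map_cons, map_update_of_notMem hu, map_update_of_notMem hv,
    List.prod_append, List.prod_cons, Function.update_self, mul_assoc]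

/-- Evaluation is linear in each variable occurring exactly once. -/
theorem fam_linear {x₀ : X} {Y₀ Y₁ : Finset X} {p : FreeAlgebra K X}
    (hp : p ∈ fam K x₀ Y₀ Y₁) {y : X} (hy : y ∈ Y₀) (a : X → Matrix ι ι R)
    (r s : R) (M N : Matrix ι ι R) :
    FreeAlgebra.lift K (Function.update a y (r • M + s • N)) p
      = r • FreeAlgebra.lift K (Function.update a y M) p
        + s • FreeAlgebra.lift K (Function.update a y N) p := by
  unfold fam at hp
  induction hp using Submodule.span_induction with
  | mem q hq =>
    obtain ⟨w, hw, rfl⟩ := hq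
    obtain ⟨A, B, hAB⟩ := lift_update_word (hw.2.1 y hy) a M
    simp only [lift_mon, hAB]
    simp only [mul_add, add_mul, Matrix.mul_smul, Matrix.smul_mul]
  | zero => simp
  | add p q _ _ hp hq => 
    rw [map_add, hp, hq, map_add, map_add]
    simp only [smul_add]
    abel
  | smul c p _ hp =>
    rw [map_smul, hp, map_smul, map_smul, smul_add, smul_comm c r, smul_comm c s]

end Linear

end Pool.Agent.Helper12
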