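import Mathlib
import Pool.Agent.Helper12.Words
import Pool.Agent.Helper12.RootRatio

/-!
Step 1: for a polynomial linear in all variables but `x₀` whose `ν`-th power is scalar valued,
the diagonal entries of its values at a diagonal `x₀` and matrix units coincide (size at least 4).
-/

set_option linter.unusedSectionVars false
set_option linter.unusedVariables false

open Matrix

namespace Pool.Agent.Helper12

variable {K : Type*} [Field K] {X : Type*} [DecidableEq X]

/-- `p ^ ν` takes only scalar values on `n × n` matrices over `K`. -/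
def PowScalar (n : ℕ) (ν : ℕ) (p : FreeAlgebra K X) : Prop :=
  ∀ a : X → Matrix (Fin n) (Fin n) K, ∃ c : K, (FreeAlgebra.lift K a p) ^ ν = Matrix.scalar (Fin n) c

theorem PowScalar.transfer [Infinite K] {n ν : ℕ} {p : FreeAlgebra K X} (h : PowScalar n ν p)
    {R : Type*} [CommRing R] [Algebra K R] (a : X → Matrix (Fin n) (Fin n) R) :
    (∀ i j, i ≠ j → ((FreeAlgebra.lift K a p) ^ ν) i j = 0) ∧
    (∀ i j, ((FreeAlgebra.lift K a p) ^ ν) i i = ((FreeAlgebra.lift K a p) ^ ν) j j) := by
  have := scalar_transfer (K := K) (p ^ ν) (by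
    intro b
    obtain ⟨c, hc⟩ := h b
    exact ⟨c, by rw [map_pow, hc]⟩) a
  rw [map_pow] at this
  exact this

/-- The assignment sending `x₀` to the generic diagonal matrix and `x` to the matrix unit
with position `(I x, J x)`. -/
noncomputable def unitAsg (K : Type*) [Field K] {n : ℕ} (x₀ : X) (I J : X → Fin n) :
    X → Matrix (Fin n) (Fin n) (MvPolynomial (Fin n) K) :=
  fun x => if x = x₀ then Matrix.diagonal (fun i => MvPolynomial.X i) else Matrix.single (I x) (J x) 1

theorem unitAsg_rename {n : ℕ} (x₀ : X) (I J : X → Fin n) (σ : Equiv.Perm (Fin n))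
    (p : FreeAlgebra K X) (i j : Fin n) :
    FreeAlgebra.lift K (unitAsg K x₀ (σ ∘ I) (σ ∘ J)) p (σ i) (σ j)
      = MvPolynomial.rename σ (FreeAlgebra.lift K (unitAsg K x₀ I J) p i j) := by
  have h1 := lift_map (MvPolynomial.rename σ : MvPolynomial (Fin n) K →ₐ[K] _)
    (unitAsg K x₀ I J) p
  have h2 := lift_submatrix (K := K) σ (unitAsg K x₀ (σ ∘ I) (σ ∘ J)) p
  have h3 : (fun x => (unitAsg K x₀ I J x).map (MvPolynomial.rename σ : MvPolynomial (Fin n) K →ₐ[K] _))
      = (fun x => (unitAsg K x₀ (σ ∘ I) (σ ∘ J) x).submatrix σ σ) := by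
    funext x
    unfold unitAsg
    split_ifs with hx
    · ext i j
      by_cases hij : i = j
      · subst hij; simp
      · simp [hij]
    · ext i j
      simp only [Matrix.map_apply, Matrix.submatrix_apply, Function.comp, Matrix.single_apply]
      by_cases hij : I x = i ∧ J x = j
      · obtain ⟨rfl, rfl⟩ := hij; simp
      · simp [hij]
  rw [h3] at h1
  rw [← h1] at h2
  have := congrFun (congrFun h2 i) j
  simpa using this

/-- Two-parameter deformation joining a tuple of matrix units to its translate under `σ`. -/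
noncomputable def pairAsg (K : Type*) [Field K] {n : ℕ} (x₀ : X) (I J : X → Fin n) (σ : Equiv.Perm (Fin n)) :
    X → Matrix (Fin n) (Fin n) (MvPolynomial (Fin n ⊕ (X ⊕ X)) K) :=
  fun x => if x = x₀ then Matrix.diagonal (fun i => MvPolynomial.X (Sum.inl i))
    else Matrix.single (I x) (J x) (MvPolynomial.X (Sum.inr (Sum.inl x)))
      + Matrix.single (σ (I x)) (σ (J x)) (MvPolynomial.X (Sum.inr (Sum.inr x)))

/-- Specialisation of the two families of parameters. -/
noncomputable def specHom (K : Type*) [Field K] {n : ℕ} {X : Type*} (u v : K) :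
    MvPolynomial (Fin n ⊕ (X ⊕ X)) K →ₐ[K] MvPolynomial (Fin n) K :=
  MvPolynomial.aeval (Sum.elim (fun i => MvPolynomial.X i)
    (Sum.elim (fun _ => MvPolynomial.C u) (fun _ => MvPolynomial.C v)))

theorem pairAsg_spec_one {n : ℕ} (x₀ : X) (I J : X → Fin n) (σ : Equiv.Perm (Fin n))
    (p : FreeAlgebra K X) :
    (FreeAlgebra.lift K (pairAsg K x₀ I J σ) p).map (specHom K 1 0)
      = FreeAlgebra.lift K (unitAsg K x₀ I J) p := by
  rw [lift_map]
  congr 1
  congr 1
  funext x
  unfold pairAsg unitAsg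
  split_ifs with hx
  · ext i j
    by_cases hij : i = j
    · subst hij; simp [specHom]
    · simp [Matrix.diagonal_apply_ne _ hij]
  · ext1 i j
    simp only [Matrix.map_apply, Matrix.add_apply, Matrix.single_apply]
    split_ifs <;> simp [specHom]

theorem pairAsg_spec_two {n : ℕ} (x₀ : X) (I J : X → Fin n) (σ : Equiv.Perm (Fin n))
    (p : FreeAlgebra K X) :
    (FreeAlgebra.lift K (pairAsg K x₀ I J σ) p).map (specHom K 0 1)
      = FreeAlgebra.lift K (unitAsg K x₀ (σ ∘ I) (σ ∘ J)) p := by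
  rw [lift_map]
  congr 1
  congr 1
  funext x
  unfold pairAsg unitAsg
  split_ifs with hx
  · ext i j
    by_cases hij : i = j
    · subst hij; simp [specHom]
    · simp [Matrix.diagonal_apply_ne _ hij]
  · ext1 i j
    simp only [Matrix.map_apply, Matrix.add_apply, Matrix.single_apply, Function.comp]
    split_ifs <;> simp [specHom]

/-- Key cyclic lemma. -/
theorem cyclic_relation [Infinite K] {n : ℕ} [NeZero n] {ν : ℕ} (hν : ν ≠ 0) {x₀ : X} {Y : Finset X}
    (hx : x₀ ∉ Y) {p : FreeAlgebra K X} (hp : p ∈ fam K x₀ Y ∅) (hpow : PowScalar n ν p)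
    (I J : X → Fin n) :
    ∃ ω : K,
      FreeAlgebra.lift K (unitAsg K x₀ I J) p (0 + 1) (0 + 1)
        = MvPolynomial.C ω * FreeAlgebra.lift K (unitAsg K x₀ I J) p 0 0 ∧
      FreeAlgebra.lift K (unitAsg K x₀ I J) p (0 + 1 + 1) (0 + 1 + 1)
        = MvPolynomial.C ω * FreeAlgebra.lift K (unitAsg K x₀ I J) p (0 + 1) (0 + 1) := by
  set σ : Equiv.Perm (Fin n) := Equiv.addRight 1 with hσ
  have hσa : ∀ i, σ i = i + 1 := fun i => rfl
  set P := FreeAlgebra.lift K (pairAsg K x₀ I J σ) p with hP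
  set d : X → Fin n := fun x => if x = x₀ then 0 else J x - I x with hd
  -- homogeneity
  have hdeg : InDeg (id : Fin n → Fin n) (∑ y ∈ Y, d y) P := by
    apply fam_inDeg hx hp
    · simp [hd]
    · intro x _
      by_cases h : x = x₀
      · simp only [hd, h, if_true, pairAsg]
        exact InDeg.diagonal _
      · simp only [hd, h, if_false, pairAsg]
        apply InDeg.add
        · exact InDeg.single (g := (id : Fin n → Fin n)) _ _ _
        · have := InDeg.single (g := (id : Fin n → Fin n)) (σ (I x)) (σ (J x))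
            (MvPolynomial.X (Sum.inr (Sum.inr x)) : MvPolynomial (Fin n ⊕ (X ⊕ X)) K)
          have e : (id (σ (J x)) : Fin n) - id (σ (I x)) = J x - I x := by
            simp only [id, hσa]; abel
          rw [e] at this
          exact this
  have hs1 : ∀ i, FreeAlgebra.lift K (unitAsg K x₀ I J) p i i = specHom K 1 0 (P i i) := by
    intro i
    rw [← pairAsg_spec_one x₀ I J σ p]; rfl
  have hs2 : ∀ i, FreeAlgebra.lift K (unitAsg K x₀ (σ ∘ I) (σ ∘ J)) p i i = specHom K 0 1 (P i i) := by
    intro i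
    rw [← pairAsg_spec_two x₀ I J σ p]; rfl
  by_cases hΔ : ∑ y ∈ Y, d y = 0
  · -- balanced case
    have hdiag : P = Matrix.diagonal (fun i => P i i) := by
      ext1 i j
      by_cases hij : i = j
      · subst hij; simp
      · rw [Matrix.diagonal_apply_ne _ hij]
        by_contra hne
        have := hdeg i j hne
        rw [hΔ] at this
        simp at this
        exact hij this.symm
    have hpw := (hpow.transfer (pairAsg K x₀ I J σ)).2
    have hpw' : ∀ i j, (P i i) ^ ν = (P j j) ^ ν := by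
      intro i j
      have := hpw i j
      rw [← hP] at this
      rw [hdiag, Matrix.diagonal_pow] at this
      simpa using this
    have hω : ∀ i, ∃ ω : K, P i i = MvPolynomial.C ω * P 0 0 := fun i => ratio_const hν (hpw' i 0)
    choose ω hω using hω
    have e1 : ∀ i, FreeAlgebra.lift K (unitAsg K x₀ I J) p i i
        = MvPolynomial.C (ω i) * FreeAlgebra.lift K (unitAsg K x₀ I J) p 0 0 := by
      intro i
      rw [hs1, hs1, hω i, map_mul]
      congr 1
      simp [specHom]
    have e2 : ∀ i, FreeAlgebra.lift K (unitAsg K x₀ (σ ∘ I) (σ ∘ J)) p i i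
        = MvPolynomial.C (ω i) * FreeAlgebra.lift K (unitAsg K x₀ (σ ∘ I) (σ ∘ J)) p 0 0 := by
      intro i
      rw [hs2, hs2, hω i, map_mul]
      congr 1
      simp [specHom]
    have e3 : ∀ i, MvPolynomial.rename σ (FreeAlgebra.lift K (unitAsg K x₀ I J) p i i)
        = MvPolynomial.C (ω (i + 1)) * FreeAlgebra.lift K (unitAsg K x₀ (σ ∘ I) (σ ∘ J)) p 0 0 := by
      intro i
      rw [← unitAsg_rename, hσa, e2]
    refine ⟨ω (0 + 1), e1 _, ?_⟩
    have hinj : Function.Injective (MvPolynomial.rename σ : MvPolynomial (Fin n) K → MvPolynomial (Fin n) K) :=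
      MvPolynomial.rename_injective _ σ.injective
    by_cases hz : FreeAlgebra.lift K (unitAsg K x₀ (σ ∘ I) (σ ∘ J)) p 0 0 = 0
    · have hall : ∀ i, FreeAlgebra.lift K (unitAsg K x₀ I J) p i i = 0 := by
        intro i
        apply hinj
        rw [e3, hz, mul_zero, map_zero]
      rw [hall, hall, mul_zero]
    · have h0 := e3 0
      have h1 := e3 (0 + 1)
      rw [e1 (0 + 1), map_mul, MvPolynomial.rename_C, h0, ← mul_assoc, ← MvPolynomial.C_mul] at h1
      have h2 := mul_right_cancel₀ hz h1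
      have h3 : ω (0 + 1) * ω (0 + 1) = ω (0 + 1 + 1) := MvPolynomial.C_injective _ _ h2
      rw [e1 (0 + 1 + 1), ← h3, MvPolynomial.C_mul, mul_assoc, ← e1 (0 + 1)]
  · -- unbalanced case: all diagonal entries vanish
    have hzero : ∀ i, P i i = 0 := by
      intro i
      by_contra hne
      have := hdeg i i hne
      apply hΔ
      simpa using this
    refine ⟨1, ?_, ?_⟩ <;> simp [hs1, hzero]


/-- The cyclic lemma in an arbitrary labelling. -/
theorem cyclic_relation' [Infinite K] {n : ℕ} [NeZero n] {ν : ℕ} (hν : ν ≠ 0) {x₀ : X} {Y : Finset X}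
    (hx : x₀ ∉ Y) {p : FreeAlgebra K X} (hp : p ∈ fam K x₀ Y ∅) (hpow : PowScalar n ν p)
    (I J : X → Fin n) (e : Equiv.Perm (Fin n)) :
    ∃ ω : K,
      FreeAlgebra.lift K (unitAsg K x₀ I J) p (e (0 + 1)) (e (0 + 1))
        = MvPolynomial.C ω * FreeAlgebra.lift K (unitAsg K x₀ I J) p (e 0) (e 0) ∧
      FreeAlgebra.lift K (unitAsg K x₀ I J) p (e (0 + 1 + 1)) (e (0 + 1 + 1))
        = MvPolynomial.C ω * FreeAlgebra.lift K (unitAsg K x₀ I J) p (e (0 + 1)) (e (0 + 1)) := by
  obtain ⟨ω, h1, h2⟩ := cyclic_relation hν hx hp hpow (e.symm ∘ I) (e.symm ∘ J)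
  have hI : e ∘ (e.symm ∘ I) = I := by funext x; simp
  have hJ : e ∘ (e.symm ∘ J) = J := by funext x; simp
  have key : ∀ i, FreeAlgebra.lift K (unitAsg K x₀ I J) p (e i) (e i)
      = MvPolynomial.rename e (FreeAlgebra.lift K (unitAsg K x₀ (e.symm ∘ I) (e.symm ∘ J)) p i i) := by
    intro i
    rw [← unitAsg_rename, hI, hJ]
  refine ⟨ω, ?_, ?_⟩
  · rw [key, key, h1, map_mul, MvPolynomial.rename_C]
  · rw [key, key, h2, map_mul, MvPolynomial.rename_C]

theorem exists_perm_two {α : Type*} [DecidableEq α] {a b k l : α} (hab : a ≠ b) (hkl : k ≠ l) :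
    ∃ e : Equiv.Perm α, e a = k ∧ e b = l := by
  set s := Equiv.swap a k with hs
  have h1 : s.symm l ≠ a := by
    intro h
    have : l = s a := by rw [← h]; simp
    rw [hs, Equiv.swap_apply_left] at this
    exact hkl this.symm
  refine ⟨(Equiv.swap b (s.symm l)).trans s, ?_, ?_⟩
  · rw [Equiv.trans_apply, Equiv.swap_apply_of_ne_of_ne hab (Ne.symm h1), hs,
      Equiv.swap_apply_left]
  · rw [Equiv.trans_apply, Equiv.swap_apply_left, Equiv.apply_symm_apply]

/-- For `n ≥ 4` all diagonal entries of the value at a diagonal matrix and matrix units agree. -/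
theorem diag_equal_unit [Infinite K] {n : ℕ} (hn : 4 ≤ n) {ν : ℕ} (hν : ν ≠ 0) {x₀ : X} {Y : Finset X}
    (hx : x₀ ∉ Y) {p : FreeAlgebra K X} (hp : p ∈ fam K x₀ Y ∅) (hpow : PowScalar n ν p)
    (I J : X → Fin n) (k l : Fin n) :
    FreeAlgebra.lift K (unitAsg K x₀ I J) p k k = FreeAlgebra.lift K (unitAsg K x₀ I J) p l l := by
  by_cases hkl : k = l
  · rw [hkl]
  have : NeZero n := ⟨by omega⟩
  set z2 : Fin n := 0 + 1 + 1 with hz2
  set z3 : Fin n := 0 + 1 + 1 + 1 with hz3
  have v1 : ((0 + 1 : Fin n) : ℕ) = 1 := by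
    rw [zero_add, Fin.val_one', Nat.mod_eq_of_lt (by omega)]
  have v2 : (z2 : ℕ) = 2 := by
    rw [hz2, Fin.val_add, v1, Fin.val_one', Nat.mod_eq_of_lt (show 1 < n by omega),
      Nat.mod_eq_of_lt (by omega)]
  have v3 : (z3 : ℕ) = 3 := by
    rw [hz3, ← hz2, Fin.val_add, v2, Fin.val_one', Nat.mod_eq_of_lt (show 1 < n by omega),
      Nat.mod_eq_of_lt (by omega)]
  have h23 : z2 ≠ z3 := by
    intro h
    have := congrArg Fin.val h
    rw [v2, v3] at this; omega
  have h02 : (0 : Fin n) ≠ z2 := by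
    intro h
    have := congrArg Fin.val h
    rw [v2] at this; simp at this
  have h03 : (0 : Fin n) ≠ z3 := by
    intro h
    have := congrArg Fin.val h
    rw [v3] at this; simp at this
  have h12 : (0 + 1 : Fin n) ≠ z2 := by
    intro h
    have := congrArg Fin.val h
    rw [v2, v1] at this; omega
  have h13 : (0 + 1 : Fin n) ≠ z3 := by
    intro h
    have := congrArg Fin.val h
    rw [v3, v1] at this; omega
  obtain ⟨e, he2, he3⟩ := exists_perm_two h23 hkl
  obtain ⟨ω, a1, a2⟩ := cyclic_relation' hν hx hp hpow I J e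
  obtain ⟨ω', b1, b2⟩ := cyclic_relation' hν hx hp hpow I J ((Equiv.swap z2 z3).trans e)
  simp only [Equiv.trans_apply] at b1 b2
  rw [Equiv.swap_apply_of_ne_of_ne h12 h13, Equiv.swap_apply_of_ne_of_ne h02 h03] at b1
  rw [← hz2, Equiv.swap_apply_left, Equiv.swap_apply_of_ne_of_ne h12 h13] at b2
  rw [he3] at b2
  rw [← hz2, he2] at a2
  rw [a2, b2]
  by_cases h0 : FreeAlgebra.lift K (unitAsg K x₀ I J) p (e 0) (e 0) = 0
  · rw [a1, h0, mul_zero, mul_zero, mul_zero]
  · rw [a1] at b1
    have := MvPolynomial.C_injective _ _ (mul_right_cancel₀ h0 b1)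
    rw [this]

end Pool.Agent.Helper12
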