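import Mathlib
import Pool.Agent.Helper12.DiagStep

/-!
Step 2: vanishing of the off-diagonal entries.
-/

set_option linter.unusedSectionVars false
set_option linter.unusedVariables false

open Matrix

namespace Pool.Agent.Helper12

variable {K : Type*} [Field K] {X : Type*} [DecidableEq X]

/-- Values depend only on the variables that occur. -/
theorem fam_congr {R : Type*} [CommRing R] [Algebra K R] {ι : Type*} [Fintype ι] [DecidableEq ι]
    {x₀ : X} {Y : Finset X} {p : FreeAlgebra K X} (hp : p ∈ fam K x₀ Y ∅)
    {a b : X → Matrix ι ι R} (h : ∀ x ∈ insert x₀ Y, a x = b x) :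
    FreeAlgebra.lift K a p = FreeAlgebra.lift K b p := by
  unfold fam at hp
  induction hp using Submodule.span_induction with
  | mem q hq =>
    obtain ⟨w, hw, rfl⟩ := hq
    rw [lift_mon, lift_mon]
    congr 1
    apply List.map_congr_left
    intro x hx
    apply h
    rcases hw.1 x hx with h | h | h
    · simp [h]
    · simp [h]
    · simp at h
  | zero => simp
  | add p q _ _ hp hq => rw [map_add, map_add, hp, hq]
  | smul c p _ hp => rw [map_smul, map_smul, hp]

/-- All diagonal entries coincide, for arbitrary values of the linear variables. -/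
theorem diag_equal [Infinite K] {n : ℕ} (hn : 4 ≤ n) {ν : ℕ} (hν : ν ≠ 0) {x₀ : X} {Y : Finset X}
    (hx : x₀ ∉ Y) {p : FreeAlgebra K X} (hp : p ∈ fam K x₀ Y ∅) (hpow : PowScalar n ν p)
    {R : Type*} [CommRing R] [Algebra K R] (t : Fin n → R) (S : Finset X) (hS : S ⊆ Y) :
    ∀ (a : X → Matrix (Fin n) (Fin n) R), a x₀ = Matrix.diagonal t →
      (∀ y ∈ Y, y ∉ S → ∃ i j, a y = Matrix.single i j 1) →
      ∀ k l, FreeAlgebra.lift K a p k k = FreeAlgebra.lift K a p l l := by
  induction S using Finset.induction_on with
  | empty =>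
    intro a ha hu k l
    have hn0 : 0 < n := by omega
    let z : Fin n := ⟨0, hn0⟩
    have hex : ∀ y : X, ∃ ij : Fin n × Fin n, y ∈ Y → a y = Matrix.single ij.1 ij.2 1 := by
      intro y
      by_cases hy : y ∈ Y
      · obtain ⟨i, j, h⟩ := hu y hy (by simp)
        exact ⟨(i, j), fun _ => h⟩
      · exact ⟨(z, z), fun h => absurd h hy⟩
    choose IJ hIJ using hex
    set I := fun y => (IJ y).1 with hI
    set J := fun y => (IJ y).2 with hJ
    set φ : MvPolynomial (Fin n) K →ₐ[K] R := MvPolynomial.aeval t with hφ
    have e1 : FreeAlgebra.lift K a p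
        = (FreeAlgebra.lift K (unitAsg K x₀ I J) p).map φ := by
      rw [lift_map]
      apply fam_congr hp
      intro x hxx
      rw [Finset.mem_insert] at hxx
      rcases hxx with h | h
      · rw [h, ha]
        unfold unitAsg
        rw [if_pos rfl]
        ext i j
        by_cases hij : i = j
        · subst hij; simp [hφ]
        · simp [Matrix.diagonal_apply_ne _ hij]
      · have hne : x ≠ x₀ := by rintro rfl; exact hx h
        rw [hIJ x h]
        unfold unitAsg
        rw [if_neg hne]
        ext1 i j
        simp only [Matrix.map_apply, Matrix.single_apply, hI, hJ]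
        split_ifs <;> simp
    rw [e1, Matrix.map_apply, Matrix.map_apply, diag_equal_unit hn hν hx hp hpow I J k l]
  | insert y S hyS ih =>
    intro a ha hu k l
    have hyY : y ∈ Y := hS (Finset.mem_insert_self _ _)
    have hSY : S ⊆ Y := fun s hs => hS (Finset.mem_insert_of_mem hs)
    have hne : x₀ ≠ y := by rintro rfl; exact hx hyY
    -- the property is linear in the value at `y`
    have key : ∀ M : Matrix (Fin n) (Fin n) R,
        ∀ k l, FreeAlgebra.lift K (Function.update a y M) p k k
          = FreeAlgebra.lift K (Function.update a y M) p l l := by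
      intro M
      induction M using Matrix.induction_on' with
      | h_zero =>
        intro k l
        have := fam_linear hp hyY a (0 : R) 0 0 0
        simp only [zero_smul, add_zero] at this
        rw [this]; simp
      | h_add M N hM hN =>
        intro k l
        have := fam_linear hp hyY a (1 : R) 1 M N
        simp only [one_smul] at this
        rw [this, Matrix.add_apply, Matrix.add_apply, hM k l, hN k l]
      | h_std_basis i j r =>
        intro k l
        have h1 := fam_linear hp hyY a (r : R) 0 (Matrix.single i j 1) 0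
        have h2 : r • Matrix.single i j (1 : R) + (0 : R) • (0 : Matrix (Fin n) (Fin n) R)
            = Matrix.single i j r := by
          rw [zero_smul, add_zero, Matrix.smul_single, smul_eq_mul, mul_one]
        rw [h2] at h1
        rw [h1]
        have h3 := ih hSY (Function.update a y (Matrix.single i j 1))
          (by rw [Function.update_of_ne hne, ha])
          (by
            intro y' hy' hy'S
            by_cases hyy : y' = y
            · rw [hyy]
              exact ⟨i, j, by rw [Function.update_self]⟩
            · rw [Function.update_of_ne hyy]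
              apply hu y' hy'
              simp [hyy, hy'S]) k l
        simp only [Matrix.add_apply, Matrix.smul_apply, zero_smul, Matrix.zero_apply, h3]
    have := key (a y) k l
    rwa [Function.update_eq_self] at this

theorem diag_equal_all [Infinite K] {n : ℕ} (hn : 4 ≤ n) {ν : ℕ} (hν : ν ≠ 0) {x₀ : X} {Y : Finset X}
    (hx : x₀ ∉ Y) {p : FreeAlgebra K X} (hp : p ∈ fam K x₀ Y ∅) (hpow : PowScalar n ν p)
    {R : Type*} [CommRing R] [Algebra K R] (t : Fin n → R)
    (a : X → Matrix (Fin n) (Fin n) R) (ha : a x₀ = Matrix.diagonal t) (k l : Fin n) :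
    FreeAlgebra.lift K a p k k = FreeAlgebra.lift K a p l l :=
  diag_equal hn hν hx hp hpow t Y (Finset.Subset.refl _) a ha
    (fun y hy hy' => absurd hy hy') k l

/-- Powers of a matrix concentrated on a `2 × 2` block and on the diagonal. -/
theorem block_pow {n : ℕ} {R : Type*} [CommRing R] {M : Matrix (Fin n) (Fin n) R} {i j l : Fin n}
    (hij : i ≠ j) (hli : l ≠ i) (hlj : l ≠ j)
    (h0 : ∀ a b, a ≠ b → ¬ (a = i ∧ b = j) → ¬ (a = j ∧ b = i) → M a b = 0)
    {δ : R} (hδ : ∀ a, M a a = δ) (k : ℕ) :
    (M ^ k) l l = δ ^ k ∧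
      !![(M ^ k) i i, (M ^ k) i j; (M ^ k) j i, (M ^ k) j j] = !![δ, M i j; M j i, δ] ^ k := by
  induction k with
  | zero =>
    refine ⟨by simp, ?_⟩
    simp [hij, hij.symm, Matrix.one_fin_two]
  | succ k ih =>
    have hsum : ∀ (c d : Fin n), (d = i ∨ d = j) → ((M ^ k) * M) c d
          = (M ^ k) c i * M i d + (M ^ k) c j * M j d := by
      intro c d hd
      rw [Matrix.mul_apply, Finset.sum_eq_add i j hij]
      · intro e _ he
        have hed : e ≠ d := by
          rcases hd with rfl | rfl
          · exact he.1
          · exact he.2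
        rw [h0 e d hed (fun h => he.1 h.1) (fun h => he.2 h.1), mul_zero]
      · simp
      · simp
    constructor
    · rw [pow_succ, Matrix.mul_apply, Finset.sum_eq_single l, ih.1, hδ, pow_succ]
      · intro b _ hb
        rw [h0 b l hb (fun h => hlj h.2) (fun h => hli h.2), mul_zero]
      · simp
    · rw [pow_succ, pow_succ, ← ih.2, Matrix.mul_fin_two, hsum i i (Or.inl rfl),
        hsum i j (Or.inr rfl), hsum j i (Or.inl rfl), hsum j j (Or.inr rfl), hδ i, hδ j]

theorem block_relation {n : ℕ} {R : Type*} [CommRing R] {M : Matrix (Fin n) (Fin n) R}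
    {i j l : Fin n}
    (hij : i ≠ j) (hli : l ≠ i) (hlj : l ≠ j)
    (h0 : ∀ a b, a ≠ b → ¬ (a = i ∧ b = j) → ¬ (a = j ∧ b = i) → M a b = 0)
    {δ : R} (hδ : ∀ a, M a a = δ) {ν : ℕ}
    (hs0 : ∀ a b, a ≠ b → (M ^ ν) a b = 0) (hs1 : ∀ a b, (M ^ ν) a a = (M ^ ν) b b) :
    (δ ^ 2 - M i j * M j i) ^ ν = (δ ^ 2) ^ ν := by
  obtain ⟨h1, h2⟩ := block_pow hij hli hlj h0 hδ ν
  rw [hs0 i j hij, hs0 j i hij.symm, hs1 i l, hs1 j l, h1] at h2
  have h4 := congrArg Matrix.det h2
  rw [Matrix.det_pow, Matrix.det_fin_two_of, Matrix.det_fin_two_of] at h4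
  rw [← pow_mul, mul_comm 2 ν, pow_mul]
  calc (δ ^ 2 - M i j * M j i) ^ ν = (δ * δ - M i j * M j i) ^ ν := by ring
    _ = δ ^ ν * δ ^ ν - 0 * 0 := h4.symm
    _ = (δ ^ ν) ^ 2 := by ring


/-- Partial deformation: the letters in `A` are deformed, the others are not. -/
noncomputable def partAsg (K : Type*) [Field K] {n : ℕ} (x₀ : X) (I J : X → Fin n)
    (σ : Equiv.Perm (Fin n)) (A : Finset X) :
    X → Matrix (Fin n) (Fin n) (MvPolynomial (Fin n ⊕ (X ⊕ X)) K) :=
  fun x => if x = x₀ then Matrix.diagonal (fun i => MvPolynomial.X (Sum.inl i))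
    else Matrix.single (I x) (J x) (MvPolynomial.X (Sum.inr (Sum.inl x)))
      + (if x ∈ A then Matrix.single (σ (I x)) (σ (J x)) (MvPolynomial.X (Sum.inr (Sum.inr x)))
          else 0)

theorem partAsg_spec {n : ℕ} (x₀ : X) (I J : X → Fin n) (σ : Equiv.Perm (Fin n)) (A : Finset X)
    (p : FreeAlgebra K X) :
    (FreeAlgebra.lift K (partAsg K x₀ I J σ A) p).map (specHom K 1 0)
      = FreeAlgebra.lift K (unitAsg K x₀ I J) p := by
  rw [lift_map]
  congr 1
  congr 1
  funext x
  unfold partAsg unitAsg
  split_ifs with hx hA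
  · ext i j
    by_cases hij : i = j
    · subst hij; simp [specHom]
    · simp [Matrix.diagonal_apply_ne _ hij]
  · ext1 i j
    simp only [Matrix.map_apply, Matrix.add_apply, Matrix.single_apply]
    split_ifs <;> simp [specHom]
  · ext1 i j
    simp only [Matrix.map_apply, Matrix.add_apply, Matrix.single_apply, Matrix.zero_apply]
    split_ifs <;> simp [specHom]

/-- The homomorphism killing the parameter `b_k`. -/
noncomputable def killHom (K : Type*) [Field K] {n : ℕ} {X : Type*} [DecidableEq X] (k : X) :
    MvPolynomial (Fin n ⊕ (X ⊕ X)) K →ₐ[K] MvPolynomial (Fin n ⊕ (X ⊕ X)) K :=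
  MvPolynomial.aeval (Sum.elim (fun i => MvPolynomial.X (Sum.inl i))
    (Sum.elim (fun x => MvPolynomial.X (Sum.inr (Sum.inl x)))
      (fun x => if x = k then 0 else MvPolynomial.X (Sum.inr (Sum.inr x)))))


theorem partAsg_kill {n : ℕ} (x₀ : X) (I J : X → Fin n) (σ : Equiv.Perm (Fin n)) {A : Finset X}
    {k : X} (hk : k ∉ A) (x : X) :
    (partAsg K x₀ I J σ A x).map (killHom K k) = partAsg K x₀ I J σ A x := by
  unfold partAsg
  split_ifs with hx hA
  · ext a b
    by_cases hab : a = b
    · subst hab; simp [killHom]
    · simp [hab]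
  · have hxk : x ≠ k := by rintro rfl; exact hk hA
    ext1 a b
    simp only [Matrix.map_apply, Matrix.add_apply, Matrix.single_apply]
    split_ifs <;> simp [killHom, hxk]
  · ext1 a b
    simp only [Matrix.map_apply, Matrix.add_apply, Matrix.single_apply, Matrix.zero_apply]
    split_ifs <;> simp [killHom]

theorem partAsg_insert {n : ℕ} (x₀ : X) (I J : X → Fin n) (σ : Equiv.Perm (Fin n)) {A : Finset X}
    {k : X} (hk : k ∉ A) (hkx : k ≠ x₀) :
    partAsg K x₀ I J σ (insert k A) = Function.update (partAsg K x₀ I J σ A) k
      ((1 : MvPolynomial (Fin n ⊕ (X ⊕ X)) K) • partAsg K x₀ I J σ A k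
        + (MvPolynomial.X (Sum.inr (Sum.inr k)) : MvPolynomial (Fin n ⊕ (X ⊕ X)) K) •
            Matrix.single (σ (I k)) (σ (J k)) 1) := by
  funext x
  by_cases hxk : x = k
  · subst hxk
    rw [Function.update_self]
    unfold partAsg
    rw [if_neg hkx, if_neg hkx, if_pos (Finset.mem_insert_self _ _), if_neg hk, one_smul, add_zero,
      Matrix.smul_single, smul_eq_mul, mul_one]
  · rw [Function.update_of_ne hxk]
    unfold partAsg
    simp [hxk]

/-- All off-diagonal entries vanish. -/
theorem off_zero_unit [Infinite K] {n : ℕ} (hn : 4 ≤ n) {ν : ℕ} (hν : ν ≠ 0) {x₀ : X} {Y : Finset X}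
    (hx : x₀ ∉ Y) {p : FreeAlgebra K X} (hp : p ∈ fam K x₀ Y ∅) (hpow : PowScalar n ν p)
    (I J : X → Fin n) {i j : Fin n} (hij : i ≠ j) :
    FreeAlgebra.lift K (unitAsg K x₀ I J) p i j = 0 := by
  by_contra hne
  set σ : Equiv.Perm (Fin n) := Equiv.swap i j with hσ
  -- an index different from `i` and `j`
  obtain ⟨l, hl⟩ : ∃ l : Fin n, l ∉ ({i, j} : Finset (Fin n)) := by
    by_contra hall
    push Not at hall
    have h1 : (Finset.univ : Finset (Fin n)) ⊆ {i, j} := fun x _ => hall x
    have h2 := Finset.card_le_card h1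
    rw [Finset.card_univ, Fintype.card_fin] at h2
    have h3 := Finset.card_le_two (a := i) (b := j)
    omega
  have hli : l ≠ i := by rintro rfl; simp at hl
  have hlj : l ≠ j := by rintro rfl; simp at hl
  have hsingle : ∀ a b : Fin n, (Pi.single a 1 : Fin n → ℤ) = Pi.single b 1 → a = b := by
    intro a b h
    by_contra hab
    have := congrFun h a
    rw [Pi.single_eq_same, Pi.single_eq_of_ne hab] at this
    exact one_ne_zero this
  set g1 : Fin n → (Fin n → ℤ) := fun k => Pi.single k 1 with hg1
  set c : Fin n → Fin n := fun k => if k = j then i else k with hc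
  set g2 : Fin n → (Fin n → ℤ) := fun k => Pi.single (c k) 1 with hg2
  have hcσ : ∀ k, c (σ k) = c k := by
    intro k
    by_cases hki : k = i
    · rw [hki, hσ, Equiv.swap_apply_left]; simp [hc]
    · by_cases hkj : k = j
      · rw [hkj, hσ, Equiv.swap_apply_right]; simp [hc]
      · rw [hσ, Equiv.swap_apply_of_ne_of_ne hki hkj]
  have hg2σ : ∀ k, g2 (σ k) = g2 k := by intro k; simp only [hg2, hcσ]
  -- degrees of the undeformed assignment
  have hunit : ∀ (g : Fin n → (Fin n → ℤ)),
      InDeg g (∑ y ∈ Y, (if y = x₀ then 0 else g (J y) - g (I y)))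
        (FreeAlgebra.lift K (unitAsg K x₀ I J) p) := by
    intro g
    apply fam_inDeg hx hp (d := fun y => (if y = x₀ then 0 else g (J y) - g (I y)))
    · simp
    · intro x _
      unfold unitAsg
      by_cases h : x = x₀
      · simp only [h, if_true]; exact InDeg.diagonal _
      · simp only [h, if_false]; exact InDeg.single _ _ _
  have hΔ1 := hunit g1 i j hne
  have hΔ2 := hunit g2 i j hne
  set Δ1 := ∑ y ∈ Y, (if y = x₀ then 0 else g1 (J y) - g1 (I y)) with hΔ1def
  set Δ2 := ∑ y ∈ Y, (if y = x₀ then 0 else g2 (J y) - g2 (I y)) with hΔ2def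
  have hg2ij : g2 j = g2 i := by simp [hg2, hc, hij]
  have hΔ20 : Δ2 = 0 := by
    rw [hg2ij] at hΔ2
    simpa using hΔ2
  -- zero pattern
  have hpat : ∀ A : Finset X, ∀ a b : Fin n, a ≠ b → ¬ (a = i ∧ b = j) → ¬ (a = j ∧ b = i) →
      FreeAlgebra.lift K (partAsg K x₀ I J σ A) p a b = 0 := by
    intro A a b hab h1 h2
    by_contra hnz
    have hdeg : InDeg g2 Δ2 (FreeAlgebra.lift K (partAsg K x₀ I J σ A) p) := by
      apply fam_inDeg hx hp (d := fun y => (if y = x₀ then 0 else g2 (J y) - g2 (I y)))
      · simp
      · intro x _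
        unfold partAsg
        by_cases h : x = x₀
        · simp only [h, if_true]; exact InDeg.diagonal _
        · simp only [h, if_false]
          apply InDeg.add
          · exact InDeg.single _ _ _
          · split_ifs
            · have := InDeg.single (g := g2) (σ (I x)) (σ (J x))
                (MvPolynomial.X (Sum.inr (Sum.inr x)) : MvPolynomial (Fin n ⊕ (X ⊕ X)) K)
              rwa [hg2σ, hg2σ] at this
            · exact InDeg.zero
    have h3 := hdeg a b hnz
    rw [hΔ20, add_zero] at h3
    have h4 : c b = c a := hsingle _ _ h3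
    simp only [hc] at h4
    split_ifs at h4 with hb ha ha
    · exact hab (ha.trans hb.symm)
    · exact h1 ⟨h4.symm, hb⟩
    · exact h2 ⟨ha, h4⟩
    · exact hab h4.symm
  have hdg : ∀ A : Finset X, ∀ a, FreeAlgebra.lift K (partAsg K x₀ I J σ A) p a a
      = FreeAlgebra.lift K (partAsg K x₀ I J σ A) p l l := by
    intro A a
    apply diag_equal_all hn hν hx hp hpow (fun i => MvPolynomial.X (Sum.inl i))
    unfold partAsg
    rw [if_pos rfl]
  -- the multiplicative relation
  have hrel : ∀ A : Finset X, ∃ κ : K,
      FreeAlgebra.lift K (partAsg K x₀ I J σ A) p i j * FreeAlgebra.lift K (partAsg K x₀ I J σ A) p j i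
        = MvPolynomial.C κ * FreeAlgebra.lift K (partAsg K x₀ I J σ A) p l l ^ 2 := by
    intro A
    have hs := hpow.transfer (partAsg K x₀ I J σ A)
    have hb := block_relation hij hli hlj (hpat A) (hdg A) hs.1 hs.2
    obtain ⟨ω, hω⟩ := ratio_const hν hb
    refine ⟨1 - ω, ?_⟩
    rw [map_sub, map_one, sub_mul, one_mul, ← hω]
    ring
  -- the entry at `(i, j)` never vanishes
  have hf : ∀ A : Finset X, FreeAlgebra.lift K (partAsg K x₀ I J σ A) p i j ≠ 0 := by
    intro A h0
    apply hne
    rw [← partAsg_spec x₀ I J σ A p, Matrix.map_apply, h0, map_zero]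
  -- the entry at `(j, i)` always vanishes
  have hg : ∀ A : Finset X, A ⊆ Y → FreeAlgebra.lift K (partAsg K x₀ I J σ A) p j i = 0 := by
    intro A
    induction A using Finset.induction_on with
    | empty =>
      intro _
      by_contra hnz
      have hdeg : InDeg g1 Δ1 (FreeAlgebra.lift K (partAsg K x₀ I J σ ∅) p) := by
        apply fam_inDeg hx hp (d := fun y => (if y = x₀ then 0 else g1 (J y) - g1 (I y)))
        · simp
        · intro x _
          unfold partAsg
          by_cases h : x = x₀
          · simp only [h, if_true]; exact InDeg.diagonal _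
          · simp only [h, if_false, Finset.notMem_empty, add_zero]
            exact InDeg.single _ _ _
      have h3 := hdeg j i hnz
      have h4 : g1 i = g1 j + (g1 j - g1 i) := by
        have : Δ1 = g1 j - g1 i := by rw [hΔ1]; abel
        rw [← this]; exact h3
      have h5 := congrFun h4 i
      simp only [hg1, Pi.add_apply, Pi.sub_apply, Pi.single_eq_same,
        Pi.single_eq_of_ne hij] at h5
      omega
    | insert k A hkA ih =>
      intro hsub
      have hkY : k ∈ Y := hsub (Finset.mem_insert_self _ _)
      have hAY : A ⊆ Y := fun s hs => hsub (Finset.mem_insert_of_mem hs)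
      have hkx : k ≠ x₀ := by rintro rfl; exact hx hkY
      have hgA := ih hAY
      obtain ⟨κ, hκ⟩ := hrel (insert k A)
      set b : MvPolynomial (Fin n ⊕ (X ⊕ X)) K := MvPolynomial.X (Sum.inr (Sum.inr k)) with hb
      have hb0 : b ≠ 0 := MvPolynomial.X_ne_zero _
      set Q := FreeAlgebra.lift K (Function.update (partAsg K x₀ I J σ A) k
        (Matrix.single (σ (I k)) (σ (J k)) 1)) p with hQ
      have hlin : FreeAlgebra.lift K (partAsg K x₀ I J σ (insert k A)) p
          = FreeAlgebra.lift K (partAsg K x₀ I J σ A) p + b • Q := by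
        rw [partAsg_insert x₀ I J σ hkA hkx, fam_linear hp hkY, one_smul,
          Function.update_eq_self]
      have hent : ∀ r s, FreeAlgebra.lift K (partAsg K x₀ I J σ (insert k A)) p r s
          = FreeAlgebra.lift K (partAsg K x₀ I J σ A) p r s + b * Q r s := by
        intro r s
        rw [hlin]; simp
      have hkA' : ∀ r s, killHom K k (FreeAlgebra.lift K (partAsg K x₀ I J σ A) p r s)
          = FreeAlgebra.lift K (partAsg K x₀ I J σ A) p r s := by
        intro r s
        have h1 := lift_map (killHom K k) (partAsg K x₀ I J σ A) p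
        have h2 : (fun x => (partAsg K x₀ I J σ A x).map (killHom K k)) = partAsg K x₀ I J σ A := by
          funext x
          exact partAsg_kill x₀ I J σ hkA x
        rw [h2] at h1
        exact congrFun (congrFun h1 r) s
      have hkQ : ∀ r s, killHom K k (Q r s) = Q r s := by
        intro r s
        have h1 := lift_map (killHom K k) (Function.update (partAsg K x₀ I J σ A) k
          (Matrix.single (σ (I k)) (σ (J k)) 1)) p
        have h2 : (fun x => (Function.update (partAsg K x₀ I J σ A) k
            (Matrix.single (σ (I k)) (σ (J k)) 1) x).map (killHom K k))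
            = Function.update (partAsg K x₀ I J σ A) k (Matrix.single (σ (I k)) (σ (J k)) 1) := by
          funext x
          by_cases hxk : x = k
          · subst hxk
            rw [Function.update_self]
            ext1 r s
            simp only [Matrix.map_apply, Matrix.single_apply]
            split_ifs <;> simp
          · rw [Function.update_of_ne hxk]
            exact partAsg_kill x₀ I J σ hkA x
        rw [h2] at h1
        exact congrFun (congrFun h1 r) s
      have hkb : killHom K k b = 0 := by
        simp [killHom, hb]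
      rw [hent i j, hent j i, hent l l, hgA, zero_add] at hκ
      rw [hent j i, hgA, zero_add]
      -- set names
      set fA := FreeAlgebra.lift K (partAsg K x₀ I J σ A) p i j with hfA
      set dA := FreeAlgebra.lift K (partAsg K x₀ I J σ A) p l l with hdA
      have hkfA : killHom K k fA = fA := hkA' i j
      have hkdA : killHom K k dA = dA := hkA' l l
      have hκ0 := congrArg (killHom K k) hκ
      simp only [map_mul, map_add, map_pow, hkfA, hkdA, hkQ, hkb, zero_mul, mul_zero, add_zero,
        MvPolynomial.algHom_C, MvPolynomial.algebraMap_eq] at hκ0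
      by_cases hκz : κ = 0
      · rw [hκz, map_zero, zero_mul] at hκ
        rcases mul_eq_zero.mp hκ with h | h
        · exfalso
          apply hf (insert k A)
          rw [hent i j, ← hfA, h]
        · exact h
      · have hCκ : (MvPolynomial.C κ : MvPolynomial (Fin n ⊕ (X ⊕ X)) K) ≠ 0 := by
          intro h
          exact hκz ((map_eq_zero_iff _ (MvPolynomial.C_injective _ _)).mp h)
        have hd0 : dA = 0 := by
          rcases mul_eq_zero.mp hκ0.symm with h | h
          · exact absurd h hCκ
          · exact pow_eq_zero_iff (two_ne_zero) |>.mp h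
        rw [hd0, zero_add] at hκ
        have hκ1 : b * ((fA + b * Q i j) * Q j i) = b * (MvPolynomial.C κ * (b * Q l l ^ 2)) := by
          calc b * ((fA + b * Q i j) * Q j i) = (fA + b * Q i j) * (b * Q j i) := by ring
            _ = MvPolynomial.C κ * (b * Q l l) ^ 2 := hκ
            _ = b * (MvPolynomial.C κ * (b * Q l l ^ 2)) := by ring
        have hκ2 := mul_left_cancel₀ hb0 hκ1
        have hκ3 := congrArg (killHom K k) hκ2
        simp only [map_mul, map_add, map_pow, hkfA, hkQ, hkb, zero_mul, mul_zero, add_zero] at hκ3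
        rcases mul_eq_zero.mp hκ3 with h | h
        · exact absurd h (hf A)
        · rw [h, mul_zero]
  -- conclusion
  have hfin := hg Y (Finset.Subset.refl _)
  have hcongr : FreeAlgebra.lift K (partAsg K x₀ I J σ Y) p
      = FreeAlgebra.lift K (pairAsg K x₀ I J σ) p := by
    apply fam_congr hp
    intro x hxx
    rw [Finset.mem_insert] at hxx
    unfold partAsg pairAsg
    rcases hxx with h | h
    · rw [if_pos h, if_pos h]
    · rw [if_pos h]
  rw [hcongr] at hfin
  have h1 := congrFun (congrFun (pairAsg_spec_two x₀ I J σ p) j) i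
  rw [Matrix.map_apply, hfin, map_zero] at h1
  have h2 := unitAsg_rename x₀ I J σ p i j
  rw [hσ, Equiv.swap_apply_left, Equiv.swap_apply_right, ← hσ, ← h1] at h2
  apply hne
  have hinj : Function.Injective (MvPolynomial.rename σ : MvPolynomial (Fin n) K → MvPolynomial (Fin n) K) :=
    MvPolynomial.rename_injective _ σ.injective
  apply hinj
  rw [← h2, map_zero]


/-- Off-diagonal entries vanish, for arbitrary values of the linear variables. -/
theorem off_zero [Infinite K] {n : ℕ} (hn : 4 ≤ n) {ν : ℕ} (hν : ν ≠ 0) {x₀ : X} {Y : Finset X}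
    (hx : x₀ ∉ Y) {p : FreeAlgebra K X} (hp : p ∈ fam K x₀ Y ∅) (hpow : PowScalar n ν p)
    {R : Type*} [CommRing R] [Algebra K R] (t : Fin n → R) (S : Finset X) (hS : S ⊆ Y) :
    ∀ (a : X → Matrix (Fin n) (Fin n) R), a x₀ = Matrix.diagonal t →
      (∀ y ∈ Y, y ∉ S → ∃ i j, a y = Matrix.single i j 1) →
      ∀ k l, k ≠ l → FreeAlgebra.lift K a p k l = 0 := by
  induction S using Finset.induction_on with
  | empty =>
    intro a ha hu k l hkl
    have hn0 : 0 < n := by omega
    let z : Fin n := ⟨0, hn0⟩
    have hex : ∀ y : X, ∃ ij : Fin n × Fin n, y ∈ Y → a y = Matrix.single ij.1 ij.2 1 := by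
      intro y
      by_cases hy : y ∈ Y
      · obtain ⟨i, j, h⟩ := hu y hy (by simp)
        exact ⟨(i, j), fun _ => h⟩
      · exact ⟨(z, z), fun h => absurd h hy⟩
    choose IJ hIJ using hex
    set I := fun y => (IJ y).1 with hI
    set J := fun y => (IJ y).2 with hJ
    set φ : MvPolynomial (Fin n) K →ₐ[K] R := MvPolynomial.aeval t with hφ
    have e1 : FreeAlgebra.lift K a p
        = (FreeAlgebra.lift K (unitAsg K x₀ I J) p).map φ := by
      rw [lift_map]
      apply fam_congr hp
      intro x hxx
      rw [Finset.mem_insert] at hxx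
      rcases hxx with h | h
      · rw [h, ha]
        unfold unitAsg
        rw [if_pos rfl]
        ext i j
        by_cases hij : i = j
        · subst hij; simp [hφ]
        · simp [Matrix.diagonal_apply_ne _ hij]
      · have hne : x ≠ x₀ := by rintro rfl; exact hx h
        rw [hIJ x h]
        unfold unitAsg
        rw [if_neg hne]
        ext1 i j
        simp only [Matrix.map_apply, Matrix.single_apply, hI, hJ]
        split_ifs <;> simp
    rw [e1, Matrix.map_apply, off_zero_unit hn hν hx hp hpow I J hkl, map_zero]
  | insert y S hyS ih =>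
    intro a ha hu k l hkl
    have hyY : y ∈ Y := hS (Finset.mem_insert_self _ _)
    have hSY : S ⊆ Y := fun s hs => hS (Finset.mem_insert_of_mem hs)
    have hne : x₀ ≠ y := by rintro rfl; exact hx hyY
    have key : ∀ M : Matrix (Fin n) (Fin n) R,
        FreeAlgebra.lift K (Function.update a y M) p k l = 0 := by
      intro M
      induction M using Matrix.induction_on' with
      | h_zero =>
        have := fam_linear hp hyY a (0 : R) 0 0 0
        simp only [zero_smul, add_zero] at this
        rw [this]; simp
      | h_add M N hM hN =>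
        have := fam_linear hp hyY a (1 : R) 1 M N
        simp only [one_smul] at this
        rw [this, Matrix.add_apply, hM, hN, add_zero]
      | h_std_basis i j r =>
        have h1 := fam_linear hp hyY a (r : R) 0 (Matrix.single i j 1) 0
        have h2 : r • Matrix.single i j (1 : R) + (0 : R) • (0 : Matrix (Fin n) (Fin n) R)
            = Matrix.single i j r := by
          rw [zero_smul, add_zero, Matrix.smul_single, smul_eq_mul, mul_one]
        rw [h2] at h1
        rw [h1]
        have h3 := ih hSY (Function.update a y (Matrix.single i j 1))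
          (by rw [Function.update_of_ne hne, ha])
          (by
            intro y' hy' hy'S
            by_cases hyy : y' = y
            · rw [hyy]
              exact ⟨i, j, by rw [Function.update_self]⟩
            · rw [Function.update_of_ne hyy]
              apply hu y' hy'
              simp [hyy, hy'S]) k l hkl
        simp only [Matrix.add_apply, Matrix.smul_apply, zero_smul, Matrix.zero_apply, h3, add_zero,
          smul_zero]
    have := key (a y)
    rwa [Function.update_eq_self] at this

theorem off_zero_all [Infinite K] {n : ℕ} (hn : 4 ≤ n) {ν : ℕ} (hν : ν ≠ 0) {x₀ : X} {Y : Finset X}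
    (hx : x₀ ∉ Y) {p : FreeAlgebra K X} (hp : p ∈ fam K x₀ Y ∅) (hpow : PowScalar n ν p)
    {R : Type*} [CommRing R] [Algebra K R] (t : Fin n → R)
    (a : X → Matrix (Fin n) (Fin n) R) (ha : a x₀ = Matrix.diagonal t) {k l : Fin n} (hkl : k ≠ l) :
    FreeAlgebra.lift K a p k l = 0 :=
  off_zero hn hν hx hp hpow t Y (Finset.Subset.refl _) a ha
    (fun y hy hy' => absurd hy hy') k l hkl

end Pool.Agent.Helper12
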