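import Mathlib
import Pool.Agent.Helper12.OffStep
import Pool.Agent.Helper12.Density

/-!
The main theorem: over an infinite field and for `n ≥ 4`, a polynomial of degree at most one in
all variables but one, some power of which is scalar valued on `n × n` matrices, is scalar valued.
-/

set_option linter.unusedSectionVars false
set_option linter.unusedVariables false

open Matrix

namespace Pool.Agent.Helper12

variable {K : Type*} [Field K] {X : Type*} [DecidableEq X]

theorem core_multilinear [Infinite K] {n : ℕ} (hn : 4 ≤ n) {ν : ℕ} (hν : ν ≠ 0) {x₀ : X}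
    {Y : Finset X} (hx : x₀ ∉ Y) {p : FreeAlgebra K X} (hp : p ∈ fam K x₀ Y ∅)
    (hpow : PowScalar n ν p) (a : X → Matrix (Fin n) (Fin n) K) :
    ∃ c : K, FreeAlgebra.lift K a p = Matrix.scalar (Fin n) c := by
  apply scalar_of_diagonal (by omega) x₀ p
  intro b t hb
  exact ⟨fun k l hkl => off_zero_all hn hν hx hp hpow t b hb hkl,
    fun k l => diag_equal_all hn hν hx hp hpow t b hb k l⟩

theorem fam_congr' {R : Type*} [CommRing R] [Algebra K R] {ι : Type*} [Fintype ι] [DecidableEq ι]
    {x₀ : X} {Y₀ Y₁ : Finset X} {p : FreeAlgebra K X} (hp : p ∈ fam K x₀ Y₀ Y₁)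
    {a b : X → Matrix ι ι R} (h : ∀ x, (x = x₀ ∨ x ∈ Y₀ ∨ x ∈ Y₁) → a x = b x) :
    FreeAlgebra.lift K a p = FreeAlgebra.lift K b p := by
  unfold fam at hp
  induction hp using Submodule.span_induction with
  | mem q hq =>
    obtain ⟨w, hw, rfl⟩ := hq
    rw [lift_mon, lift_mon]
    congr 1
    apply List.map_congr_left
    intro x hx
    exact h x (hw.1 x hx)
  | zero => simp
  | add p q _ _ hp hq => rw [map_add, map_add, hp, hq]
  | smul c p _ hp => rw [map_smul, map_smul, hp]

/-- Splitting off the part which does not involve `y`. -/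
theorem fam_split {x₀ : X} {Y₀ T : Finset X} {y : X} (hy0 : y ∉ Y₀) {p : FreeAlgebra K X}
    (hp : p ∈ fam K x₀ Y₀ (insert y T)) :
    ∃ q r : FreeAlgebra K X, q ∈ fam K x₀ Y₀ T ∧ r ∈ fam K x₀ (insert y Y₀) T ∧ p = q + r := by
  unfold fam at hp
  induction hp using Submodule.span_induction with
  | mem q hq =>
    obtain ⟨w, hw, rfl⟩ := hq
    have hle := hw.2.2 y (Finset.mem_insert_self _ _)
    rcases Nat.le_one_iff_eq_zero_or_eq_one.mp hle with h | h
    · refine ⟨mon K w, 0, ?_, Submodule.zero_mem _, by simp⟩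
      apply Submodule.subset_span
      refine ⟨w, ⟨?_, hw.2.1, fun z hz => hw.2.2 z (Finset.mem_insert_of_mem hz)⟩, rfl⟩
      intro x hx
      rcases hw.1 x hx with h1 | h1 | h1
      · exact Or.inl h1
      · exact Or.inr (Or.inl h1)
      · rw [Finset.mem_insert] at h1
        rcases h1 with h2 | h2
        · exfalso
          rw [List.count_eq_zero] at h
          exact h (h2 ▸ hx)
        · exact Or.inr (Or.inr h2)
    · refine ⟨0, mon K w, Submodule.zero_mem _, ?_, by simp⟩
      apply Submodule.subset_span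
      refine ⟨w, ⟨?_, ?_, fun z hz => hw.2.2 z (Finset.mem_insert_of_mem hz)⟩, rfl⟩
      · intro x hx
        rcases hw.1 x hx with h1 | h1 | h1
        · exact Or.inl h1
        · exact Or.inr (Or.inl (Finset.mem_insert_of_mem h1))
        · rw [Finset.mem_insert] at h1
          rcases h1 with h2 | h2
          · exact Or.inr (Or.inl (by rw [h2]; exact Finset.mem_insert_self _ _))
          · exact Or.inr (Or.inr h2)
      · intro z hz
        rw [Finset.mem_insert] at hz
        rcases hz with h2 | h2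
        · rw [h2, h]
        · exact hw.2.1 z h2
  | zero => exact ⟨0, 0, Submodule.zero_mem _, Submodule.zero_mem _, by simp⟩
  | add p p' _ _ hp hp' =>
    obtain ⟨q, r, hq, hr, h⟩ := hp
    obtain ⟨q', r', hq', hr', h'⟩ := hp'
    exact ⟨q + q', r + r', Submodule.add_mem _ hq hq', Submodule.add_mem _ hr hr', by
      rw [h, h']; abel⟩
  | smul c p _ hp =>
    obtain ⟨q, r, hq, hr, h⟩ := hp
    exact ⟨c • q, c • r, Submodule.smul_mem _ _ hq, Submodule.smul_mem _ _ hr, by
      rw [h, smul_add]⟩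

/-- Extraction of the leading term of `(μ A + B) ^ ν` at `μ = 0`. -/
theorem pow_scalar_limit [Infinite K] {n ν : ℕ} (hn : 0 < n) (A B : Matrix (Fin n) (Fin n) K)
    (h : ∀ μ : K, μ ≠ 0 → ∃ c : K, (μ • A + B) ^ ν = Matrix.scalar (Fin n) c) :
    ∃ c : K, B ^ ν = Matrix.scalar (Fin n) c := by
  set N : Matrix (Fin n) (Fin n) (Polynomial K) :=
    Matrix.of fun i j => Polynomial.X * Polynomial.C (A i j) + Polynomial.C (B i j) with hN
  have hev : ∀ μ : K, ((Polynomial.evalRingHom μ).mapMatrix N) = μ • A + B := by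
    intro μ
    ext i j
    simp [hN]
    ring
  have hevp : ∀ (μ : K) i j, ((N ^ ν) i j).eval μ = ((μ • A + B) ^ ν) i j := by
    intro μ i j
    have h1 := map_pow ((Polynomial.evalRingHom μ).mapMatrix :
      Matrix (Fin n) (Fin n) (Polynomial K) →+* Matrix (Fin n) (Fin n) K) N ν
    rw [hev] at h1
    rw [← h1]
    rfl
  have hoff : ∀ i j, i ≠ j → (N ^ ν) i j = 0 := by
    intro i j hij
    have h1 : Polynomial.X * (N ^ ν) i j = 0 := by
      apply Polynomial.funext
      intro μ
      rw [Polynomial.eval_mul, Polynomial.eval_X, Polynomial.eval_zero]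
      by_cases hμ : μ = 0
      · rw [hμ, zero_mul]
      · obtain ⟨c, hc⟩ := h μ hμ
        rw [hevp, hc, Matrix.scalar_apply, Matrix.diagonal_apply_ne _ hij, mul_zero]
    exact (mul_eq_zero.mp h1).resolve_left Polynomial.X_ne_zero
  have hdia : ∀ i j, (N ^ ν) i i = (N ^ ν) j j := by
    intro i j
    have h1 : Polynomial.X * ((N ^ ν) i i - (N ^ ν) j j) = 0 := by
      apply Polynomial.funext
      intro μ
      rw [Polynomial.eval_mul, Polynomial.eval_X, Polynomial.eval_zero, Polynomial.eval_sub]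
      by_cases hμ : μ = 0
      · rw [hμ, zero_mul]
      · obtain ⟨c, hc⟩ := h μ hμ
        rw [hevp, hevp, hc, Matrix.scalar_apply, Matrix.diagonal_apply_eq,
          Matrix.diagonal_apply_eq, sub_self, mul_zero]
    exact sub_eq_zero.mp ((mul_eq_zero.mp h1).resolve_left Polynomial.X_ne_zero)
  have hB : ∀ i j, (B ^ ν) i j = ((N ^ ν) i j).eval 0 := by
    intro i j
    rw [hevp, zero_smul, zero_add]
  refine ⟨(B ^ ν) ⟨0, hn⟩ ⟨0, hn⟩, ?_⟩
  ext i j
  by_cases hij : i = j
  · subst hij
    rw [Matrix.scalar_apply, Matrix.diagonal_apply_eq, hB, hB, hdia i ⟨0, hn⟩]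
  · rw [Matrix.scalar_apply, Matrix.diagonal_apply_ne _ hij, hB, hoff i j hij, Polynomial.eval_zero]

theorem core_le [Infinite K] {n : ℕ} (hn : 4 ≤ n) {ν : ℕ} (hν : ν ≠ 0) {x₀ : X}
    (Y₁ : Finset X) (hx1 : x₀ ∉ Y₁) :
    ∀ (Y₀ : Finset X), x₀ ∉ Y₀ → Disjoint Y₀ Y₁ → ∀ p : FreeAlgebra K X, p ∈ fam K x₀ Y₀ Y₁ →
      PowScalar n ν p → ∀ a : X → Matrix (Fin n) (Fin n) K,
      ∃ c : K, FreeAlgebra.lift K a p = Matrix.scalar (Fin n) c := by
  induction Y₁ using Finset.induction_on with
  | empty =>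
    intro Y₀ hx0 _ p hp hpow a
    exact core_multilinear hn hν hx0 hp hpow a
  | insert y T hyT ih =>
    intro Y₀ hx0 hdisj p hp hpow a
    have hxT : x₀ ∉ T := fun h => hx1 (Finset.mem_insert_of_mem h)
    have hxy : x₀ ≠ y := by rintro rfl; exact hx1 (Finset.mem_insert_self _ _)
    have hy0 : y ∉ Y₀ := fun h =>
      (Finset.disjoint_left.mp hdisj h) (Finset.mem_insert_self _ _)
    have hdT : Disjoint Y₀ T := Finset.disjoint_of_subset_right (Finset.subset_insert _ _) hdisj
    obtain ⟨q, r, hq, hr, hpqr⟩ := fam_split hy0 hp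
    -- `q` does not depend on `y`, `r` is linear in `y`
    have hqc : ∀ (b : X → Matrix (Fin n) (Fin n) K) (M : Matrix (Fin n) (Fin n) K),
        FreeAlgebra.lift K (Function.update b y M) q = FreeAlgebra.lift K b q := by
      intro b M
      apply fam_congr' hq
      intro x hx
      rw [Function.update_of_ne]
      rintro rfl
      rcases hx with h | h | h
      · exact hxy h.symm
      · exact hy0 h
      · exact hyT h
    have hrl : ∀ (b : X → Matrix (Fin n) (Fin n) K) (μ : K),
        FreeAlgebra.lift K (Function.update b y (μ • b y)) r = μ • FreeAlgebra.lift K b r := by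
      intro b μ
      have h1 := fam_linear hr (Finset.mem_insert_self y Y₀) b μ 0 (b y) 0
      simp only [zero_smul, add_zero, Function.update_eq_self] at h1
      exact h1
    have hval : ∀ (b : X → Matrix (Fin n) (Fin n) K) (μ : K),
        FreeAlgebra.lift K (Function.update b y (μ • b y)) p
          = FreeAlgebra.lift K b q + μ • FreeAlgebra.lift K b r := by
      intro b μ
      rw [hpqr, map_add, hqc, hrl]
    have hqpow : PowScalar n ν q := by
      intro b
      obtain ⟨c, hc⟩ := hpow (Function.update b y ((0 : K) • b y))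
      rw [hval, zero_smul, add_zero] at hc
      exact ⟨c, hc⟩
    have hrpow : PowScalar n ν r := by
      intro b
      apply pow_scalar_limit (by omega) (FreeAlgebra.lift K b q) (FreeAlgebra.lift K b r)
      intro μ hμ
      obtain ⟨c, hc⟩ := hpow (Function.update b y (μ⁻¹ • b y))
      rw [hval] at hc
      refine ⟨μ ^ ν * c, ?_⟩
      have h1 : μ • FreeAlgebra.lift K b q + FreeAlgebra.lift K b r
          = μ • (FreeAlgebra.lift K b q + μ⁻¹ • FreeAlgebra.lift K b r) := by
        rw [smul_add, smul_smul, mul_inv_cancel₀ hμ, one_smul]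
      rw [h1, smul_pow, hc]
      ext i j
      by_cases hij : i = j
      · subst hij; simp
      · simp [Matrix.diagonal_apply_ne _ hij]
    have hrx0 : x₀ ∉ insert y Y₀ := by
      rw [Finset.mem_insert]
      push Not
      exact ⟨hxy, hx0⟩
    have hrd : Disjoint (insert y Y₀) T := by
      rw [Finset.disjoint_insert_left]
      exact ⟨hyT, hdT⟩
    obtain ⟨c1, hc1⟩ := ih hxT Y₀ hx0 hdT q hq hqpow a
    obtain ⟨c2, hc2⟩ := ih hxT (insert y Y₀) hrx0 hrd r hr hrpow a
    refine ⟨c1 + c2, ?_⟩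
    rw [hpqr, map_add, hc1, hc2, map_add]

theorem fam_mono {x₀ : X} {Y Z : Finset X} (hYZ : Y ⊆ Z) (hx : x₀ ∉ Z) :
    fam K x₀ ∅ Y ≤ fam K x₀ ∅ Z := by
  unfold fam
  apply Submodule.span_mono
  rintro q ⟨w, hw, rfl⟩
  refine ⟨w, ⟨?_, by simp, ?_⟩, rfl⟩
  · intro x hxw
    rcases hw.1 x hxw with h | h | h
    · exact Or.inl h
    · simp at h
    · exact Or.inr (Or.inr (hYZ h))
  · intro y hy
    by_cases hyw : y ∈ w
    · rcases hw.1 y hyw with h | h | h
      · exact absurd (h ▸ hy) hx
      · simp at h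
      · exact hw.2.2 y h
    · rw [List.count_eq_zero_of_not_mem hyw]; exact Nat.zero_le _

/-- Main theorem. -/
theorem linear_all_but_one [Infinite K] (x₀ : X) {n : ℕ} (hn : 4 ≤ n) {ν : ℕ} (hν : 1 ≤ ν)
    (p : FreeAlgebra K X)
    (hp : p ∈ Submodule.span K {q : FreeAlgebra K X |
      ∃ w : List X, (∀ y, y ≠ x₀ → w.count y ≤ 1) ∧ q = (w.map (FreeAlgebra.ι K)).prod})
    (hpow : ∀ a : X → Matrix (Fin n) (Fin n) K,
      ∃ c : K, (FreeAlgebra.lift K a p) ^ ν = Matrix.scalar (Fin n) c)
    (a : X → Matrix (Fin n) (Fin n) K) :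
    ∃ c : K, FreeAlgebra.lift K a p = Matrix.scalar (Fin n) c := by
  obtain ⟨Y, hxY, hpY⟩ : ∃ Y : Finset X, x₀ ∉ Y ∧ p ∈ fam K x₀ ∅ Y := by
    clear hpow
    induction hp using Submodule.span_induction with
    | mem q hq =>
      obtain ⟨w, hw, rfl⟩ := hq
      refine ⟨w.toFinset.erase x₀, by simp, ?_⟩
      apply Submodule.subset_span
      refine ⟨w, ⟨?_, by simp, ?_⟩, rfl⟩
      · intro x hx
        by_cases h : x = x₀
        · exact Or.inl h
        · exact Or.inr (Or.inr (by simp [h, hx]))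
      · intro y hy
        apply hw
        rw [Finset.mem_erase] at hy
        exact hy.1
    | zero => exact ⟨∅, by simp, Submodule.zero_mem _⟩
    | add p q _ _ hp hq =>
      obtain ⟨Y, hxY, hpY⟩ := hp
      obtain ⟨Z, hxZ, hqZ⟩ := hq
      have hxU : x₀ ∉ Y ∪ Z := by
        rw [Finset.mem_union]; push Not; exact ⟨hxY, hxZ⟩
      exact ⟨Y ∪ Z, hxU, Submodule.add_mem _ (fam_mono Finset.subset_union_left hxU hpY)
        (fam_mono Finset.subset_union_right hxU hqZ)⟩
    | smul c p _ hp =>
      obtain ⟨Y, hxY, hpY⟩ := hp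
      exact ⟨Y, hxY, Submodule.smul_mem _ _ hpY⟩
  exact core_le hn (by omega) Y hxY ∅ (by simp) (Finset.disjoint_empty_left _) p hpY hpow a

end Pool.Agent.Helper12
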