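import Mathlib
import Pool.Agent.Helper12.DichotomyMain
import Pool.Agent.Helper12.LinearMain

/-!
Degree bounds for power-central polynomials, from the dichotomy for block triangular tuples.
-/

set_option linter.unusedSectionVars false
set_option linter.unusedVariables false

open Matrix

namespace Pool.Agent.Helper12

variable {K : Type*} [Field K] {X : Type*} [DecidableEq X]

section Kill

variable {σ R : Type*} [CommRing R] [DecidableEq σ]

/-- Setting one variable to zero. -/
noncomputable def kill (R : Type*) [CommRing R] (v : σ) : MvPolynomial σ R →ₐ[R] MvPolynomial σ R :=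
  MvPolynomial.aeval (fun w => if w = v then 0 else MvPolynomial.X w)

theorem coeff_kill (v : σ) (g : MvPolynomial σ R) (d : σ →₀ ℕ) (hd : d v = 0) :
    MvPolynomial.coeff d (kill R v g) = MvPolynomial.coeff d g := by
  induction g using MvPolynomial.induction_on' with
  | monomial e r =>
    have h1 : kill R v (MvPolynomial.monomial e r)
        = if e v = 0 then MvPolynomial.monomial e r else 0 := by
      unfold kill
      rw [MvPolynomial.aeval_monomial]
      split_ifs with he
      · rw [MvPolynomial.monomial_eq, MvPolynomial.algebraMap_eq]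
        congr 1
        apply Finsupp.prod_congr
        intro x hx
        rw [if_neg]
        rintro rfl
        exact (Finsupp.mem_support_iff.mp hx) he
      · have hv : v ∈ e.support := Finsupp.mem_support_iff.mpr he
        rw [Finsupp.prod, Finset.prod_eq_zero hv, mul_zero]
        simp [he]
    rw [h1]
    split_ifs with he
    · rfl
    · rw [MvPolynomial.coeff_zero, MvPolynomial.coeff_monomial, if_neg]
      rintro rfl
      exact he hd
  | add p q hp hq => rw [map_add, MvPolynomial.coeff_add, MvPolynomial.coeff_add, hp, hq]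

theorem eq_zero_of_kill [Fintype σ] {g : MvPolynomial σ R} {m : ℕ} (hg : g.IsHomogeneous m)
    (hm : m < Fintype.card σ) (h : ∀ v, kill R v g = 0) : g = 0 := by
  ext d
  rw [MvPolynomial.coeff_zero]
  by_contra hne
  have hd := hg hne
  obtain ⟨v, hv⟩ : ∃ v, d v = 0 := by
    by_contra hall
    push Not at hall
    have h1 : Fintype.card σ ≤ ∑ v, d v := by
      rw [Fintype.card, Finset.card_eq_sum_ones]
      exact Finset.sum_le_sum fun v _ => Nat.one_le_iff_ne_zero.mpr (hall v)
    have h2 : ∑ v, d v = m := by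
      rw [← hd, Finsupp.weight_apply, Finsupp.sum_fintype]
      · simp
      · simp
    omega
  apply hne
  rw [← coeff_kill v g d hv, h v, MvPolynomial.coeff_zero]

end Kill

/-- Monomials with exactly `m` letters different from `x₀`. -/
noncomputable def outer (K : Type*) [Field K] {X : Type*} [DecidableEq X] (x₀ : X) (m : ℕ) :
    Submodule K (FreeAlgebra K X) :=
  Submodule.span K {q | ∃ w : List X, w.length = w.count x₀ + m ∧ q = mon K w}

section Homog

variable {R : Type*} [CommRing R] {σ : Type*} {ι : Type*} [Fintype ι] [DecidableEq ι]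

/-- Entrywise homogeneity. -/
def MHom (m : ℕ) (M : Matrix ι ι (MvPolynomial σ R)) : Prop := ∀ i j, (M i j).IsHomogeneous m

theorem MHom.mul {m n : ℕ} {M N : Matrix ι ι (MvPolynomial σ R)} (hM : MHom m M) (hN : MHom n N) :
    MHom (m + n) (M * N) := by
  intro i j
  rw [Matrix.mul_apply]
  apply MvPolynomial.IsHomogeneous.sum
  intro k _
  exact (hM i k).mul (hN k j)

theorem MHom.one : MHom 0 (1 : Matrix ι ι (MvPolynomial σ R)) := by
  intro i j
  by_cases h : i = j
  · subst h
    rw [Matrix.one_apply_eq]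
    exact MvPolynomial.isHomogeneous_one _ _
  · rw [Matrix.one_apply_ne h]
    exact MvPolynomial.isHomogeneous_zero _ _ _

theorem MHom.word {x₀ : X} {a : X → Matrix ι ι (MvPolynomial σ R)} (h0 : MHom 0 (a x₀))
    (h1 : ∀ x, x ≠ x₀ → MHom 1 (a x)) (w : List X) (m : ℕ) (hw : w.length = w.count x₀ + m) :
    MHom m (w.map a).prod := by
  induction w generalizing m with
  | nil =>
    have : m = 0 := by simpa using hw.symm
    subst this
    simpa using MHom.one
  | cons x w ih =>
    rw [List.map_cons, List.prod_cons]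
    by_cases hx : x = x₀
    · subst hx
      have := h0.mul (ih m (by
        rw [List.length_cons, List.count_cons_self] at hw; omega))
      rwa [zero_add] at this
    · rw [List.length_cons, List.count_cons_of_ne hx] at hw
      have hle : w.count x₀ ≤ w.length := List.count_le_length
      obtain ⟨m', rfl⟩ : ∃ m', m = m' + 1 := ⟨m - 1, by omega⟩
      have := (h1 x hx).mul (ih m' (by omega))
      rwa [add_comm] at this

theorem MHom.outer [Algebra K R] {x₀ : X} {a : X → Matrix ι ι (MvPolynomial σ R)}
    (h0 : MHom 0 (a x₀)) (h1 : ∀ x, x ≠ x₀ → MHom 1 (a x)) {m : ℕ} {p : FreeAlgebra K X}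
    (hp : p ∈ outer K x₀ m) : MHom m (FreeAlgebra.lift K a p) := by
  unfold Pool.Agent.Helper12.outer at hp
  induction hp using Submodule.span_induction with
  | mem q hq =>
    obtain ⟨w, hw, rfl⟩ := hq
    rw [lift_mon]
    exact MHom.word h0 h1 w m hw
  | zero =>
    rw [map_zero]
    intro i j
    exact MvPolynomial.isHomogeneous_zero _ _ _
  | add p q _ _ hp hq =>
    rw [map_add]
    intro i j
    exact (hp i j).add (hq i j)
  | smul c p _ hp =>
    rw [map_smul]
    intro i j
    rw [Matrix.smul_apply]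
    have h2 : c • (FreeAlgebra.lift K a p i j)
        = MvPolynomial.C (algebraMap K R c) * (FreeAlgebra.lift K a p i j) := by
      rw [Algebra.smul_def]
      rfl
    rw [h2]
    have h3 := (MvPolynomial.isHomogeneous_C σ (algebraMap K R c)).mul (hp i j)
    rwa [zero_add] at h3

end Homog

section Vanish

/-- A word of positive outer degree vanishes at zero. -/
theorem outer_zero {x₀ : X} {m : ℕ} (hm : m ≠ 0) {p : FreeAlgebra K X} (hp : p ∈ outer K x₀ m) :
    FreeAlgebra.lift K (fun _ : X => (0 : K)) p = 0 := by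
  unfold outer at hp
  induction hp using Submodule.span_induction with
  | mem q hq =>
    obtain ⟨w, hw, rfl⟩ := hq
    unfold mon
    rw [map_list_prod, List.map_map]
    apply List.prod_eq_zero
    rw [List.mem_map]
    have hne : w ≠ [] := by
      rintro rfl
      simp at hw
      exact hm hw.symm
    obtain ⟨x, hx⟩ := List.exists_mem_of_ne_nil w hne
    exact ⟨x, hx, by simp⟩
  | zero => rw [map_zero]
  | add p q _ _ hp hq => rw [map_add, hp, hq, add_zero]
  | smul c p _ hp => rw [map_smul, hp, smul_zero]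

/-- The equivalence singling out an index. -/
theorem exists_equiv_inl {n : ℕ} (v : Fin (n + 1)) :
    ∃ e : Fin 1 ⊕ Fin n ≃ Fin (n + 1), e (Sum.inl 0) = v := by
  let e0 : Fin 1 ⊕ Fin n ≃ Fin (n + 1) := finSumFinEquiv.trans (finCongr (Nat.add_comm 1 n))
  exact ⟨e0.trans (Equiv.swap (e0 (Sum.inl 0)) v), by simp⟩

theorem powScalarOn_of_fin {n ν : ℕ} {ι : Type*} [Fintype ι] [DecidableEq ι] (e : ι ≃ Fin n)
    {p : FreeAlgebra K X} (hpow : PowScalar n ν p) : PowScalarOn K ι ν p := by
  intro c
  obtain ⟨s, hs⟩ := hpow (fun x => (c x).submatrix e.symm e.symm)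
  refine ⟨s, ?_⟩
  have h1 := lift_submatrix (K := K) e (fun x => (c x).submatrix e.symm e.symm) p
  have h2 : (fun x => ((c x).submatrix e.symm e.symm).submatrix e e) = c := by
    funext x
    ext i j
    simp
  rw [h2] at h1
  rw [← h1]
  have h3 : ∀ (M : Matrix (Fin n) (Fin n) K) (j : ℕ),
      (M.submatrix e e) ^ j = (M ^ j).submatrix e e := by
    intro M j
    have := map_pow (Matrix.reindexAlgEquiv K K e.symm) M j
    simpa using this.symm
  rw [h3, hs]
  ext i j
  simp [Matrix.diagonal_apply]

/-- If a polynomial vanishes on block upper triangular tuples, it vanishes as soon as a column is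
concentrated on the diagonal. -/
theorem zero_of_column {n : ℕ} {R : Type*} [CommRing R] [Algebra K R] {p : FreeAlgebra K X}
    (h : ∀ (a : X → Matrix (Fin 1) (Fin 1) R) (b : X → Matrix (Fin n) (Fin n) R)
      (Y : X → Matrix (Fin 1) (Fin n) R), FreeAlgebra.lift K (upA a b Y) p = 0)
    (v : Fin (n + 1)) (a : X → Matrix (Fin (n + 1)) (Fin (n + 1)) R)
    (ha : ∀ x i, i ≠ v → a x i v = 0) : FreeAlgebra.lift K a p = 0 := by
  obtain ⟨e, he⟩ := exists_equiv_inl v
  have h1 := lift_submatrix (K := K) e a p
  have h2 : (fun x => (a x).submatrix e e) = upA (fun x => ((a x).submatrix e e).toBlocks₁₁)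
      (fun x => ((a x).submatrix e e).toBlocks₂₂) (fun x => ((a x).submatrix e e).toBlocks₁₂) := by
    funext x
    unfold upA
    beta_reduce
    have h3 : ((a x).submatrix e e).toBlocks₂₁ = 0 := by
      ext i j
      rw [Matrix.toBlocks₂₁, Matrix.of_apply, Matrix.submatrix_apply, Subsingleton.elim j 0, he,
        Matrix.zero_apply]
      apply ha
      rw [← he]
      intro h4
      exact absurd (e.injective h4) (by simp)
    rw [← h3, Matrix.fromBlocks_toBlocks]
  rw [h2, h] at h1
  ext i j
  have := congrFun (congrFun h1 (e.symm i)) (e.symm j)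
  simpa using this

theorem zero_of_row {n : ℕ} {R : Type*} [CommRing R] [Algebra K R] {p : FreeAlgebra K X}
    (h : ∀ (a : X → Matrix (Fin 1) (Fin 1) R) (b : X → Matrix (Fin n) (Fin n) R)
      (Z : X → Matrix (Fin n) (Fin 1) R), FreeAlgebra.lift K (loA a b Z) p = 0)
    (v : Fin (n + 1)) (a : X → Matrix (Fin (n + 1)) (Fin (n + 1)) R)
    (ha : ∀ x i, i ≠ v → a x v i = 0) : FreeAlgebra.lift K a p = 0 := by
  obtain ⟨e, he⟩ := exists_equiv_inl v
  have h1 := lift_submatrix (K := K) e a p
  have h2 : (fun x => (a x).submatrix e e) = loA (fun x => ((a x).submatrix e e).toBlocks₁₁)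
      (fun x => ((a x).submatrix e e).toBlocks₂₂) (fun x => ((a x).submatrix e e).toBlocks₂₁) := by
    funext x
    unfold loA
    beta_reduce
    have h3 : ((a x).submatrix e e).toBlocks₁₂ = 0 := by
      ext i j
      rw [Matrix.toBlocks₁₂, Matrix.of_apply, Matrix.submatrix_apply, Subsingleton.elim i 0, he,
        Matrix.zero_apply]
      apply ha
      rw [← he]
      intro h4
      exact absurd (e.injective h4) (by simp)
    rw [← h3, Matrix.fromBlocks_toBlocks]
  rw [h2, h] at h1
  ext i j
  have := congrFun (congrFun h1 (e.symm i)) (e.symm j)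
  simpa using this

/-- Homogeneous pieces of small outer degree vanish when `x₀` is diagonal: upper case. -/
theorem outer_vanish_up {n : ℕ} {p : FreeAlgebra K X} {x₀ : X} {m : ℕ}
    (hp : p ∈ outer K x₀ m) (hm : m < n + 1)
    {R : Type*} [CommRing R] [Algebra K R]
    (h : ∀ (a : X → Matrix (Fin 1) (Fin 1) (MvPolynomial (Fin (n + 1)) R))
      (b : X → Matrix (Fin n) (Fin n) (MvPolynomial (Fin (n + 1)) R))
      (Y : X → Matrix (Fin 1) (Fin n) (MvPolynomial (Fin (n + 1)) R)),
      FreeAlgebra.lift K (upA a b Y) p = 0)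
    (t : Fin (n + 1) → R) (a : X → Matrix (Fin (n + 1)) (Fin (n + 1)) R)
    (ha : a x₀ = Matrix.diagonal t) : FreeAlgebra.lift K a p = 0 := by
  set S := MvPolynomial (Fin (n + 1)) R with hS
  let b : X → Matrix (Fin (n + 1)) (Fin (n + 1)) S := fun x =>
    if x = x₀ then Matrix.diagonal (fun i => MvPolynomial.C (t i))
    else Matrix.of fun i j => MvPolynomial.C (a x i j) * MvPolynomial.X j
  have h0 : MHom 0 (b x₀) := by
    intro i j
    simp only [b, if_true]
    by_cases hij : i = j
    · subst hij
      rw [Matrix.diagonal_apply_eq]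
      exact MvPolynomial.isHomogeneous_C _ _
    · rw [Matrix.diagonal_apply_ne _ hij]
      exact MvPolynomial.isHomogeneous_zero _ _ _
  have h1 : ∀ x, x ≠ x₀ → MHom 1 (b x) := by
    intro x hx i j
    simp only [b, if_neg hx, Matrix.of_apply]
    have := (MvPolynomial.isHomogeneous_C (Fin (n + 1)) (a x i j)).mul
      (MvPolynomial.isHomogeneous_X R j)
    rwa [zero_add] at this
  have hG : FreeAlgebra.lift K b p = 0 := by
    ext1 i j
    rw [Matrix.zero_apply]
    apply eq_zero_of_kill (MHom.outer h0 h1 hp i j) (by rw [Fintype.card_fin]; exact hm)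
    intro v
    have h2 := lift_map ((kill R v).restrictScalars K) b p
    have h3 : FreeAlgebra.lift K (fun x => (b x).map ((kill R v).restrictScalars K)) p = 0 := by
      apply zero_of_column h v
      intro x i hi
      rw [Matrix.map_apply]
      simp only [b]
      split_ifs with hx
      · rw [Matrix.diagonal_apply_ne _ hi, map_zero]
      · rw [Matrix.of_apply]
        simp [kill]
    rw [h3] at h2
    have := congrFun (congrFun h2 i) j
    simpa using this
  have h2 := lift_map ((MvPolynomial.aeval (R := R) (fun _ : Fin (n + 1) => (1 : R))).restrictScalars K) b p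
  rw [hG] at h2
  have h3 : (fun x => (b x).map ((MvPolynomial.aeval (R := R)
      (fun _ : Fin (n + 1) => (1 : R))).restrictScalars K)) = a := by
    funext x
    ext i j
    rw [Matrix.map_apply]
    simp only [b]
    split_ifs with hx
    · subst hx
      rw [ha]
      by_cases hij : i = j
      · subst hij; simp
      · rw [Matrix.diagonal_apply_ne _ hij, Matrix.diagonal_apply_ne _ hij, map_zero]
    · simp
  rw [h3] at h2
  rw [← h2]
  ext i j
  simp

theorem outer_vanish_lo {n : ℕ} {p : FreeAlgebra K X} {x₀ : X} {m : ℕ}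
    (hp : p ∈ outer K x₀ m) (hm : m < n + 1)
    {R : Type*} [CommRing R] [Algebra K R]
    (h : ∀ (a : X → Matrix (Fin 1) (Fin 1) (MvPolynomial (Fin (n + 1)) R))
      (b : X → Matrix (Fin n) (Fin n) (MvPolynomial (Fin (n + 1)) R))
      (Z : X → Matrix (Fin n) (Fin 1) (MvPolynomial (Fin (n + 1)) R)),
      FreeAlgebra.lift K (loA a b Z) p = 0)
    (t : Fin (n + 1) → R) (a : X → Matrix (Fin (n + 1)) (Fin (n + 1)) R)
    (ha : a x₀ = Matrix.diagonal t) : FreeAlgebra.lift K a p = 0 := by
  set S := MvPolynomial (Fin (n + 1)) R with hS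
  let b : X → Matrix (Fin (n + 1)) (Fin (n + 1)) S := fun x =>
    if x = x₀ then Matrix.diagonal (fun i => MvPolynomial.C (t i))
    else Matrix.of fun i j => MvPolynomial.C (a x i j) * MvPolynomial.X i
  have h0 : MHom 0 (b x₀) := by
    intro i j
    simp only [b, if_true]
    by_cases hij : i = j
    · subst hij
      rw [Matrix.diagonal_apply_eq]
      exact MvPolynomial.isHomogeneous_C _ _
    · rw [Matrix.diagonal_apply_ne _ hij]
      exact MvPolynomial.isHomogeneous_zero _ _ _
  have h1 : ∀ x, x ≠ x₀ → MHom 1 (b x) := by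
    intro x hx i j
    simp only [b, if_neg hx, Matrix.of_apply]
    have := (MvPolynomial.isHomogeneous_C (Fin (n + 1)) (a x i j)).mul
      (MvPolynomial.isHomogeneous_X R i)
    rwa [zero_add] at this
  have hG : FreeAlgebra.lift K b p = 0 := by
    ext1 i j
    rw [Matrix.zero_apply]
    apply eq_zero_of_kill (MHom.outer h0 h1 hp i j) (by rw [Fintype.card_fin]; exact hm)
    intro v
    have h2 := lift_map ((kill R v).restrictScalars K) b p
    have h3 : FreeAlgebra.lift K (fun x => (b x).map ((kill R v).restrictScalars K)) p = 0 := by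
      apply zero_of_row h v
      intro x i hi
      rw [Matrix.map_apply]
      simp only [b]
      split_ifs with hx
      · rw [Matrix.diagonal_apply_ne _ (Ne.symm hi), map_zero]
      · rw [Matrix.of_apply]
        simp [kill]
    rw [h3] at h2
    have := congrFun (congrFun h2 i) j
    simpa using this
  have h2 := lift_map ((MvPolynomial.aeval (R := R) (fun _ : Fin (n + 1) => (1 : R))).restrictScalars K) b p
  rw [hG] at h2
  have h3 : (fun x => (b x).map ((MvPolynomial.aeval (R := R)
      (fun _ : Fin (n + 1) => (1 : R))).restrictScalars K)) = a := by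
    funext x
    ext i j
    rw [Matrix.map_apply]
    simp only [b]
    split_ifs with hx
    · subst hx
      rw [ha]
      by_cases hij : i = j
      · subst hij; simp
      · rw [Matrix.diagonal_apply_ne _ hij, Matrix.diagonal_apply_ne _ hij, map_zero]
    · simp
  rw [h3] at h2
  rw [← h2]
  ext i j
  simp

end Vanish

section Main

/-- Density: a polynomial vanishing when `x₀` is diagonal vanishes identically. -/
theorem zero_of_diagonal [Infinite K] {n : ℕ} (hn : 0 < n) (x₀ : X) (p : FreeAlgebra K X)
    (hF : ∀ (a : X → Matrix (Fin n) (Fin n) (AlgebraicClosure K)) (t : Fin n → AlgebraicClosure K),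
      a x₀ = Matrix.diagonal t → FreeAlgebra.lift K a p = 0)
    (a : X → Matrix (Fin n) (Fin n) K) : FreeAlgebra.lift K a p = 0 := by
  have h1 : ∀ a : X → Matrix (Fin n) (Fin n) K, ∃ c : K,
      FreeAlgebra.lift K a p = Matrix.scalar (Fin n) c := by
    apply scalar_of_diagonal hn x₀ p
    intro b t hb
    rw [hF b t hb]
    simp
  have h2 : ∀ a : X → Matrix (Fin n) (Fin n) K, ∃ c : K,
      FreeAlgebra.lift K a (p * FreeAlgebra.ι K x₀) = Matrix.scalar (Fin n) c := by
    apply scalar_of_diagonal hn x₀ (p * FreeAlgebra.ι K x₀)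
    intro b t hb
    rw [map_mul, hF b t hb, zero_mul]
    simp
  obtain ⟨c, hc⟩ := h1 a
  obtain ⟨c', hc'⟩ := h2 a
  by_cases h0 : c = 0
  · rw [hc, h0, map_zero]
  · -- then `a x₀` is scalar
    rw [map_mul, hc, FreeAlgebra.lift_ι_apply] at hc'
    have h3 : a x₀ = Matrix.diagonal (fun _ => c⁻¹ * c') := by
      have h4 : Matrix.scalar (Fin n) c⁻¹ * (Matrix.scalar (Fin n) c * a x₀)
          = Matrix.scalar (Fin n) c⁻¹ * Matrix.scalar (Fin n) c' := by rw [hc']
      rw [← mul_assoc, ← map_mul, inv_mul_cancel₀ h0, map_one, one_mul, ← map_mul] at h4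
      rw [h4]
      rfl
    have h5 := hF (fun x => (a x).map (algebraMap K (AlgebraicClosure K)))
      (fun _ => algebraMap K (AlgebraicClosure K) (c⁻¹ * c')) (by
        rw [h3]
        ext i j
        by_cases hij : i = j
        · subst hij; simp
        · simp [Matrix.diagonal_apply_ne _ hij])
    have h6 := lift_map (Algebra.ofId K (AlgebraicClosure K)) a p
    have h7 : (fun x => (a x).map (Algebra.ofId K (AlgebraicClosure K)))
        = fun x => (a x).map (algebraMap K (AlgebraicClosure K)) := rfl
    rw [h7, h5] at h6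
    ext i j
    have h8 := congrFun (congrFun h6 i) j
    rw [Matrix.map_apply, Matrix.zero_apply] at h8
    rw [Matrix.zero_apply]
    exact (algebraMap K (AlgebraicClosure K)).injective (h8.trans (map_zero _).symm)

/-- Homogeneous pieces of positive small outer degree vanish identically. -/
theorem outer_vanish [Infinite K] {n : ℕ} (hn : 3 ≤ n) {ν : ℕ} (hν : ν ≠ 0) {x₀ : X} {m : ℕ}
    (hm0 : m ≠ 0) (hm : m < n) {p : FreeAlgebra K X} (hp : p ∈ outer K x₀ m)
    (hpow : PowScalar n ν p) (a : X → Matrix (Fin n) (Fin n) K) : FreeAlgebra.lift K a p = 0 := by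
  obtain ⟨n, rfl⟩ : ∃ n', n = n' + 1 := ⟨n - 1, by omega⟩
  obtain ⟨e, -⟩ := exists_equiv_inl (0 : Fin (n + 1))
  have hpow' := powScalarOn_of_fin e hpow
  have : NeZero n := ⟨by omega⟩
  apply zero_of_diagonal (Nat.succ_pos n) x₀ p
  intro b t hb
  rcases dichotomy_final (m := Fin 1) (n := Fin n) (by simp; omega) hν (outer_zero hm0 hp)
    hpow' with h | h
  · exact outer_vanish_up hp hm (h _) t b hb
  · exact outer_vanish_lo hp hm (h _) t b hb

/-- The part of outer degree zero. -/
theorem outer_zero_poly {x₀ : X} {p : FreeAlgebra K X} (hp : p ∈ outer K x₀ 0) (n : ℕ) :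
    ∃ f : Polynomial K, ∀ a : X → Matrix (Fin n) (Fin n) K,
      FreeAlgebra.lift K a p = Polynomial.aeval (a x₀) f := by
  unfold outer at hp
  induction hp using Submodule.span_induction with
  | mem q hq =>
    obtain ⟨w, hw, rfl⟩ := hq
    refine ⟨Polynomial.X ^ w.length, fun a => ?_⟩
    have h1 : ∀ x ∈ w, x₀ = x := List.count_eq_length.mp (by omega)
    have h2 : w = List.replicate w.length x₀ := by
      rw [List.eq_replicate_iff]
      exact ⟨rfl, fun b hb => (h1 b hb).symm⟩
    rw [lift_mon, map_pow, Polynomial.aeval_X]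
    conv_lhs => rw [h2]
    rw [List.map_replicate, List.prod_replicate]
  | zero => exact ⟨0, fun a => by simp⟩
  | add p q _ _ hp hq =>
    obtain ⟨f, hf⟩ := hp
    obtain ⟨g, hg⟩ := hq
    exact ⟨f + g, fun a => by rw [map_add, map_add, hf, hg]⟩
  | smul c p _ hp =>
    obtain ⟨f, hf⟩ := hp
    exact ⟨c • f, fun a => by rw [map_smul, map_smul, hf]⟩

theorem aeval_diagonal' {n : ℕ} (t : Fin n → K) (f : Polynomial K) :
    Polynomial.aeval (Matrix.diagonal t) f = Matrix.diagonal (fun i => f.eval (t i)) := by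
  induction f using Polynomial.induction_on' with
  | add f g hf hg =>
    rw [map_add, hf, hg, Matrix.diagonal_add]
    congr 1
    funext i
    simp
  | monomial k c =>
    rw [Polynomial.aeval_monomial, Matrix.diagonal_pow, Matrix.algebraMap_eq_diagonal,
      Matrix.diagonal_mul_diagonal]
    congr 1
    funext i
    simp

theorem outer_zero_scalar [Infinite K] {n : ℕ} (hn : 2 ≤ n) {ν : ℕ} (hν : ν ≠ 0) {x₀ : X}
    {p : FreeAlgebra K X} (hp : p ∈ outer K x₀ 0) (hpow : PowScalar n ν p) :
    ∃ c : K, ∀ a : X → Matrix (Fin n) (Fin n) K,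
      FreeAlgebra.lift K a p = Matrix.scalar (Fin n) c := by
  obtain ⟨f, hf⟩ := outer_zero_poly hp n
  have h1 : ∀ μ : K, (f.eval μ) ^ ν = (f.eval 0) ^ ν := by
    intro μ
    obtain ⟨s, hs⟩ := hpow (fun _ => Matrix.diagonal (fun i : Fin n => if i.val = 0 then 0 else μ))
    rw [hf, aeval_diagonal', Matrix.diagonal_pow] at hs
    have e0 := congrFun (congrFun hs ⟨0, by omega⟩) ⟨0, by omega⟩
    have e1 := congrFun (congrFun hs ⟨1, by omega⟩) ⟨1, by omega⟩
    simp at e0 e1
    rw [e0, e1]
  have h2 : f ^ ν = Polynomial.C ((f.eval 0) ^ ν) := by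
    apply Polynomial.funext
    intro μ
    rw [Polynomial.eval_pow, Polynomial.eval_C, h1]
  have h3 : f.natDegree = 0 := by
    have := congrArg Polynomial.natDegree h2
    rw [Polynomial.natDegree_pow, Polynomial.natDegree_C] at this
    exact (mul_eq_zero.mp this).resolve_left hν
  obtain ⟨c, hc⟩ := Polynomial.natDegree_eq_zero.mp h3
  refine ⟨c, fun a => ?_⟩
  rw [hf, ← hc, Polynomial.aeval_C, Matrix.algebraMap_eq_diagonal]
  rfl

end Main

section Weights

/-- Words of weight at most `M`. -/
noncomputable def wtLE (K : Type*) [Field K] {X : Type*} (wt : X → ℕ) (M : ℕ) :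
    Submodule K (FreeAlgebra K X) :=
  Submodule.span K {q | ∃ w : List X, (w.map wt).sum ≤ M ∧ q = mon K w}

/-- Words of weight `M`. -/
noncomputable def wtEQ (K : Type*) [Field K] {X : Type*} (wt : X → ℕ) (M : ℕ) :
    Submodule K (FreeAlgebra K X) :=
  Submodule.span K {q | ∃ w : List X, (w.map wt).sum = M ∧ q = mon K w}

theorem wtLE_split {wt : X → ℕ} {M : ℕ} {p : FreeAlgebra K X} (hp : p ∈ wtLE K wt (M + 1)) :
    ∃ q r, q ∈ wtLE K wt M ∧ r ∈ wtEQ K wt (M + 1) ∧ p = q + r := by
  unfold wtLE at hp
  induction hp using Submodule.span_induction with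
  | mem q hq =>
    obtain ⟨w, hw, rfl⟩ := hq
    rcases Nat.lt_or_ge (w.map wt).sum (M + 1) with h | h
    · exact ⟨mon K w, 0, Submodule.subset_span ⟨w, by omega, rfl⟩, Submodule.zero_mem _, by simp⟩
    · exact ⟨0, mon K w, Submodule.zero_mem _, Submodule.subset_span ⟨w, by omega, rfl⟩, by simp⟩
  | zero => exact ⟨0, 0, Submodule.zero_mem _, Submodule.zero_mem _, by simp⟩
  | add p p' _ _ hp hp' =>
    obtain ⟨q, r, hq, hr, h⟩ := hp
    obtain ⟨q', r', hq', hr', h'⟩ := hp'
    exact ⟨q + q', r + r', Submodule.add_mem _ hq hq', Submodule.add_mem _ hr hr', by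
      rw [h, h']; abel⟩
  | smul c p _ hp =>
    obtain ⟨q, r, hq, hr, h⟩ := hp
    exact ⟨c • q, c • r, Submodule.smul_mem _ _ hq, Submodule.smul_mem _ _ hr, by
      rw [h, smul_add]⟩

/-- The weighted dilation of a tuple. -/
noncomputable def dil {n : ℕ} (wt : X → ℕ) (a : X → Matrix (Fin n) (Fin n) K) :
    X → Matrix (Fin n) (Fin n) (Polynomial K) :=
  fun x => (Polynomial.X ^ (wt x) : Polynomial K) • (a x).map Polynomial.C

theorem dil_word {n : ℕ} (wt : X → ℕ) (a : X → Matrix (Fin n) (Fin n) K) (w : List X) :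
    FreeAlgebra.lift K (dil wt a) (mon K w)
      = (Polynomial.X ^ (w.map wt).sum : Polynomial K) •
        (FreeAlgebra.lift K a (mon K w)).map Polynomial.C := by
  rw [lift_mon, lift_mon]
  induction w with
  | nil =>
    simp
  | cons x w ih =>
    simp only [List.map_cons, List.prod_cons, List.sum_cons]
    rw [ih, dil, Matrix.smul_mul, Matrix.mul_smul, smul_smul, ← pow_add]
    congr 1
    rw [Matrix.map_mul]

theorem dil_EQ {n : ℕ} {wt : X → ℕ} {M : ℕ} {r : FreeAlgebra K X} (hr : r ∈ wtEQ K wt M)
    (a : X → Matrix (Fin n) (Fin n) K) :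
    FreeAlgebra.lift K (dil wt a) r
      = (Polynomial.X ^ M : Polynomial K) • (FreeAlgebra.lift K a r).map Polynomial.C := by
  unfold wtEQ at hr
  induction hr using Submodule.span_induction with
  | mem q hq =>
    obtain ⟨w, hw, rfl⟩ := hq
    rw [dil_word, hw]
  | zero =>
    rw [map_zero, map_zero]
    ext i j
    simp
  | add p q _ _ hp hq =>
    rw [map_add, map_add, hp, hq, ← smul_add]
    congr 1
    ext i j
    simp
  | smul c p _ hp =>
    rw [map_smul, map_smul, hp]
    ext1 i j
    simp only [Matrix.smul_apply, Matrix.map_apply, smul_eq_mul, map_mul]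
    rw [mul_left_comm, ← Polynomial.smul_eq_C_mul]

theorem dil_LE {n : ℕ} {wt : X → ℕ} {M : ℕ} {q : FreeAlgebra K X} (hq : q ∈ wtLE K wt M)
    (a : X → Matrix (Fin n) (Fin n) K) (i j : Fin n) :
    (FreeAlgebra.lift K (dil wt a) q i j).natDegree ≤ M := by
  unfold wtLE at hq
  induction hq using Submodule.span_induction with
  | mem q hq =>
    obtain ⟨w, hw, rfl⟩ := hq
    rw [dil_word, Matrix.smul_apply, Matrix.map_apply, smul_eq_mul]
    refine (Polynomial.natDegree_mul_le).trans ?_
    rw [Polynomial.natDegree_C, Polynomial.natDegree_X_pow, add_zero]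
    exact hw
  | zero => simp
  | add p q _ _ hp hq =>
    rw [map_add, Matrix.add_apply]
    exact Polynomial.natDegree_add_le_of_degree_le hp hq
  | smul c p _ hp =>
    rw [map_smul, Matrix.smul_apply]
    exact (Polynomial.natDegree_smul_le _ _).trans hp

/-- Top coefficients of powers. -/
theorem top_pow {n M : ℕ} (N : Matrix (Fin n) (Fin n) (Polynomial K))
    (hN : ∀ i j, (N i j).natDegree ≤ M) (ν : ℕ) :
    (∀ i j, ((N ^ ν) i j).natDegree ≤ M * ν) ∧
      (N ^ ν).map (fun f => f.coeff (M * ν)) = (N.map (fun f => f.coeff M)) ^ ν := by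
  induction ν with
  | zero =>
    constructor
    · intro i j
      rw [pow_zero]
      by_cases h : i = j
      · subst h; simp
      · simp [Matrix.one_apply_ne h]
    · ext i j
      rw [pow_zero, pow_zero, Matrix.map_apply]
      by_cases h : i = j
      · subst h; simp
      · simp [Matrix.one_apply_ne h]
  | succ k ih =>
    obtain ⟨h1, h2⟩ := ih
    constructor
    · intro i j
      rw [pow_succ, Matrix.mul_apply]
      apply Polynomial.natDegree_sum_le_of_forall_le
      intro l _
      refine (Polynomial.natDegree_mul_le).trans ?_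
      rw [Nat.mul_succ]
      exact Nat.add_le_add (h1 i l) (hN l j)
    · rw [pow_succ, pow_succ, ← h2]
      ext i j
      rw [Matrix.map_apply, Matrix.mul_apply, Matrix.mul_apply, Polynomial.finsetSum_coeff]
      apply Finset.sum_congr rfl
      intro l _
      rw [Nat.mul_succ, Polynomial.coeff_mul_add_eq_of_natDegree_le (h1 i l) (hN l j)]
      rfl

/-- The component of top weight of a power-scalar polynomial is power-scalar. -/
theorem top_powScalar [Infinite K] {n : ℕ} (hn : 0 < n) {ν : ℕ} {wt : X → ℕ} {M : ℕ}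
    {q r : FreeAlgebra K X} (hq : q ∈ wtLE K wt M) (hr : r ∈ wtEQ K wt (M + 1))
    (hpow : PowScalar n ν (q + r)) : PowScalar n ν r := by
  intro a
  obtain ⟨h1, h2⟩ := PowScalarOn.transfer (K := K) (ι := Fin n) (P := q + r) hpow (dil wt a)
  set N := FreeAlgebra.lift K (dil wt a) (q + r) with hN
  have hNr : ∀ i j, N i j = FreeAlgebra.lift K (dil wt a) q i j
      + Polynomial.X ^ (M + 1) * Polynomial.C (FreeAlgebra.lift K a r i j) := by
    intro i j
    rw [hN, map_add, dil_EQ hr]
    rfl
  have hdeg : ∀ i j, (N i j).natDegree ≤ M + 1 := by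
    intro i j
    rw [hNr]
    apply Polynomial.natDegree_add_le_of_degree_le ((dil_LE hq a i j).trans (Nat.le_succ M))
    refine (Polynomial.natDegree_mul_le).trans ?_
    rw [Polynomial.natDegree_C, Polynomial.natDegree_X_pow, add_zero]
  have hcoeff : N.map (fun f => f.coeff (M + 1)) = FreeAlgebra.lift K a r := by
    ext i j
    rw [Matrix.map_apply, hNr, Polynomial.coeff_add,
      Polynomial.coeff_eq_zero_of_natDegree_lt (Nat.lt_succ_of_le (dil_LE hq a i j)), zero_add,
      mul_comm, Polynomial.coeff_C_mul, Polynomial.coeff_X_pow_self, mul_one]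
  obtain ⟨-, h3⟩ := top_pow N hdeg ν
  rw [hcoeff] at h3
  refine ⟨((N ^ ν) ⟨0, hn⟩ ⟨0, hn⟩).coeff ((M + 1) * ν), ?_⟩
  rw [← h3]
  ext i j
  rw [Matrix.map_apply]
  by_cases hij : i = j
  · subst hij
    rw [Matrix.scalar_apply, Matrix.diagonal_apply_eq, h2 i ⟨0, hn⟩]
  · rw [Matrix.scalar_apply, Matrix.diagonal_apply_ne _ hij, h1 i j hij, Polynomial.coeff_zero]

end Weights

section BoundC

/-- The weight counting the letters other than `x₀`. -/
def wtOut (x₀ : X) : X → ℕ := fun x => if x = x₀ then 0 else 1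

theorem sum_wtOut (x₀ : X) (w : List X) : (w.map (wtOut x₀)).sum + w.count x₀ = w.length := by
  induction w with
  | nil => simp
  | cons x w ih =>
    rw [List.map_cons, List.sum_cons, List.length_cons]
    by_cases h : x = x₀
    · subst h
      have h3 : wtOut x x = 0 := by simp [wtOut]
      rw [h3, List.count_cons_self]
      omega
    · have h3 : wtOut x₀ x = 1 := by simp [wtOut, h]
      rw [h3, List.count_cons_of_ne h]
      omega

theorem wtEQ_outer (x₀ : X) (M : ℕ) : wtEQ K (wtOut x₀) M = outer K x₀ M := by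
  unfold wtEQ outer
  congr 1
  ext q
  constructor
  · rintro ⟨w, hw, rfl⟩
    have := sum_wtOut x₀ w
    exact ⟨w, by omega, rfl⟩
  · rintro ⟨w, hw, rfl⟩
    have := sum_wtOut x₀ w
    exact ⟨w, by omega, rfl⟩

theorem bound_outer_aux [Infinite K] {n : ℕ} (hn : 3 ≤ n) {ν : ℕ} (hν : ν ≠ 0) (x₀ : X) (M : ℕ)
    (hM : M < n) : ∀ p : FreeAlgebra K X, p ∈ wtLE K (wtOut x₀) M → PowScalar n ν p →
      ∃ c : K, ∀ a : X → Matrix (Fin n) (Fin n) K,
        FreeAlgebra.lift K a p = Matrix.scalar (Fin n) c := by
  induction M with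
  | zero =>
    intro p hp hpow
    apply outer_zero_scalar (by omega) hν (x₀ := x₀) _ hpow
    rw [← wtEQ_outer]
    unfold wtEQ
    unfold wtLE at hp
    simpa using hp
  | succ M ih =>
    intro p hp hpow
    obtain ⟨q, r, hq, hr, rfl⟩ := wtLE_split hp
    have hrpow := top_powScalar (by omega) hq hr hpow
    have hr' : r ∈ outer K x₀ (M + 1) := by rwa [← wtEQ_outer]
    have hr0 := outer_vanish (x₀ := x₀) (m := M + 1) (p := r) hn hν (Nat.succ_ne_zero M) hM
      hr' hrpow
    have hval : ∀ a : X → Matrix (Fin n) (Fin n) K,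
        FreeAlgebra.lift K a (q + r) = FreeAlgebra.lift K a q := by
      intro a
      rw [map_add, hr0 a, add_zero]
    obtain ⟨c, hc⟩ := ih (by omega) q hq (by
      intro a
      obtain ⟨s, hs⟩ := hpow a
      exact ⟨s, by rw [← hval a, hs]⟩)
    exact ⟨c, fun a => by rw [hval, hc]⟩

/-- Polynomials of total degree less than `n` in the variables other than `x₀`. -/
theorem bound_outer [Infinite K] (x₀ : X) {n : ℕ} (hn : 3 ≤ n) {ν : ℕ} (hν : 1 ≤ ν)
    (p : FreeAlgebra K X)
    (hp : p ∈ Submodule.span K {q : FreeAlgebra K X |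
      ∃ w : List X, w.length < w.count x₀ + n ∧ q = (w.map (FreeAlgebra.ι K)).prod})
    (hpow : ∀ a : X → Matrix (Fin n) (Fin n) K,
      ∃ c : K, (FreeAlgebra.lift K a p) ^ ν = Matrix.scalar (Fin n) c) :
    ∃ c : K, ∀ a : X → Matrix (Fin n) (Fin n) K,
      FreeAlgebra.lift K a p = Matrix.scalar (Fin n) c := by
  apply bound_outer_aux hn (by omega) x₀ (n - 1) (by omega) p _ hpow
  unfold wtLE
  refine Submodule.span_mono ?_ hp
  rintro q ⟨w, hw, rfl⟩
  have := sum_wtOut x₀ w
  exact ⟨w, by omega, rfl⟩

end BoundC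

end Pool.Agent.Helper12
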