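import Mathlib
import Pool.Agent.Helper49.LojMain

/-!
Commutative algebra of a prime ideal of a polynomial ring: transcendence bases among the variables
and tangential derivations (piece G for helper49, MP_f1c2ec_an).
-/

set_option autoImplicit false

namespace Pool.Agent.Helper49.FA

open MvPolynomial (monomial pderiv)

variable {n : ℕ}

section Aux

theorem aux_vars_pderiv (j : Fin n) (R : MvPolynomial (Fin n) ℂ) : (pderiv j R).vars ⊆ R.vars := by
  intro k hk
  rw [MvPolynomial.mem_vars_iff_mem_support] at hk ⊢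
  obtain ⟨m, hm, hk⟩ := hk
  rw [MvPolynomial.mem_support_iff, MvPolynomial.coeff_pderiv] at hm
  refine ⟨m + Finsupp.single j 1, ?_, ?_⟩
  · rw [MvPolynomial.mem_support_iff]
    exact left_ne_zero_of_mul hm
  · rw [Finsupp.mem_support_iff] at hk ⊢
    rw [Finsupp.add_apply]
    omega

theorem aux_degree_pderiv {j : Fin n} {R : MvPolynomial (Fin n) ℂ} (hj : j ∈ R.vars) :
    pderiv j R ≠ 0 ∧ (pderiv j R).degreeOf j < R.degreeOf j := by
  rw [MvPolynomial.mem_vars_iff_mem_support] at hj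
  obtain ⟨m₀, hm₀, hj⟩ := hj
  rw [Finsupp.mem_support_iff] at hj
  constructor
  · intro h0
    have h1 := congrArg (MvPolynomial.coeff (m₀ - Finsupp.single j 1)) h0
    rw [MvPolynomial.coeff_pderiv, MvPolynomial.coeff_zero] at h1
    have h2 : m₀ - Finsupp.single j 1 + Finsupp.single j 1 = m₀ := by
      ext z
      rw [Finsupp.add_apply, Finsupp.tsub_apply, Finsupp.single_apply]
      split_ifs with hz
      · subst hz; omega
      · omega
    rw [h2] at h1
    rcases mul_eq_zero.mp h1 with h3 | h3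
    · exact (MvPolynomial.mem_support_iff.mp hm₀) h3
    · exact absurd h3 (Nat.cast_add_one_ne_zero _)
  · rw [MvPolynomial.degreeOf_lt_iff]
    · intro m hm
      rw [MvPolynomial.mem_support_iff, MvPolynomial.coeff_pderiv] at hm
      have h1 := MvPolynomial.monomial_le_degreeOf j
        (MvPolynomial.mem_support_iff.mpr (left_ne_zero_of_mul hm))
      rw [Finsupp.add_apply, Finsupp.single_eq_same] at h1
      omega
    · have h1 := MvPolynomial.monomial_le_degreeOf j hm₀
      omega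

end Aux

theorem exists_algData {𝔮 : Ideal (MvPolynomial (Fin n) ℂ)} (h𝔮 : 𝔮.IsPrime) :
    ∃ (J : Finset (Fin n) → Finset (Fin n)) (R : Finset (Fin n) → Fin n → MvPolynomial (Fin n) ℂ),
      (∀ B, J B ⊆ B) ∧
      (∀ B, ∀ j ∈ B \ J B, R B j ∈ 𝔮 ∧ (R B j).vars ⊆ insert j (J B) ∧ pderiv j (R B j) ∉ 𝔮) ∧
      (∀ B, ∀ b ∈ J B, ∃ (H : MvPolynomial (Fin n) ℂ) (A : Fin n → MvPolynomial (Fin n) ℂ),
        H ∉ 𝔮 ∧ A b - H ∈ 𝔮 ∧ (∀ b' ∈ J B, b' ≠ b → A b' ∈ 𝔮) ∧
        ∀ q ∈ 𝔮, ∑ k, A k * pderiv k q ∈ 𝔮) ∧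
      (∀ R' : Fin n → MvPolynomial (Fin n) ℂ,
        (∀ j ∉ J Finset.univ, R' j ∈ 𝔮 ∧ (R' j).vars ⊆ insert j (J Finset.univ)) →
        ∀ a ∈ J Finset.univ, ∀ q ∈ 𝔮,
          (∏ j ∈ (J Finset.univ)ᶜ, pderiv j (R' j)) * pderiv a q
            - ∑ j ∈ (J Finset.univ)ᶜ, (pderiv a (R' j) *
                ∏ j' ∈ (J Finset.univ)ᶜ.erase j, pderiv j' (R' j')) * pderiv j q ∈ 𝔮) := by
  classical
  set K := FractionRing (MvPolynomial (Fin n) ℂ ⧸ 𝔮) with hK
  let φ : MvPolynomial (Fin n) ℂ →ₐ[ℂ] K :=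
    (IsScalarTower.toAlgHom ℂ (MvPolynomial (Fin n) ℂ ⧸ 𝔮) K).comp (Ideal.Quotient.mkₐ ℂ 𝔮)
  have hφ : ∀ q, φ q = 0 ↔ q ∈ 𝔮 := by
    intro q
    simp only [φ, AlgHom.comp_apply, IsScalarTower.coe_toAlgHom', Ideal.Quotient.mkₐ_eq_mk]
    rw [FaithfulSMul.algebraMap_eq_zero_iff, Ideal.Quotient.eq_zero_iff_mem]
  let ξ : Fin n → K := fun k => φ (MvPolynomial.X k)
  have hφξ : ∀ q, φ q = MvPolynomial.aeval ξ q := by
    intro q
    have : φ = MvPolynomial.aeval ξ := MvPolynomial.algHom_ext fun k => by simp [ξ]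
    rw [← this]
  -- the maximal subsets
  have hJ : ∀ B : Finset (Fin n), ∃ J ⊆ B, AlgebraicIndependent ℂ (fun k : J => ξ k) ∧
      ∀ j ∈ B \ J, ¬ AlgebraicIndependent ℂ (fun k : (insert j J : Finset (Fin n)) => ξ k) := by
    intro B
    let S : Finset (Finset (Fin n)) :=
      B.powerset.filter fun J : Finset (Fin n) => AlgebraicIndependent ℂ (fun k : J => ξ k)
    have hS : S.Nonempty := by
      refine ⟨∅, ?_⟩
      rw [Finset.mem_filter]
      refine ⟨Finset.empty_mem_powerset _, ?_⟩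
      have : IsEmpty (∅ : Finset (Fin n)) := by
        constructor
        rintro ⟨x, hx⟩
        exact absurd hx (Finset.notMem_empty x)
      exact algebraicIndependent_empty_type
    obtain ⟨J, hJS, hmax⟩ := S.exists_max_image Finset.card hS
    rw [Finset.mem_filter, Finset.mem_powerset] at hJS
    refine ⟨J, hJS.1, hJS.2, fun j hj hind => ?_⟩
    rw [Finset.mem_sdiff] at hj
    have h1 := hmax (insert j J) (by
      rw [Finset.mem_filter, Finset.mem_powerset]
      exact ⟨Finset.insert_subset hj.1 hJS.1, hind⟩)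
    rw [Finset.card_insert_of_notMem hj.2] at h1
    omega
  choose J hJB hJi hJm using hJ
  -- a nonzero polynomial in the variables of an independent set does not lie in the ideal
  have hind : ∀ (J : Finset (Fin n)), AlgebraicIndependent ℂ (fun k : J => ξ k) →
      ∀ q : MvPolynomial (Fin n) ℂ, q.vars ⊆ J → q ∈ 𝔮 → q = 0 := by
    intro J hJ q hq hq𝔮
    obtain ⟨q', rfl⟩ := MvPolynomial.exists_rename_eq_of_vars_subset_range q
      (Subtype.val : J → Fin n) Subtype.val_injective (by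
        rw [Subtype.range_coe]
        exact_mod_cast hq)
    rw [← hφ, hφξ, MvPolynomial.aeval_rename] at hq𝔮
    rw [hJ.eq_zero_of_aeval_eq_zero q' hq𝔮, map_zero]
  have hdep : ∀ (J : Finset (Fin n)), ¬ AlgebraicIndependent ℂ (fun k : J => ξ k) →
      ∃ q : MvPolynomial (Fin n) ℂ, q ≠ 0 ∧ q.vars ⊆ J ∧ q ∈ 𝔮 := by
    intro J hJ
    rw [algebraicIndependent_iff] at hJ
    push Not at hJ
    obtain ⟨q', h1, h2⟩ := hJ
    refine ⟨MvPolynomial.rename (Subtype.val : J → Fin n) q', ?_, ?_, ?_⟩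
    · intro h0
      exact h2 ((MvPolynomial.rename_injective _ Subtype.val_injective) (by rw [h0, map_zero]))
    · refine (MvPolynomial.vars_rename _ _).trans ?_
      intro k hk
      rw [Finset.mem_image] at hk
      obtain ⟨k', -, rfl⟩ := hk
      exact k'.2
    · rw [← hφ, hφξ, MvPolynomial.aeval_rename]
      exact h1
  have hR : ∀ (B : Finset (Fin n)) (j : Fin n), ∃ R : MvPolynomial (Fin n) ℂ, j ∈ B \ J B →
      R ∈ 𝔮 ∧ R.vars ⊆ insert j (J B) ∧ pderiv j R ∉ 𝔮 := by
    intro B j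
    by_cases hj : j ∈ B \ J B
    · have hex : ∃ d : ℕ, ∃ R : MvPolynomial (Fin n) ℂ, R ≠ 0 ∧ R.vars ⊆ insert j (J B) ∧ R ∈ 𝔮 ∧
          R.degreeOf j = d := by
        obtain ⟨q, h1, h2, h3⟩ := hdep _ (hJm B j hj)
        exact ⟨_, q, h1, h2, h3, rfl⟩
      obtain ⟨R, h1, h2, h3, h4⟩ := Nat.find_spec hex
      refine ⟨R, fun _ => ⟨h3, h2, fun h5 => ?_⟩⟩
      have h6 : j ∈ R.vars := by
        by_contra h7
        apply h1
        apply hind (J B) (hJi B) R _ h3
        intro k hk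
        rcases Finset.mem_insert.mp (h2 hk) with rfl | h8
        · exact absurd hk h7
        · exact h8
      obtain ⟨h7, h8⟩ := aux_degree_pderiv h6
      refine Nat.find_min hex (m := (pderiv j R).degreeOf j) (h4 ▸ h8) ?_
      exact ⟨_, h7, (aux_vars_pderiv j R).trans h2, h5, rfl⟩
    · exact ⟨0, fun h => absurd h hj⟩
  choose R hR using hR
  -- derivations
  have hder : ∀ (B : Finset (Fin n)) (b : Fin n), b ∈ J B → ∃ δ : Derivation ℂ K K,
      ∀ k ∈ J B, δ (ξ k) = if k = b then 1 else 0 := by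
    intro B b _
    obtain ⟨δ, hδ⟩ := Loj.exists_derivation (k := ℂ) (K := K) (fun k : J B => ξ k) (hJi B)
      (fun k => if (k : Fin n) = b then 1 else 0)
    exact ⟨δ, fun k hk => hδ ⟨k, hk⟩⟩
  refine ⟨J, R, hJB, hR, ?_, ?_⟩
  · intro B b hb
    obtain ⟨δ, hδ⟩ := hder B b hb
    -- common denominator
    have hden : ∃ (H : MvPolynomial (Fin n) ℂ) (A : Fin n → MvPolynomial (Fin n) ℂ), H ∉ 𝔮 ∧
        ∀ k, φ (A k) = φ H * δ (ξ k) := by
      obtain ⟨c, hc⟩ := IsLocalization.exist_integer_multiples_of_finset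
        (nonZeroDivisors (MvPolynomial (Fin n) ℂ ⧸ 𝔮)) (Finset.univ.image fun k => δ (ξ k))
      obtain ⟨H, hH⟩ := Ideal.Quotient.mk_surjective (c : MvPolynomial (Fin n) ℂ ⧸ 𝔮)
      have hA : ∀ k, ∃ A, φ A = φ H * δ (ξ k) := by
        intro k
        obtain ⟨a, ha⟩ := hc (δ (ξ k)) (Finset.mem_image_of_mem _ (Finset.mem_univ k))
        obtain ⟨A, hA⟩ := Ideal.Quotient.mk_surjective a
        refine ⟨A, ?_⟩
        simp only [φ, AlgHom.comp_apply, IsScalarTower.coe_toAlgHom', Ideal.Quotient.mkₐ_eq_mk]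
        rw [hA, ha, hH, Algebra.smul_def]
      choose A hA using hA
      refine ⟨H, A, ?_, hA⟩
      rw [← Ideal.Quotient.eq_zero_iff_mem, hH]
      exact nonZeroDivisors.ne_zero c.2
    obtain ⟨H, A, hH, hA⟩ := hden
    refine ⟨H, A, hH, ?_, ?_, ?_⟩
    · rw [← hφ, map_sub, hA, hδ b hb, if_pos rfl, mul_one, sub_self]
    · intro b' hb' hne
      rw [← hφ, hA, hδ b' hb', if_neg hne, mul_zero]
    · intro q hq
      rw [← hφ, map_sum]
      have h1 : δ (φ q) = 0 := by rw [(hφ q).mpr hq, map_zero]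
      rw [hφξ, Loj.derivation_aeval] at h1
      calc ∑ k, φ (A k * pderiv k q) = φ H * ∑ k, MvPolynomial.aeval ξ (pderiv k q) * δ (ξ k) := by
            rw [Finset.mul_sum]
            apply Finset.sum_congr rfl
            intro k _
            rw [map_mul, hA, ← hφξ]
            ring
        _ = 0 := by rw [h1, mul_zero]
  · intro R' hR' a ha q hq
    obtain ⟨δ, hδ⟩ := hder Finset.univ a ha
    set J₀ := J Finset.univ with hJ₀
    -- derivation of a polynomial
    have hfull : ∀ p : MvPolynomial (Fin n) ℂ, δ (φ p)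
        = φ (pderiv a p) + ∑ j ∈ J₀ᶜ, φ (pderiv j p) * δ (ξ j) := by
      intro p
      rw [hφξ p, Loj.derivation_aeval, ← Finset.sum_add_sum_compl J₀]
      congr 1
      · rw [Finset.sum_eq_single a]
        · rw [hδ a ha, if_pos rfl, mul_one, hφξ]
        · intro k hk hka
          rw [hδ k hk, if_neg hka, mul_zero]
        · intro h
          exact absurd ha h
      · apply Finset.sum_congr rfl
        intro k _
        rw [hφξ]
    have hrel : ∀ j ∈ J₀ᶜ, φ (pderiv a (R' j)) = - (φ (pderiv j (R' j)) * δ (ξ j)) := by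
      intro j hj
      obtain ⟨h1, h2⟩ := hR' j (Finset.mem_compl.mp hj)
      have h3 := hfull (R' j)
      rw [(hφ _).mpr h1, map_zero, Finset.sum_eq_single j] at h3
      · linear_combination -h3
      · intro k hk hkj
        rw [MvPolynomial.pderiv_eq_zero_of_notMem_vars, map_zero, zero_mul]
        intro h4
        rcases Finset.mem_insert.mp (h2 h4) with h5 | h5
        · exact hkj h5
        · exact (Finset.mem_compl.mp hk) h5
      · intro h
        exact absurd hj h
    have hq0 := hfull q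
    rw [(hφ q).mpr hq, map_zero] at hq0
    rw [← hφ, map_sub, map_mul, map_sum]
    have h7 : ∀ j ∈ J₀ᶜ, φ ((pderiv a (R' j) * ∏ j' ∈ J₀ᶜ.erase j, pderiv j' (R' j')) * pderiv j q)
        = - (φ (∏ j ∈ J₀ᶜ, pderiv j (R' j)) * (φ (pderiv j q) * δ (ξ j))) := by
      intro j hj
      rw [map_mul, map_mul, hrel j hj, ← Finset.mul_prod_erase J₀ᶜ _ hj, map_mul]
      ring
    rw [Finset.sum_congr rfl h7, Finset.sum_neg_distrib, ← Finset.mul_sum, sub_neg_eq_add, ← mul_add,
      ← hq0, mul_zero]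

end Pool.Agent.Helper49.FA
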