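import Mathlib
import Pool.Agent.Helper49.FCoreDefs

/-!
Reparametrisation and lifting of patches (piece K for helper49, MP_f1c2ec_an).
-/

set_option autoImplicit false

namespace Pool.Agent.Helper49.FA

open MeasureTheory Set Filter Topology Complex
open MvPolynomial (monomial pderiv)
open scoped ContDiff ComplexConjugate

variable {n : ℕ}

section Aux

theorem aux_fderiv_coord {F : Type*} [NormedAddCommGroup F] [NormedSpace ℝ F] {m : ℕ}
    {g : F → Fin m → ℝ} {w : F} (hg : DifferentiableAt ℝ g w) (j : Fin m) {c : F → ℝ}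
    {c' : F →L[ℝ] ℝ} (hc : HasFDerivAt c c' w) (hcg : ∀ z, g z j = c z) (v : F) :
    fderiv ℝ g w v j = c' v := by
  have h1 := (hasFDerivAt_pi'.mp hg.hasFDerivAt) j
  have h2 : (fun z => g z j) = c := funext hcg
  rw [h2] at h1
  have h3 := h1.unique hc
  rw [← h3]
  rfl

theorem aux_thin {t : ℝ} {d : ℕ} {E E' : Type*} [NormedAddCommGroup E] [NormedSpace ℝ E]
    [NormedAddCommGroup E'] [NormedSpace ℝ E'] {L : E →L[ℝ] (Fin n → ℝ)}
    {L' : E' →L[ℝ] (Fin d → ℝ)} {κ : Fin n → Fin d} (hκ : Function.Injective κ)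
    (h : ∀ f ∈ conormal L', (∀ j, j ∉ Set.range κ → f j = 0) ∧ f ∘ κ ∈ conormal L)
    (hL : Thin t L) : Thin t L' := by
  intro m hm hm0 hmne
  obtain ⟨h1, h2⟩ := h m hm
  have h3 : m ∘ κ ≠ 0 := by
    intro h0
    apply hmne
    funext j
    by_cases hj : j ∈ Set.range κ
    · obtain ⟨i, rfl⟩ := hj
      exact congrFun h0 i
    · exact h1 j hj
  have h4 := hL (m ∘ κ) h2 (fun i => hm0 (κ i)) h3
  have h5 : (Finset.univ.filter fun j => m j ≠ 0)
      = (Finset.univ.filter fun i => (m ∘ κ) i ≠ 0).map ⟨κ, hκ⟩ := by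
    ext j
    simp only [Finset.mem_filter, Finset.mem_univ, true_and, Finset.mem_map,
      Function.Embedding.coeFn_mk, Function.comp_apply]
    constructor
    · intro hj
      by_cases hj' : j ∈ Set.range κ
      · obtain ⟨i, rfl⟩ := hj'
        exact ⟨i, hj, rfl⟩
      · exact absurd (h1 j hj') hj
    · rintro ⟨i, hi, rfl⟩
      exact hi
  rw [h5, Finset.card_map]
  refine lt_of_le_of_lt ?_ h4
  rw [Nat.cast_le]
  let res : ↥(conormal L' ⊓ suppIn m) →ₗ[ℝ] ↥(conormal L ⊓ suppIn (m ∘ κ)) :=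
    { toFun := fun f => ⟨f.1 ∘ κ, (h f.1 f.2.1).2, fun i hi => f.2.2 (κ i) hi⟩
      map_add' := fun f g => rfl
      map_smul' := fun c f => rfl }
  apply LinearMap.finrank_le_finrank_of_injective (f := res)
  intro f g hfg
  apply Subtype.ext
  funext j
  by_cases hj : j ∈ Set.range κ
  · obtain ⟨i, rfl⟩ := hj
    exact congrFun (congrArg Subtype.val hfg) i
  · rw [(h f.1 f.2.1).1 j hj, (h g.1 g.2.1).1 j hj]

end Aux

theorem reparam {J : Finset (Fin n)} {Ψ : (Fin n → ℝ) → (Fin n → ℝ)} (hΨ : ContDiff ℝ ∞ Ψ)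
    (hdep : ∀ θ θ' : Fin n → ℝ, (∀ k ∈ J, θ k = θ' k) → Ψ θ = Ψ θ') (hid : ∀ θ, ∀ k ∈ J, Ψ θ k = θ k)
    {x : Fin n → ℝ} {O : Set (Fin n → ℝ)} (hO : IsOpen O) (hx : x ∈ O) {t : ℝ}
    (hthin : ∀ θ ∈ O, Thin t (fderiv ℝ Ψ θ)) :
    ∃ (s : ℕ) (U : Set (Fin s → ℝ)) (ψ : (Fin s → ℝ) → (Fin n → ℝ)), IsOpen U ∧ U.Nonempty ∧
      ContDiff ℝ ∞ ψ ∧ (∀ u ∈ U, Function.Injective (fderiv ℝ ψ u)) ∧
      (∀ u ∈ U, Thin t (fderiv ℝ ψ u)) ∧ ∀ u ∈ U, ∃ θ ∈ O, ψ u = Ψ θ := by
  classical
  let e : Fin J.card ≃ J := J.equivFin.symm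
  let ι : (Fin J.card → ℝ) → (Fin n → ℝ) := fun y k => if h : k ∈ J then y (e.symm ⟨k, h⟩) else x k
  let ιl : (Fin J.card → ℝ) →L[ℝ] (Fin n → ℝ) := ContinuousLinearMap.pi fun k =>
    if h : k ∈ J then ContinuousLinearMap.proj (e.symm ⟨k, h⟩) else 0
  have hι : ContDiff ℝ ∞ ι := by
    rw [contDiff_pi]
    intro k
    by_cases h : k ∈ J
    · simp only [ι, dif_pos h]
      exact contDiff_apply ℝ ℝ _
    · simp only [ι, dif_neg h]
      exact contDiff_const
  have hιd : ∀ y, HasFDerivAt ι ιl y := by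
    intro y
    rw [hasFDerivAt_pi']
    intro k
    by_cases h : k ∈ J
    · have h1 : (ContinuousLinearMap.proj k : (Fin n → ℝ) →L[ℝ] ℝ).comp ιl
          = ContinuousLinearMap.proj (e.symm ⟨k, h⟩) := by
        ext v
        simp [ιl, h]
      rw [h1]
      simp only [ι, dif_pos h]
      exact hasFDerivAt_apply _ _
    · have h1 : (ContinuousLinearMap.proj k : (Fin n → ℝ) →L[ℝ] ℝ).comp ιl = 0 := by
        ext v
        simp [ιl, h]
      rw [h1]
      simp only [ι, dif_neg h]
      exact hasFDerivAt_const _ _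
  have hιe : ∀ y i, ι y (e i) = y i := by
    intro y i
    simp only [ι, dif_pos (e i).2, Subtype.coe_eta, Equiv.symm_apply_apply]
  have hcomp : ContDiff ℝ ∞ (Ψ ∘ ι) := hΨ.comp hι
  have hdiff : ∀ u, DifferentiableAt ℝ (Ψ ∘ ι) u := fun u =>
    (hcomp.differentiable (by simp)).differentiableAt
  refine ⟨J.card, ι ⁻¹' O, Ψ ∘ ι, hO.preimage hι.continuous, ⟨fun i => x (e i), ?_⟩, hcomp, ?_, ?_, ?_⟩
  · have h1 : ι (fun i => x (e i)) = x := by
      funext k
      by_cases h : k ∈ J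
      · simp only [ι, dif_pos h, Equiv.apply_symm_apply]
      · simp only [ι, dif_neg h]
    rw [Set.mem_preimage, h1]
    exact hx
  · intro u _
    rw [injective_iff_map_eq_zero]
    intro v hv
    funext i
    have h1 := aux_fderiv_coord (hdiff u) (e i : Fin n) (c := fun z => z i)
      (c' := ContinuousLinearMap.proj i) (hasFDerivAt_apply _ _) (fun z => by
        rw [Function.comp_apply, hid _ _ (e i).2, hιe]) v
    rw [hv] at h1
    exact h1.symm
  · intro u hu
    apply aux_thin (κ := id) Function.injective_id _ (hthin (ι u) hu)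
    intro f hf
    refine ⟨fun j hj => absurd ⟨j, rfl⟩ hj, ?_⟩
    intro w
    have hΨd : HasFDerivAt Ψ (fderiv ℝ Ψ (ι u)) (ι u) :=
      ((hΨ.differentiable (by simp)).differentiableAt).hasFDerivAt
    -- directions vanishing on `J`
    have hzero : ∀ v : Fin n → ℝ, (∀ k ∈ J, v k = 0) → fderiv ℝ Ψ (ι u) v = 0 := by
      intro v hv
      have h1 : HasDerivAt (fun s : ℝ => ι u + s • v) v 0 := by
        simpa using ((hasDerivAt_id (0 : ℝ)).smul_const v).const_add (ι u)
      have h2 : HasFDerivAt Ψ (fderiv ℝ Ψ (ι u)) ((fun s : ℝ => ι u + s • v) 0) := by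
        simpa using hΨd
      have h3 := h2.comp_hasDerivAt (0 : ℝ) h1
      have h4 : (Ψ ∘ fun s : ℝ => ι u + s • v) = fun _ => Ψ (ι u) := by
        funext s
        apply hdep
        intro k hk
        simp [hv k hk]
      rw [h4] at h3
      exact h3.unique (hasDerivAt_const (0 : ℝ) (Ψ (ι u)))
    have hw : fderiv ℝ Ψ (ι u) w = fderiv ℝ Ψ (ι u) (ιl (fun i => w (e i))) := by
      rw [← sub_eq_zero, ← map_sub]
      apply hzero
      intro k hk
      simp [ιl, hk]
    have hchain : fderiv ℝ (Ψ ∘ ι) u = (fderiv ℝ Ψ (ι u)).comp ιl :=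
      (hΨd.comp u (hιd u)).fderiv
    have h5 := hf (fun i => w (e i))
    rw [hchain] at h5
    rw [hw]
    exact h5
  · intro u hu
    exact ⟨ι u, hu, rfl⟩

theorem eval_sub {d : ℕ} {κ : Fin n → Fin d} (hκ : Function.Injective κ) (y : Fin d → ℂ)
    (z : Fin n → ℂ) (P : MvPolynomial (Fin d) ℂ) :
    MvPolynomial.eval z (sub κ y P) = MvPolynomial.eval (Function.extend κ z y) P := by
  have h : (MvPolynomial.aeval z : MvPolynomial (Fin n) ℂ →ₐ[ℂ] ℂ).comp (sub κ y)
      = MvPolynomial.aeval (Function.extend κ z y) := by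
    apply MvPolynomial.algHom_ext
    intro j
    rw [AlgHom.comp_apply, sub, MvPolynomial.aeval_X, MvPolynomial.aeval_X]
    by_cases hj : ∃ i, κ i = j
    · obtain ⟨i, rfl⟩ := hj
      rw [hκ.extend_apply, hκ.extend_apply, MvPolynomial.aeval_X]
    · rw [Function.extend_apply' _ _ _ hj, Function.extend_apply' _ _ _ hj]
      simp
  have := DFunLike.congr_fun h P
  simpa [MvPolynomial.aeval_eq_eval] using this

theorem lift_patch {d : ℕ} {t : ℝ} {𝔮 : Ideal (MvPolynomial (Fin n) ℂ)} (hq : QPatch t 𝔮)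
    {κ : Fin n → Fin d} (hκ : Function.Injective κ) {P : MvPolynomial (Fin d) ℂ}
    (hP : ∀ y : Fin d → ℂ, sub κ y P ∈ 𝔮) :
    ∃ (s : ℕ) (U : Set (Fin s → ℝ)) (ψ : (Fin s → ℝ) → (Fin d → ℝ)), Patch P s U ψ ∧
      ∀ u ∈ U, Thin t (fderiv ℝ ψ u) := by
  classical
  obtain ⟨s, U, ψ, hU, hne, hψ, hinj, hthin, hz⟩ := hq
  let C := {j : Fin d // j ∉ Set.range κ}
  let c := Fintype.card C
  let e : C ≃ Fin c := Fintype.equivFin C
  let res : (Fin (s + c) → ℝ) → (Fin s → ℝ) := fun w i => w (Fin.castAdd c i)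
  let resl : (Fin (s + c) → ℝ) →L[ℝ] (Fin s → ℝ) := ContinuousLinearMap.pi fun i =>
    ContinuousLinearMap.proj (Fin.castAdd c i)
  have hres : ∀ w, HasFDerivAt res resl w := fun w => resl.hasFDerivAt
  let ψ' : (Fin (s + c) → ℝ) → (Fin d → ℝ) := fun w j =>
    if h : j ∈ Set.range κ then ψ (res w) h.choose else w (Fin.natAdd s (e ⟨j, h⟩))
  have hψ1 : ∀ w i, ψ' w (κ i) = ψ (res w) i := by
    intro w i
    have h : κ i ∈ Set.range κ := ⟨i, rfl⟩
    simp only [ψ', dif_pos h]
    congr 1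
    exact hκ h.choose_spec
  have hψ2 : ∀ w j (h : j ∉ Set.range κ), ψ' w j = w (Fin.natAdd s (e ⟨j, h⟩)) := by
    intro w j h
    simp only [ψ', dif_neg h]
  have hsm : ContDiff ℝ ∞ ψ' := by
    rw [contDiff_pi]
    intro j
    by_cases h : j ∈ Set.range κ
    · obtain ⟨i, rfl⟩ := h
      have h1 : (fun w => ψ' w (κ i)) = fun w => ψ (resl w) i := funext fun w => hψ1 w i
      rw [h1]
      exact (contDiff_pi.mp hψ i).comp resl.contDiff
    · have h1 : (fun w => ψ' w j) = fun w => w (Fin.natAdd s (e ⟨j, h⟩)) :=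
        funext fun w => hψ2 w j h
      rw [h1]
      exact contDiff_apply ℝ ℝ _
  have hdiff : ∀ w, DifferentiableAt ℝ ψ' w := fun w =>
    (hsm.differentiable (by simp)).differentiableAt
  have hd1 : ∀ w v i, fderiv ℝ ψ' w v (κ i) = fderiv ℝ ψ (res w) (res v) i := by
    intro w v i
    have h1 : HasFDerivAt ψ (fderiv ℝ ψ (res w)) (res w) :=
      ((hψ.differentiable (by simp)).differentiableAt).hasFDerivAt
    have h2 := (hasFDerivAt_pi'.mp (h1.comp w (hres w))) i
    exact aux_fderiv_coord (hdiff w) (κ i) h2 (fun z => hψ1 z i) v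
  have hd2 : ∀ w v j (h : j ∉ Set.range κ), fderiv ℝ ψ' w v j = v (Fin.natAdd s (e ⟨j, h⟩)) := by
    intro w v j h
    exact aux_fderiv_coord (hdiff w) j (c' := ContinuousLinearMap.proj (Fin.natAdd s (e ⟨j, h⟩)))
      (hasFDerivAt_apply _ _) (fun z => hψ2 z j h) v
  refine ⟨s + c, res ⁻¹' U, ψ', ⟨?_, ?_, hsm.contDiffOn, ?_, ?_⟩, ?_⟩
  · exact hU.preimage resl.continuous
  · obtain ⟨u, hu⟩ := hne
    refine ⟨Fin.append u 0, ?_⟩
    rw [Set.mem_preimage]
    have h1 : res (Fin.append u 0) = u := by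
      funext i
      simp [res]
    rw [h1]
    exact hu
  · intro w hw
    rw [injective_iff_map_eq_zero]
    intro v hv
    have h1 : res v = 0 := by
      apply (injective_iff_map_eq_zero _).mp (hinj (res w) hw)
      funext i
      rw [← hd1, hv]
      rfl
    funext k
    refine Fin.addCases (fun i => ?_) (fun i => ?_) k
    · exact congrFun h1 i
    · have h2 := hd2 w v (e.symm i).1 (e.symm i).2
      rw [hv, Subtype.coe_eta, Equiv.apply_symm_apply] at h2
      exact h2.symm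
  · intro w hw
    have h1 := hz _ (hP (fun j => if h : j ∈ Set.range κ then 0 else
      Complex.exp (Complex.I * (w (Fin.natAdd s (e ⟨j, h⟩)) : ℂ)))) (res w) hw
    rw [pe, eval_sub hκ] at h1
    rw [← h1]
    congr 2
    funext j
    by_cases h : ∃ i, κ i = j
    · obtain ⟨i, rfl⟩ := h
      rw [hκ.extend_apply, hψ1]
    · have h' : j ∉ Set.range κ := h
      rw [Function.extend_apply' _ _ _ h, dif_neg h', hψ2 w j h']
  · intro w hw
    apply aux_thin hκ _ (hthin (res w) hw)
    intro f hf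
    refine ⟨fun j hj => ?_, fun v => ?_⟩
    · have h1 := hf (Pi.single (Fin.natAdd s (e ⟨j, hj⟩)) 1)
      rw [Finset.sum_eq_single j] at h1
      · rw [hd2 w _ j hj, Pi.single_eq_same, mul_one] at h1
        exact h1
      · intro k _ hkj
        by_cases hk : k ∈ Set.range κ
        · obtain ⟨i, rfl⟩ := hk
          have h2 : res (Pi.single (Fin.natAdd s (e ⟨j, hj⟩)) 1) = 0 := by
            funext l
            simp only [res, Pi.zero_apply]
            apply Pi.single_eq_of_ne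
            intro h3
            have := congrArg Fin.val h3
            simp at this
            omega
          rw [hd1, h2, map_zero, Pi.zero_apply, mul_zero]
        · rw [hd2 w _ k hk, Pi.single_eq_of_ne, mul_zero]
          intro h3
          have h4 := Fin.natAdd_injective _ _ h3
          have h5 := congrArg Subtype.val (e.injective h4)
          exact hkj h5
      · intro h
        exact absurd (Finset.mem_univ j) h
    · have h1 := hf (Fin.append v 0)
      have h2 : res (Fin.append v 0) = v := by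
        funext i
        simp [res]
      rw [← h1]
      apply Finset.sum_of_injOn κ hκ.injOn (by simp)
      · intro j _ hj
        have hj' : j ∉ Set.range κ := by
          rintro ⟨i, rfl⟩
          exact hj ⟨i, by simp, rfl⟩
        rw [hd2 w _ j hj', Fin.append_right, Pi.zero_apply, mul_zero]
      · intro i _
        rw [hd1, h2]
        rfl

end Pool.Agent.Helper49.FA
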