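import Mathlib
import Pool.Agent.Helper12.FreeEval

/-!
Polynomials which are symmetric or skew with respect to an involution of the free algebra, over a
field with involution embedded in the complex numbers.
-/

open Matrix MulOpposite

namespace Pool.Agent.Helper12

section Hermitian

variable {n : ℕ}

/-- A Hermitian matrix with a scalar odd power is scalar. -/
theorem scalar_of_hermitian {H : Matrix (Fin n) (Fin n) ℂ} (hH : H.IsHermitian) {ν : ℕ}
    (hν : Odd ν) {c : ℂ} (hc : H ^ ν = Matrix.scalar (Fin n) c) :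
    ∃ d : ℂ, H = Matrix.scalar (Fin n) d := by
  rcases Nat.eq_zero_or_pos n with rfl | hn
  · exact ⟨0, Subsingleton.elim _ _⟩
  have hpow : ∀ j (k : ℕ), (H ^ k) *ᵥ (hH.eigenvectorBasis j).ofLp
      = ((hH.eigenvalues j : ℂ) ^ k) • (hH.eigenvectorBasis j).ofLp := by
    intro j k
    induction k with
    | zero => simp
    | succ k ih =>
      rw [pow_succ, ← Matrix.mulVec_mulVec, hH.mulVec_eigenvectorBasis]
      have : (hH.eigenvalues j) • (hH.eigenvectorBasis j).ofLp
          = ((hH.eigenvalues j : ℂ)) • (hH.eigenvectorBasis j).ofLp := by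
        ext i
        simp
      rw [this, Matrix.mulVec_smul, ih, smul_smul, pow_succ, mul_comm]
  have hne : ∀ j, (hH.eigenvectorBasis j).ofLp ≠ 0 := by
    intro j h
    have h1 := (hH.eigenvectorBasis.orthonormal).ne_zero j
    apply h1
    ext i
    simpa using congrFun h i
  have hev : ∀ j, (hH.eigenvalues j : ℂ) ^ ν = c := by
    intro j
    have h1 := hpow j ν
    rw [hc] at h1
    have h2 : (Matrix.scalar (Fin n) c) *ᵥ (hH.eigenvectorBasis j).ofLp
        = c • (hH.eigenvectorBasis j).ofLp := by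
      ext i
      simp [Matrix.scalar_apply, Matrix.mulVec_diagonal]
    rw [h2] at h1
    obtain ⟨i, hi⟩ := Function.ne_iff.mp (hne j)
    have h3 := congrFun h1 i
    simp only [Pi.smul_apply, smul_eq_mul] at h3
    exact (mul_right_cancel₀ hi h3).symm
  have heq : ∀ j, hH.eigenvalues j = hH.eigenvalues ⟨0, hn⟩ := by
    intro j
    have h1 : (hH.eigenvalues j) ^ ν = (hH.eigenvalues ⟨0, hn⟩) ^ ν := by
      have := (hev j).trans (hev ⟨0, hn⟩).symm
      exact_mod_cast this
    exact hν.strictMono_pow.injective h1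
  refine ⟨(hH.eigenvalues ⟨0, hn⟩ : ℂ), ?_⟩
  have h5 : ∀ v : Fin n → ℂ, H *ᵥ v = (hH.eigenvalues ⟨0, hn⟩ : ℂ) • v := by
    intro v
    have h6 : Matrix.toLin' H = (hH.eigenvalues ⟨0, hn⟩ : ℂ) • LinearMap.id := by
      let B := hH.eigenvectorBasis.toBasis.map (WithLp.linearEquiv 2 ℂ (Fin n → ℂ))
      apply B.ext
      intro j
      have hB : B j = (hH.eigenvectorBasis j).ofLp := by
        simp [B]
      rw [hB, Matrix.toLin'_apply]
      have := hpow j 1
      rw [pow_one, pow_one, heq j] at this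
      rw [this]
      rfl
    have := LinearMap.congr_fun h6 v
    simpa using this
  ext i j
  have h7 := congrFun (h5 (Pi.single j 1)) i
  rw [Matrix.mulVec_single_one] at h7
  simp only [Matrix.col_apply, Pi.smul_apply, smul_eq_mul] at h7
  rw [h7, Matrix.scalar_apply, Matrix.diagonal_apply, Pi.single_apply]
  split_ifs <;> simp

end Hermitian

section Main

variable {K : Type*} [Field K] [StarRing K] [Algebra K ℂ] {X : Type*} {n : ℕ}

theorem lift_involution (hK : ∀ r : K, algebraMap K ℂ (star r) = star (algebraMap K ℂ r))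
    (τ : X → X) (ε : X → K) (hε : ∀ x, ε x = 1 ∨ ε x = -1)
    (σ : FreeAlgebra K X →+* (FreeAlgebra K X)ᵐᵒᵖ)
    (hσ : ∀ r, σ (algebraMap K _ r) = op (algebraMap K _ (star r)))
    (hσX : ∀ x, σ (FreeAlgebra.ι K x) = op (ε x • FreeAlgebra.ι K (τ x)))
    (a : X → Matrix (Fin n) (Fin n) ℂ) (ha : ∀ x, a (τ x) = ε x • (a x)ᴴ) (p : FreeAlgebra K X) :
    (FreeAlgebra.lift K a p)ᴴ = FreeAlgebra.lift K a (unop (σ p)) := by
  induction p using FreeAlgebra.induction with
  | grade0 r =>
    rw [hσ, unop_op, AlgHom.commutes, AlgHom.commutes, Matrix.algebraMap_eq_diagonal,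
      Matrix.algebraMap_eq_diagonal, Matrix.diagonal_conjTranspose]
    congr 1
    funext i
    simp only [Pi.star_apply, Pi.algebraMap_apply]
    exact (hK r).symm
  | grade1 x =>
    rw [hσX, unop_op, map_smul, FreeAlgebra.lift_ι_apply, FreeAlgebra.lift_ι_apply, ha, smul_smul]
    rcases hε x with h | h <;> rw [h] <;> simp
  | mul p q hp hq =>
    rw [map_mul, Matrix.conjTranspose_mul, hp, hq, map_mul, unop_mul, map_mul]
  | add p q hp hq =>
    rw [map_add, Matrix.conjTranspose_add, hp, hq, map_add, unop_add, map_add]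

/-- Values on tuples compatible with the involution. -/
theorem scalar_of_fixed (hK : ∀ r : K, algebraMap K ℂ (star r) = star (algebraMap K ℂ r))
    (τ : X → X) (ε : X → K) (hε : ∀ x, ε x = 1 ∨ ε x = -1)
    (σ : FreeAlgebra K X →+* (FreeAlgebra K X)ᵐᵒᵖ)
    (hσ : ∀ r, σ (algebraMap K _ r) = op (algebraMap K _ (star r)))
    (hσX : ∀ x, σ (FreeAlgebra.ι K x) = op (ε x • FreeAlgebra.ι K (τ x)))
    {ν : ℕ} (hν : Odd ν) (p : FreeAlgebra K X) (hp : unop (σ p) = p ∨ unop (σ p) = -p)
    (a : X → Matrix (Fin n) (Fin n) ℂ) (ha : ∀ x, a (τ x) = ε x • (a x)ᴴ)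
    {c : ℂ} (hc : (FreeAlgebra.lift K a p) ^ ν = Matrix.scalar (Fin n) c) :
    ∃ d : ℂ, FreeAlgebra.lift K a p = Matrix.scalar (Fin n) d := by
  have h1 := lift_involution hK τ ε hε σ hσ hσX a ha p
  rcases hp with h | h
  · rw [h] at h1
    exact scalar_of_hermitian h1 hν hc
  · rw [h, map_neg] at h1
    have h2 : (Complex.I • FreeAlgebra.lift K a p).IsHermitian := by
      rw [Matrix.IsHermitian, Matrix.conjTranspose_smul, h1]
      simp
    obtain ⟨d, hd⟩ := scalar_of_hermitian h2 hν (c := Complex.I ^ ν * c) (by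
      rw [smul_pow, hc]
      ext i j
      simp [Matrix.diagonal_apply])
    refine ⟨-Complex.I * d, ?_⟩
    have h3 : FreeAlgebra.lift K a p = (-Complex.I) • (Complex.I • FreeAlgebra.lift K a p) := by
      rw [smul_smul]
      simp
    rw [h3, hd]
    ext i j
    simp [Matrix.diagonal_apply]

/-- The involution theorem. -/
theorem involution_main (hK : ∀ r : K, algebraMap K ℂ (star r) = star (algebraMap K ℂ r))
    (τ : X → X) (hτ : ∀ x, τ (τ x) = x) (ε : X → K) (hε : ∀ x, ε x = 1 ∨ ε x = -1)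
    (hετ : ∀ x, ε (τ x) = ε x)
    (σ : FreeAlgebra K X →+* (FreeAlgebra K X)ᵐᵒᵖ)
    (hσ : ∀ r, σ (algebraMap K _ r) = op (algebraMap K _ (star r)))
    (hσX : ∀ x, σ (FreeAlgebra.ι K x) = op (ε x • FreeAlgebra.ι K (τ x)))
    {ν : ℕ} (hν : Odd ν) (p : FreeAlgebra K X) (hp : σ p = op p ∨ σ p = op (-p))
    (hpow : ∀ a : X → Matrix (Fin n) (Fin n) K,
      ∃ c : K, (FreeAlgebra.lift K a p) ^ ν = Matrix.scalar (Fin n) c)
    (a : X → Matrix (Fin n) (Fin n) K) :
    ∃ c : K, FreeAlgebra.lift K a p = Matrix.scalar (Fin n) c := by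
  rcases Nat.eq_zero_or_pos n with rfl | hn
  · exact ⟨0, Subsingleton.elim _ _⟩
  have hinj : Function.Injective (algebraMap K ℂ) := (algebraMap K ℂ).injective
  have : CharZero K := (algebraMap K ℂ).charZero
  have : Infinite K := Infinite.of_injective (fun m : ℕ => (m : K)) Nat.cast_injective
  have hp' : unop (σ p) = p ∨ unop (σ p) = -p := by
    rcases hp with h | h
    · left; rw [h, unop_op]
    · right; rw [h, unop_op]
  -- transfer to the complex numbers
  have htr : ∀ b : X → Matrix (Fin n) (Fin n) ℂ, ∃ c : ℂ,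
      (FreeAlgebra.lift K b p) ^ ν = Matrix.scalar (Fin n) c := by
    intro b
    obtain ⟨h1, h2⟩ := scalar_transfer (K := K) (ι := Fin n) (p ^ ν) (by
      intro a
      obtain ⟨c, hc⟩ := hpow a
      exact ⟨c, by rw [map_pow, hc]⟩) b
    refine ⟨(FreeAlgebra.lift K b (p ^ ν)) ⟨0, hn⟩ ⟨0, hn⟩, ?_⟩
    rw [← map_pow]
    ext i j
    by_cases hij : i = j
    · subst hij
      rw [Matrix.scalar_apply, Matrix.diagonal_apply_eq, h2 i ⟨0, hn⟩]
    · rw [Matrix.scalar_apply, Matrix.diagonal_apply_ne _ hij, h1 i j hij]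
  -- the tuple over the complex numbers
  let b : X → Matrix (Fin n) (Fin n) ℂ := fun x => (a x).map (algebraMap K ℂ)
  let εc : X → ℂ := fun x => algebraMap K ℂ (ε x)
  have hεc : ∀ x, εc x * εc x = 1 := by
    intro x
    simp only [εc]
    rcases hε x with h | h <;> rw [h] <;> simp
  have hεs : ∀ x, star (εc x) = εc x := by
    intro x
    simp only [εc]
    rcases hε x with h | h <;> rw [h] <;> simp
  have hsm : ∀ x (M : Matrix (Fin n) (Fin n) ℂ), ε x • M = εc x • M := by
    intro x M
    ext i j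
    rw [Matrix.smul_apply, Matrix.smul_apply, Algebra.smul_def, smul_eq_mul]
  let h : X → Matrix (Fin n) (Fin n) ℂ := fun x => (2⁻¹ : ℂ) • (b x + εc x • (b (τ x))ᴴ)
  let k : X → Matrix (Fin n) (Fin n) ℂ := fun x =>
    (-(2⁻¹ * Complex.I)) • (b x - εc x • (b (τ x))ᴴ)
  have hfix : ∀ (t : ℝ) (x : X), (h (τ x) + (t : ℂ) • k (τ x)) = ε x • (h x + (t : ℂ) • k x)ᴴ := by
    intro t x
    rw [hsm]
    have hετc : εc (τ x) = εc x := by simp only [εc, hετ]
    have hs2 : star (2⁻¹ : ℂ) = 2⁻¹ := by simp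
    ext i j
    simp only [h, k, hτ, hετc, Matrix.add_apply, Matrix.smul_apply, Matrix.sub_apply, smul_eq_mul,
      Matrix.conjTranspose_apply, star_add, star_mul', star_sub, star_neg, star_star, hεs, hs2]
    have hI : star Complex.I = -Complex.I := by simp
    have ht : star (t : ℂ) = (t : ℂ) := by simp
    rw [hI, ht]
    linear_combination (-(2⁻¹ : ℂ) * b (τ x) i j + 2⁻¹ * (t : ℂ) * Complex.I * b (τ x) i j) * hεc x
  have hreal : ∀ t : ℝ, ∃ d : ℂ,
      FreeAlgebra.lift K (fun x => h x + (t : ℂ) • k x) p = Matrix.scalar (Fin n) d := by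
    intro t
    obtain ⟨c, hc⟩ := htr (fun x => h x + (t : ℂ) • k x)
    exact scalar_of_fixed hK τ ε hε σ hσ hσX hν p hp' _ (hfix t) hc
  -- polynomial in the parameter
  let B : X → Matrix (Fin n) (Fin n) (Polynomial ℂ) := fun x =>
    (h x).map Polynomial.C + (Polynomial.X : Polynomial ℂ) • (k x).map Polynomial.C
  have hB : ∀ z : ℂ, (FreeAlgebra.lift K B p).map (Polynomial.eval z)
      = FreeAlgebra.lift K (fun x => h x + z • k x) p := by
    intro z
    have h1 := lift_map (((Polynomial.aeval (R := ℂ) z)).restrictScalars K) B p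
    have h2 : (fun x => (B x).map (((Polynomial.aeval (R := ℂ) z)).restrictScalars K))
        = fun x => h x + z • k x := by
      funext x
      ext i j
      simp [B]
      ring
    rw [h2] at h1
    rw [← h1]
    ext i j
    simp
  have hvan : ∀ f : Polynomial ℂ, (∀ t : ℝ, f.eval (t : ℂ) = 0) → f = 0 := by
    intro f hf
    apply Polynomial.eq_zero_of_infinite_isRoot
    apply Set.Infinite.mono (s := Set.range (fun t : ℝ => (t : ℂ)))
    · rintro _ ⟨t, rfl⟩
      exact hf t
    · exact Set.infinite_range_of_injective Complex.ofReal_injective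
  have hoff : ∀ i j, i ≠ j → FreeAlgebra.lift K B p i j = 0 := by
    intro i j hij
    apply hvan
    intro t
    obtain ⟨d, hd⟩ := hreal t
    have := congrFun (congrFun (hB t) i) j
    rw [hd, Matrix.map_apply, Matrix.scalar_apply, Matrix.diagonal_apply_ne _ hij] at this
    exact this
  have hdia : ∀ i j, FreeAlgebra.lift K B p i i - FreeAlgebra.lift K B p j j = 0 := by
    intro i j
    apply hvan
    intro t
    obtain ⟨d, hd⟩ := hreal t
    have h1 := congrFun (congrFun (hB t) i) i
    have h2 := congrFun (congrFun (hB t) j) j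
    rw [hd, Matrix.map_apply, Matrix.scalar_apply, Matrix.diagonal_apply_eq] at h1 h2
    rw [Polynomial.eval_sub, h1, h2, sub_self]
  -- evaluate at `I`
  have hI : (fun x => h x + Complex.I • k x) = b := by
    funext x
    ext i j
    simp only [h, k, Matrix.add_apply, Matrix.smul_apply, Matrix.sub_apply, smul_eq_mul]
    linear_combination (-(2⁻¹ : ℂ) * b x i j + 2⁻¹ * εc x * (b (τ x))ᴴ i j) * Complex.I_mul_I
  have hval := hB Complex.I
  rw [hI] at hval
  have hba : (FreeAlgebra.lift K a p).map (algebraMap K ℂ) = FreeAlgebra.lift K b p :=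
    lift_map (Algebra.ofId K ℂ) a p
  rw [← hba] at hval
  refine ⟨FreeAlgebra.lift K a p ⟨0, hn⟩ ⟨0, hn⟩, ?_⟩
  ext i j
  by_cases hij : i = j
  · subst hij
    rw [Matrix.scalar_apply, Matrix.diagonal_apply_eq]
    apply hinj
    have h1 := congrFun (congrFun hval i) i
    have h2 := congrFun (congrFun hval ⟨0, hn⟩) ⟨0, hn⟩
    rw [Matrix.map_apply, Matrix.map_apply] at h1 h2
    rw [← h1, ← h2, sub_eq_zero.mp (hdia i ⟨0, hn⟩)]
  · rw [Matrix.scalar_apply, Matrix.diagonal_apply_ne _ hij]
    apply hinj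
    have h1 := congrFun (congrFun hval i) j
    rw [Matrix.map_apply, Matrix.map_apply, hoff i j hij, Polynomial.eval_zero] at h1
    rw [← h1, map_zero]

end Main

end Pool.Agent.Helper12
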