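import Mathlib
import Pool.Agent.Helper12.DegreeBounds

/-!
Total degree bound for power-central polynomials.
-/

set_option linter.unusedSectionVars false
set_option linter.unusedVariables false

open Matrix

namespace Pool.Agent.Helper12

universe u v

variable {K : Type u} [Field K] {X : Type v} [DecidableEq X]

/-- Words of length `d`. -/
noncomputable def len (K : Type u) [Field K] (X : Type v) (d : ℕ) :
    Submodule K (FreeAlgebra K X) := wtEQ K (fun _ : X => 1) d

theorem len_split {d : ℕ} {p : FreeAlgebra K X} (hp : p ∈ len K X (d + 1)) :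
    ∃ (F : Finset X) (q : X → FreeAlgebra K X), (∀ x, q x ∈ len K X d) ∧ (∀ x, x ∉ F → q x = 0) ∧
      p = ∑ x ∈ F, FreeAlgebra.ι K x * q x := by
  unfold len wtEQ at hp
  induction hp using Submodule.span_induction with
  | mem r hr =>
    obtain ⟨w, hw, rfl⟩ := hr
    have hl : w.length = d + 1 := by simpa using hw
    obtain ⟨x, w', rfl⟩ : ∃ x w', w = x :: w' := by
      cases w with
      | nil => simp at hl
      | cons x w' => exact ⟨x, w', rfl⟩
    refine ⟨{x}, fun y => if y = x then mon K w' else 0, ?_, ?_, ?_⟩
    · intro y
      beta_reduce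
      split_ifs
      · apply Submodule.subset_span
        refine ⟨w', ?_, rfl⟩
        simpa using hl
      · exact Submodule.zero_mem _
    · intro y hy
      beta_reduce
      rw [if_neg (by simpa using hy)]
    · rw [Finset.sum_singleton]
      simp [mon]
  | zero => exact ⟨∅, 0, fun x => Submodule.zero_mem _, fun x _ => rfl, by simp⟩
  | add p p' _ _ hp hp' =>
    obtain ⟨F, q, h1, h2, h3⟩ := hp
    obtain ⟨F', q', h1', h2', h3'⟩ := hp'
    refine ⟨F ∪ F', fun x => q x + q' x, fun x => Submodule.add_mem _ (h1 x) (h1' x), ?_, ?_⟩
    · intro x hx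
      rw [Finset.mem_union] at hx
      push Not at hx
      beta_reduce
      rw [h2 x hx.1, h2' x hx.2, add_zero]
    · have e1 : ∑ x ∈ F, FreeAlgebra.ι K x * q x = ∑ x ∈ F ∪ F', FreeAlgebra.ι K x * q x := by
        apply Finset.sum_subset Finset.subset_union_left
        intro x _ hx
        rw [h2 x hx, mul_zero]
      have e2 : ∑ x ∈ F', FreeAlgebra.ι K x * q' x = ∑ x ∈ F ∪ F', FreeAlgebra.ι K x * q' x := by
        apply Finset.sum_subset Finset.subset_union_right
        intro x _ hx
        rw [h2' x hx, mul_zero]
      rw [h3, h3', e1, e2, ← Finset.sum_add_distrib]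
      apply Finset.sum_congr rfl
      intro x _
      rw [mul_add]
  | smul c p _ hp =>
    obtain ⟨F, q, h1, h2, h3⟩ := hp
    refine ⟨F, fun x => c • q x, fun x => Submodule.smul_mem _ _ (h1 x), ?_, ?_⟩
    · intro x hx
      beta_reduce
      rw [h2 x hx, smul_zero]
    · rw [h3, Finset.smul_sum]
      apply Finset.sum_congr rfl
      intro x _
      rw [mul_smul_comm]

theorem len_zero {p : FreeAlgebra K X} (hp : p ∈ len K X 0) : ∃ c : K, p = c • 1 := by
  unfold len wtEQ at hp
  induction hp using Submodule.span_induction with
  | mem r hr =>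
    obtain ⟨w, hw, rfl⟩ := hr
    have hl : w.length = 0 := by simpa using hw
    rw [List.length_eq_zero_iff] at hl
    subst hl
    exact ⟨1, by simp [mon]⟩
  | zero => exact ⟨0, by simp⟩
  | add p q _ _ hp hq =>
    obtain ⟨c, hc⟩ := hp
    obtain ⟨c', hc'⟩ := hq
    exact ⟨c + c', by rw [hc, hc', add_smul]⟩
  | smul c p _ hp =>
    obtain ⟨c', hc'⟩ := hp
    exact ⟨c * c', by rw [hc', mul_smul]⟩

/-- Vanishing on upper triangular tuples. -/
def UTVanish (n : ℕ) (p : FreeAlgebra K X) : Prop :=
  ∀ (R : Type u) [CommRing R] [Algebra K R] (a : X → Matrix (Fin n) (Fin n) R),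
    (∀ x i j, j < i → a x i j = 0) → FreeAlgebra.lift K a p = 0

/-- Block form. -/
theorem UTVanish.block {n : ℕ} {p : FreeAlgebra K X} (h : UTVanish (n + 1) p) (R : Type u)
    [CommRing R] [Algebra K R] (a : X → Matrix (Fin 1) (Fin 1) R) (b : X → Matrix (Fin n) (Fin n) R)
    (hb : ∀ x i j, j < i → b x i j = 0) (Y : X → Matrix (Fin 1) (Fin n) R) :
    FreeAlgebra.lift K (upA a b Y) p = 0 := by
  let e : Fin 1 ⊕ Fin n ≃ Fin (n + 1) := finSumFinEquiv.trans (finCongr (Nat.add_comm 1 n))
  have he0 : ∀ i : Fin 1, (e (Sum.inl i)).val = 0 := by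
    intro i
    simp [e]
  have he1 : ∀ i : Fin n, (e (Sum.inr i)).val = i.val + 1 := by
    intro i
    simp [e]
  have h1 := h R (fun x => (upA a b Y x).submatrix e.symm e.symm) (by
    intro x i j hij
    obtain ⟨i, rfl⟩ := e.surjective i
    obtain ⟨j, rfl⟩ := e.surjective j
    rw [Matrix.submatrix_apply, Equiv.symm_apply_apply, Equiv.symm_apply_apply]
    rw [Fin.lt_def] at hij
    rcases i with i | i <;> rcases j with j | j
    · rw [he0, he0] at hij; omega
    · rw [he0] at hij; omega
    · simp [upA]
    · rw [he1, he1] at hij
      simp only [upA, fromBlocks_apply₂₂]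
      apply hb
      rw [Fin.lt_def]
      omega)
  have h2 := lift_submatrix (K := K) e.symm (upA a b Y) p
  rw [h1] at h2
  ext i j
  have := congrFun (congrFun h2 (e i)) (e j)
  simpa using this

theorem upD_sum {m n : Type*} [Fintype m] [DecidableEq m] [Fintype n] [DecidableEq n]
    {S : Type*} [CommRing S] [Algebra K S] (a : X → Matrix m m S) (b : X → Matrix n n S)
    (Y : X → Matrix m n S) (F : Finset X) (q : X → FreeAlgebra K X) :
    upD (∑ x ∈ F, FreeAlgebra.ι K x * q x) a b Y
      = ∑ x ∈ F, (a x * upD (q x) a b Y + Y x * FreeAlgebra.lift K b (q x)) := by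
  classical
  induction F using Finset.induction_on with
  | empty =>
    rw [Finset.sum_empty, Finset.sum_empty]
    have := upD_algebraMap (0 : K) a b Y
    rwa [map_zero] at this
  | insert x F hx ih =>
    rw [Finset.sum_insert hx, Finset.sum_insert hx, upD_add, ih, upD_mul, upD_ι,
      FreeAlgebra.lift_ι_apply]

theorem coeff_one_aux {R : Type*} [CommRing R] (w : Polynomial R) (c c' : R)
    (h : Polynomial.X * (Polynomial.X * w + Polynomial.C c) + Polynomial.C c' = 0) : c = 0 := by
  have h5 := congrArg (fun f : Polynomial R => f.coeff 1) h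
  simpa [Polynomial.coeff_X_mul, Polynomial.coeff_C] using h5

/-- A homogeneous polynomial of degree less than `2n` vanishing on upper triangular `n × n`
tuples is zero. -/
theorem eq_zero_of_UTVanish (n : ℕ) : ∀ (d : ℕ), d < 2 * n → ∀ p : FreeAlgebra K X,
    p ∈ len K X d → UTVanish n p → p = 0 := by
  induction n with
  | zero => intro d hd; omega
  | succ n ih =>
    intro d hd p hp hv
    rcases d with _ | d
    · obtain ⟨c, rfl⟩ := len_zero hp
      have h1 := hv K (fun _ => 0) (fun _ _ _ _ => rfl)
      have h2 := congrFun (congrFun h1 0) 0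
      rw [map_smul, map_one, Matrix.smul_apply, Matrix.one_apply_eq, Matrix.zero_apply,
        smul_eq_mul, mul_one] at h2
      rw [h2, zero_smul]
    · obtain ⟨F, q, hq1, hq2, hq3⟩ := len_split hp
      rcases d with _ | d
      · -- degree one
        have hall : ∀ x0 ∈ F, q x0 = 0 := by
          intro x0 hx0
          choose c hc using fun x => len_zero (hq1 x)
          have h1 := hv K (fun x => if x = x0 then 1 else 0) (by
            intro x i j hij
            split_ifs
            · exact Matrix.one_apply_ne (ne_of_gt hij)
            · rfl)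
          have h2 := congrFun (congrFun h1 0) 0
          rw [hq3, map_sum, Matrix.sum_apply, Finset.sum_eq_single x0] at h2
          · rw [map_mul, FreeAlgebra.lift_ι_apply, if_pos rfl, one_mul, hc, map_smul, map_one,
              Matrix.smul_apply, Matrix.one_apply_eq, Matrix.zero_apply, smul_eq_mul, mul_one] at h2
            rw [hc, h2, zero_smul]
          · intro x _ hx
            rw [map_mul, FreeAlgebra.lift_ι_apply, if_neg hx, zero_mul, Matrix.zero_apply]
          · intro hx
            exact absurd hx0 hx
        rw [hq3]
        apply Finset.sum_eq_zero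
        intro x hx
        rw [hall x hx, mul_zero]
      · -- degree at least two
        choose G r hr1 hr2 hr3 using fun x => len_split (hq1 x)
        have hall : ∀ x0 ∈ F, ∀ y0 ∈ G x0, r x0 y0 = 0 := by
          intro x0 hx0 y0 hy0
          apply ih d (by omega) (r x0 y0) (hr1 x0 y0)
          intro R _ _ b hb
          -- it suffices to kill all rows
          have hrow : ∀ ρ : Matrix (Fin 1) (Fin n) R, ρ * FreeAlgebra.lift K b (r x0 y0) = 0 := by
            intro ρ
            let α : X → Matrix (Fin 1) (Fin 1) (Polynomial R) := fun x =>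
              if x = x0 then (Polynomial.X : Polynomial R) • (1 : Matrix (Fin 1) (Fin 1) (Polynomial R)) else 0
            let B : X → Matrix (Fin n) (Fin n) (Polynomial R) := fun x => (b x).map Polynomial.C
            let Y : X → Matrix (Fin 1) (Fin n) (Polynomial R) := fun x =>
              if x = y0 then ρ.map Polynomial.C else 0
            have hB : ∀ g : FreeAlgebra K X, FreeAlgebra.lift K B g
                = (FreeAlgebra.lift K b g).map Polynomial.C := by
              intro g
              have := lift_map (Polynomial.CAlgHom : R →ₐ[K] Polynomial R) b g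
              exact this.symm
            have h1 := hv.block (Polynomial R) α B (by
              intro x i j hij
              simp only [B, Matrix.map_apply, hb x i j hij, map_zero]) Y
            have h2 : upD p α B Y = 0 := by
              unfold upD
              rw [h1]
              rfl
            have hα : ∀ (x : X) (M : Matrix (Fin 1) (Fin n) (Polynomial R)),
                α x * M = if x = x0 then (Polynomial.X : Polynomial R) • M else 0 := by
              intro x M
              simp only [α]
              split_ifs
              · rw [Matrix.smul_mul, Matrix.one_mul]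
              · rw [Matrix.zero_mul]
            have hY : ∀ (x : X) (M : Matrix (Fin n) (Fin n) (Polynomial R)),
                Y x * M = if x = y0 then ρ.map Polynomial.C * M else 0 := by
              intro x M
              simp only [Y]
              split_ifs
              · rfl
              · rw [Matrix.zero_mul]
            have h3 : upD (q x0) α B Y = (Polynomial.X : Polynomial R) •
                  (if x0 ∈ G x0 then upD (r x0 x0) α B Y else 0)
                + (ρ * FreeAlgebra.lift K b (r x0 y0)).map Polynomial.C := by
              conv_lhs => rw [hr3 x0]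
              rw [upD_sum, Finset.sum_add_distrib]
              congr 1
              · simp only [hα]
                rw [Finset.sum_ite_eq']
                split_ifs
                · rfl
                · rw [smul_zero]
              · simp only [hY]
                rw [Finset.sum_ite_eq', if_pos hy0, hB, Matrix.map_mul]
            have h4 : upD p α B Y = (Polynomial.X : Polynomial R) • upD (q x0) α B Y
                + (ρ * FreeAlgebra.lift K b (q y0)).map Polynomial.C := by
              rw [hq3, upD_sum, Finset.sum_add_distrib]
              congr 1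
              · simp only [hα]
                rw [Finset.sum_ite_eq', if_pos hx0]
              · simp only [hY]
                rw [Finset.sum_ite_eq']
                split_ifs with hy
                · rw [hB, Matrix.map_mul]
                · rw [hq2 y0 hy, map_zero, Matrix.mul_zero]
                  ext i j
                  simp
            rw [h4, h3] at h2
            ext i j
            exact coeff_one_aux _ _ _ (congrFun (congrFun h2 i) j)
          ext i j
          have h6 := hrow (Matrix.of fun _ k => if k = i then 1 else 0)
          have h7 := congrFun (congrFun h6 0) j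
          rw [Matrix.mul_apply] at h7
          simpa using h7
        rw [hq3]
        apply Finset.sum_eq_zero
        intro x hx
        rw [hr3 x]
        rw [Finset.sum_eq_zero, mul_zero]
        intro y hy
        rw [hall x hx y hy, mul_zero]

theorem len_const_zero {d : ℕ} (hd : d ≠ 0) {p : FreeAlgebra K X} (hp : p ∈ len K X d) :
    FreeAlgebra.lift K (fun _ : X => (0 : K)) p = 0 := by
  unfold len wtEQ at hp
  induction hp using Submodule.span_induction with
  | mem q hq =>
    obtain ⟨w, hw, rfl⟩ := hq
    have hl : w.length = d := by simpa using hw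
    unfold mon
    rw [map_list_prod, List.map_map]
    apply List.prod_eq_zero
    rw [List.mem_map]
    have hne : w ≠ [] := by
      rintro rfl
      simp at hl
      exact hd hl.symm
    obtain ⟨x, hx⟩ := List.exists_mem_of_ne_nil w hne
    exact ⟨x, hx, by simp⟩
  | zero => rw [map_zero]
  | add p q _ _ hp hq => rw [map_add, hp, hq, add_zero]
  | smul c p _ hp => rw [map_smul, hp, smul_zero]

theorem len_vanish [Infinite K] {n : ℕ} (hn : 3 ≤ n) {ν : ℕ} (hν : ν ≠ 0) {d : ℕ}
    (hd0 : d ≠ 0) (hd : d < 2 * n) {p : FreeAlgebra K X} (hp : p ∈ len K X d)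
    (hpow : PowScalar n ν p) : p = 0 := by
  apply eq_zero_of_UTVanish n d hd p hp
  obtain ⟨n, rfl⟩ : ∃ n', n = n' + 1 := ⟨n - 1, by omega⟩
  obtain ⟨e, -⟩ := exists_equiv_inl (0 : Fin (n + 1))
  have hpow' := powScalarOn_of_fin e hpow
  have : NeZero n := ⟨by omega⟩
  intro R _ _ a ha
  rcases dichotomy_final (m := Fin 1) (n := Fin n) (by simp; omega) hν (len_const_zero hd0 hp)
    hpow' with h | h
  · apply zero_of_column (h R) 0 a
    intro x i hi
    exact ha x i 0 (Fin.pos_of_ne_zero hi)
  · apply zero_of_row (h R) (Fin.last n) a
    intro x i hi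
    exact ha x (Fin.last n) i (Fin.lt_last_iff_ne_last.mpr hi)

theorem bound_total_aux [Infinite K] {n : ℕ} (hn : 3 ≤ n) {ν : ℕ} (hν : ν ≠ 0) (M : ℕ)
    (hM : M < 2 * n) : ∀ p : FreeAlgebra K X, p ∈ wtLE K (fun _ : X => 1) M → PowScalar n ν p →
      ∃ c : K, p = algebraMap K (FreeAlgebra K X) c := by
  induction M with
  | zero =>
    intro p hp _
    have hp' : p ∈ len K X 0 := by
      unfold len wtEQ
      unfold wtLE at hp
      simpa using hp
    obtain ⟨c, hc⟩ := len_zero hp'
    exact ⟨c, by rw [hc, Algebra.algebraMap_eq_smul_one]⟩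
  | succ M ih =>
    intro p hp hpow
    obtain ⟨q, r, hq, hr, rfl⟩ := wtLE_split hp
    have hrpow := top_powScalar (by omega) hq hr hpow
    have hr0 : r = 0 := len_vanish hn hν (Nat.succ_ne_zero M) hM hr hrpow
    rw [hr0, add_zero] at hpow ⊢
    exact ih (by omega) q hq hpow

/-- Polynomials of degree less than `2n`. -/
theorem bound_total [Infinite K] {n : ℕ} (hn : 3 ≤ n) {ν : ℕ} (hν : 1 ≤ ν)
    (p : FreeAlgebra K X)
    (hp : p ∈ Submodule.span K {q : FreeAlgebra K X |
      ∃ w : List X, w.length < 2 * n ∧ q = (w.map (FreeAlgebra.ι K)).prod})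
    (hpow : ∀ a : X → Matrix (Fin n) (Fin n) K,
      ∃ c : K, (FreeAlgebra.lift K a p) ^ ν = Matrix.scalar (Fin n) c) :
    ∃ c : K, p = algebraMap K (FreeAlgebra K X) c := by
  apply bound_total_aux hn (by omega) (2 * n - 1) (by omega) p _ hpow
  unfold wtLE
  refine Submodule.span_mono ?_ hp
  rintro q ⟨w, hw, rfl⟩
  refine ⟨w, ?_, rfl⟩
  simp only [List.map_const', List.sum_replicate, smul_eq_mul, mul_one]
  omega

end Pool.Agent.Helper12
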