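import Mathlib
import Pool.Agent.Helper12.TotalDegree

/-!
Syllables: a nonzero polynomial vanishing on upper triangular `n × n` tuples has a monomial with at
least `2n` syllables (maximal blocks of equal letters).
-/

set_option linter.unusedSectionVars false
set_option linter.unusedVariables false

open Matrix

namespace Pool.Agent.Helper12

universe u v

variable {X : Type v} [DecidableEq X]

/-- The number of syllables (maximal blocks of equal letters) of a word. -/
def syllables : List X → ℕ
  | [] => 0
  | [_] => 1
  | a :: b :: l => syllables (b :: l) + if a = b then 0 else 1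

theorem syllables_nil : syllables ([] : List X) = 0 := rfl

theorem syllables_cons_ne {a : X} {l : List X} (h : l.head? ≠ some a) :
    syllables (a :: l) = syllables l + 1 := by
  cases l with
  | nil => rfl
  | cons b l =>
    have hab : a ≠ b := by
      rintro rfl
      simp at h
    simp [syllables, hab]

theorem syllables_cons_self (a : X) (l : List X) : syllables (a :: a :: l) = syllables (a :: l) := by
  simp [syllables]

theorem syllables_le_cons (a : X) (l : List X) : syllables l ≤ syllables (a :: l) := by
  cases l with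
  | nil => simp [syllables]
  | cons b l => simp [syllables]

theorem syllables_le_append (u l : List X) : syllables l ≤ syllables (u ++ l) := by
  induction u with
  | nil => simp
  | cons a u ih => exact ih.trans (syllables_le_cons a _)

theorem syllables_replicate (a : X) (k : ℕ) (l : List X) :
    syllables (List.replicate (k + 1) a ++ l) = syllables (a :: l) := by
  induction k with
  | zero => simp
  | succ k ih =>
    rw [List.replicate_succ, List.cons_append, List.replicate_succ, List.cons_append,
      syllables_cons_self]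
    rw [List.replicate_succ, List.cons_append] at ih
    exact ih

theorem syllables_replicate_ne {a : X} (k : ℕ) {l : List X} (h : l.head? ≠ some a) :
    syllables (List.replicate (k + 1) a ++ l) = syllables l + 1 := by
  rw [syllables_replicate, syllables_cons_ne h]

theorem exists_replicate (y : X) (w : List X) :
    ∃ b v, w = List.replicate b y ++ v ∧ v.head? ≠ some y := by
  induction w with
  | nil => exact ⟨0, [], by simp, by simp⟩
  | cons x w ih =>
    by_cases h : x = y
    · subst h
      obtain ⟨b, v, hw, hv⟩ := ih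
      exact ⟨b + 1, v, by rw [List.replicate_succ, List.cons_append, ← hw], hv⟩
    · exact ⟨0, x :: w, by simp, by simpa using h⟩

/-- Content of a word. -/
noncomputable def cnt (w : List X) : X →₀ ℕ := (w.map (fun x => Finsupp.single x 1)).sum

theorem cnt_nil : cnt ([] : List X) = 0 := rfl

theorem cnt_cons (x : X) (w : List X) : cnt (x :: w) = Finsupp.single x 1 + cnt w := by
  simp [cnt]

theorem cnt_append (u w : List X) : cnt (u ++ w) = cnt u + cnt w := by
  simp [cnt]

theorem cnt_apply (w : List X) (x : X) : cnt w x = w.count x := by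
  induction w with
  | nil => simp [cnt]
  | cons y w ih =>
    rw [cnt_cons, Finsupp.add_apply, ih, List.count_cons, add_comm, Finsupp.single_apply]
    congr 1
    by_cases h : y = x
    · simp [h]
    · simp [h]

theorem perm_of_cnt {u w : List X} (h : cnt u = cnt w) : u.Perm w := by
  rw [List.perm_iff_count]
  intro x
  rw [← cnt_apply, ← cnt_apply, h]

theorem cnt_replicate_eq {y z : X} (hyz : y ≠ z) {a b : ℕ} {w : List X}
    (h : cnt w = cnt (List.replicate b y ++ List.replicate a z))
    {v : List X} (hv : w = List.replicate b y ++ v) :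
    w = List.replicate b y ++ List.replicate a z := by
  subst hv
  rw [cnt_append, cnt_append] at h
  have h1 : cnt v = cnt (List.replicate a z) := add_left_cancel h
  rw [List.perm_replicate.mp (perm_of_cnt h1)]

variable {K : Type u} [Field K]

/-- The polynomial with given coefficients. -/
noncomputable def pol (c : List X →₀ K) : FreeAlgebra K X := c.sum fun w r => r • mon K w

/-- Vanishing on upper triangular tuples. -/
def UTV (n : ℕ) (p : FreeAlgebra K X) : Prop :=
  ∀ (R : Type (max u v)) [CommRing R] [Algebra K R] (a : X → Matrix (Fin n) (Fin n) R),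
    (∀ x i j, j < i → a x i j = 0) → FreeAlgebra.lift K a p = 0

theorem UTV.block {n : ℕ} {p : FreeAlgebra K X} (h : UTV (n + 1) p) (R : Type (max u v))
    [CommRing R] [Algebra K R] (a : X → Matrix (Fin 1) (Fin 1) R) (b : X → Matrix (Fin n) (Fin n) R)
    (hb : ∀ x i j, j < i → b x i j = 0) (Y : X → Matrix (Fin 1) (Fin n) R) :
    FreeAlgebra.lift K (upA a b Y) p = 0 := by
  let e : Fin 1 ⊕ Fin n ≃ Fin (n + 1) := finSumFinEquiv.trans (finCongr (Nat.add_comm 1 n))
  have he0 : ∀ i : Fin 1, (e (Sum.inl i)).val = 0 := by
    intro i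
    simp [e]
  have he1 : ∀ i : Fin n, (e (Sum.inr i)).val = i.val + 1 := by
    intro i
    simp [e]
  have h1 := h R (fun x => (upA a b Y x).submatrix e.symm e.symm) (by
    intro x i j hij
    obtain ⟨i, rfl⟩ := e.surjective i
    obtain ⟨j, rfl⟩ := e.surjective j
    rw [Matrix.submatrix_apply, Equiv.symm_apply_apply, Equiv.symm_apply_apply]
    rw [Fin.lt_def] at hij
    rcases i with i | i <;> rcases j with j | j
    · rw [he0, he0] at hij; omega
    · rw [he0] at hij; omega
    · simp [upA]
    · rw [he1, he1] at hij
      simp only [upA, fromBlocks_apply₂₂]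
      apply hb
      rw [Fin.lt_def]
      omega)
  have h2 := lift_submatrix (K := K) e.symm (upA a b Y) p
  rw [h1] at h2
  ext i j
  have := congrFun (congrFun h2 (e i)) (e j)
  simpa using this

theorem UTV.commutative {n : ℕ} {c : List X →₀ K} (h : UTV (n + 1) (pol c)) {u₀ : List X}
    (hu : ∀ w ∈ c.support, cnt w = cnt u₀ → w = u₀) : c u₀ = 0 := by
  have h1 := h (MvPolynomial X K)
    (fun x => (MvPolynomial.X x : MvPolynomial X K) • (1 : Matrix (Fin (n + 1)) (Fin (n + 1)) _)) (by
    intro x i j hij
    rw [Matrix.smul_apply, Matrix.one_apply_ne (ne_of_gt hij), smul_zero])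
  have h2 : ∀ w : List X, (w.map (fun x => (MvPolynomial.X x : MvPolynomial X K) •
      (1 : Matrix (Fin (n + 1)) (Fin (n + 1)) (MvPolynomial X K)))).prod
      = (MvPolynomial.monomial (cnt w) 1 : MvPolynomial X K) • 1 := by
    intro w
    induction w with
    | nil => simp [cnt]
    | cons x w ih =>
      rw [List.map_cons, List.prod_cons, ih, cnt_cons, Matrix.smul_mul, Matrix.one_mul, smul_smul]
      congr 1
      rw [MvPolynomial.X, MvPolynomial.monomial_mul, one_mul]
  have h3 := congrFun (congrFun h1 0) 0
  unfold pol at h3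
  rw [Finsupp.sum, map_sum, Matrix.sum_apply] at h3
  have h4 := congrArg (MvPolynomial.coeff (cnt u₀)) h3
  rw [MvPolynomial.coeff_sum, Matrix.zero_apply, MvPolynomial.coeff_zero] at h4
  by_contra hne
  rw [Finset.sum_eq_single u₀] at h4
  · rw [map_smul, lift_mon, h2, Matrix.smul_apply, Matrix.smul_apply, Matrix.one_apply_eq,
      smul_eq_mul, mul_one, MvPolynomial.coeff_smul, MvPolynomial.coeff_monomial, if_pos rfl,
      smul_eq_mul, mul_one] at h4
    exact hne h4
  · intro w hw hwu
    rw [map_smul, lift_mon, h2, Matrix.smul_apply, Matrix.smul_apply, Matrix.one_apply_eq,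
      smul_eq_mul, mul_one, MvPolynomial.coeff_smul, MvPolynomial.coeff_monomial, if_neg, smul_zero]
    intro h5
    exact hwu (hu w hw h5)
  · intro h5
    exact absurd (Finsupp.mem_support_iff.mpr hne) h5

section Row

variable {n : ℕ} {R : Type (max u v)} [CommRing R] [Algebra K R]

/-- The specialisation of the first row. -/
noncomputable def rowA (R : Type*) [CommRing R] : X → Matrix (Fin 1) (Fin 1) (MvPolynomial X R) :=
  fun x => (MvPolynomial.X x : MvPolynomial X R) • 1

noncomputable def rowB (b : X → Matrix (Fin n) (Fin n) R) :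
    X → Matrix (Fin n) (Fin n) (MvPolynomial X R) := fun x => (b x).map MvPolynomial.C

noncomputable def rowY (x₀ : X) (ρ : Matrix (Fin 1) (Fin n) R) :
    X → Matrix (Fin 1) (Fin n) (MvPolynomial X R) :=
  fun x => if x = x₀ then ρ.map MvPolynomial.C else 0

theorem lift_rowB (b : X → Matrix (Fin n) (Fin n) R) (g : FreeAlgebra K X) :
    FreeAlgebra.lift K (rowB b) g = (FreeAlgebra.lift K b g).map MvPolynomial.C := by
  let f : R →ₐ[K] MvPolynomial X R :=
    { (MvPolynomial.C : R →+* MvPolynomial X R) with
      commutes' := fun r => rfl }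
  have := lift_map f b g
  exact this.symm

theorem coeff_word (b : X → Matrix (Fin n) (Fin n) R) (x₀ : X) (ρ : Matrix (Fin 1) (Fin n) R)
    (w : List X) (α : X →₀ ℕ) :
    (∃ u v, w = u ++ x₀ :: v ∧ cnt u = α ∧ ∀ j, MvPolynomial.coeff α
        (upD (mon K w) (rowA R) (rowB b) (rowY x₀ ρ) 0 j) = (ρ * FreeAlgebra.lift K b (mon K v)) 0 j) ∨
    ((∀ u v, w = u ++ x₀ :: v → cnt u ≠ α) ∧ ∀ j, MvPolynomial.coeff α
        (upD (mon K w) (rowA R) (rowB b) (rowY x₀ ρ) 0 j) = 0) := by
  induction w generalizing α with
  | nil =>
    right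
    refine ⟨fun u v h => ?_, fun j => ?_⟩
    · simp at h
    · have h1 : upD (mon K ([] : List X)) (rowA R) (rowB b) (rowY x₀ ρ) = 0 := by
        have := upD_algebraMap (1 : K) (rowA R) (rowB b) (rowY x₀ ρ)
        rw [map_one] at this
        simpa [mon] using this
      rw [h1]
      simp
  | cons y w ih =>
    have hD : ∀ j, upD (mon K (y :: w)) (rowA R) (rowB b) (rowY x₀ ρ) 0 j
        = MvPolynomial.X y * upD (mon K w) (rowA R) (rowB b) (rowY x₀ ρ) 0 j
          + (if y = x₀ then MvPolynomial.C ((ρ * FreeAlgebra.lift K b (mon K w)) 0 j) else 0) := by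
      intro j
      have h1 : mon K (y :: w) = FreeAlgebra.ι K y * mon K w := by simp [mon]
      rw [h1, upD_mul, upD_ι, FreeAlgebra.lift_ι_apply, Matrix.add_apply]
      congr 1
      · rw [rowA, Matrix.smul_mul, Matrix.one_mul, Matrix.smul_apply, smul_eq_mul]
      · rw [rowY]
        split_ifs with hy
        · rw [lift_rowB, ← Matrix.map_mul, Matrix.map_apply]
        · rw [Matrix.zero_mul, Matrix.zero_apply]
    by_cases hα : α = 0
    · subst hα
      by_cases hy : y = x₀
      · left
        refine ⟨[], w, by rw [hy]; rfl, cnt_nil, fun j => ?_⟩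
        rw [hD, if_pos hy, MvPolynomial.coeff_add, MvPolynomial.coeff_C, if_pos rfl,
          MvPolynomial.coeff_X_mul', if_neg (by simp), zero_add]
      · right
        refine ⟨fun u v h => ?_, fun j => ?_⟩
        · cases u with
          | nil =>
            simp at h
            exact absurd h.1 hy
          | cons z u =>
            rw [cnt_cons]
            intro h1
            have := DFunLike.congr_fun h1 z
            simp at this
        · rw [hD, if_neg hy, add_zero, MvPolynomial.coeff_X_mul', if_neg (by simp)]
    · have hC : ∀ j, MvPolynomial.coeff α (if y = x₀ then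
          (MvPolynomial.C ((ρ * FreeAlgebra.lift K b (mon K w)) 0 j) : MvPolynomial X R) else 0) = 0 := by
        intro j
        split_ifs
        · rw [MvPolynomial.coeff_C, if_neg (Ne.symm hα)]
        · simp
      by_cases hy : α y = 0
      · right
        refine ⟨fun u v h => ?_, fun j => ?_⟩
        · cases u with
          | nil =>
            intro h1
            exact hα (h1.symm.trans cnt_nil)
          | cons z u =>
            have hz : y = z := by
              simp at h
              exact h.1
            subst hz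
            intro h1
            rw [cnt_cons] at h1
            have := DFunLike.congr_fun h1 y
            rw [hy] at this
            simp at this
        · rw [hD, MvPolynomial.coeff_add, hC, add_zero, MvPolynomial.coeff_X_mul', if_neg]
          simpa using hy
      · have hα' : α = Finsupp.single y 1 + (α - Finsupp.single y 1) := by
          ext z
          rw [Finsupp.add_apply, Finsupp.tsub_apply, Finsupp.single_apply]
          split_ifs with hz
          · subst hz; omega
          · omega
        have hco : ∀ j, MvPolynomial.coeff α (upD (mon K (y :: w)) (rowA R) (rowB b) (rowY x₀ ρ) 0 j)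
            = MvPolynomial.coeff (α - Finsupp.single y 1)
                (upD (mon K w) (rowA R) (rowB b) (rowY x₀ ρ) 0 j) := by
          intro j
          rw [hD, MvPolynomial.coeff_add, hC, add_zero, MvPolynomial.coeff_X_mul', if_pos]
          simpa using hy
        rcases ih (α - Finsupp.single y 1) with ⟨u, v, h1, h2, h3⟩ | ⟨h1, h2⟩
        · left
          refine ⟨y :: u, v, by rw [h1]; rfl, ?_, fun j => ?_⟩
          · rw [cnt_cons, h2, ← hα']
          · rw [hco, h3]
        · right
          refine ⟨fun u v h => ?_, fun j => ?_⟩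
          · cases u with
            | nil =>
              intro h1
              exact hα (h1.symm.trans cnt_nil)
            | cons z u =>
              rw [List.cons_append, List.cons.injEq] at h
              obtain ⟨rfl, hw⟩ := h
              intro h4
              rw [cnt_cons] at h4
              apply h1 u v hw
              rw [← h4]
              ext t
              simp
          · rw [hco, h2]

/-- Left quotient by the prefix `u₀ x₀`. -/
noncomputable def quo (u₀ : List X) (x₀ : X) (c : List X →₀ K) : List X →₀ K :=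
  Finsupp.comapDomain (fun v => u₀ ++ x₀ :: v) c (by
    intro v _ v' _ h
    simpa using h)

theorem quo_apply (u₀ : List X) (x₀ : X) (c : List X →₀ K) (v : List X) :
    quo u₀ x₀ c v = c (u₀ ++ x₀ :: v) := by
  simp [quo, Finsupp.comapDomain_apply]

theorem UTV.quotient {n : ℕ} {c : List X →₀ K} (h : UTV (n + 1) (pol c)) {u₀ : List X} {x₀ : X}
    (hu : ∀ w ∈ c.support, ∀ u v, w = u ++ x₀ :: v → cnt u = cnt u₀ → u = u₀) :
    UTV n (pol (quo u₀ x₀ c)) := by
  intro R _ _ b hb
  have hrow : ∀ ρ : Matrix (Fin 1) (Fin n) R, ρ * FreeAlgebra.lift K b (pol (quo u₀ x₀ c)) = 0 := by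
    intro ρ
    have h1 := h.block (MvPolynomial X R) (rowA R) (rowB b) (by
      intro x i j hij
      rw [rowB, Matrix.map_apply, hb x i j hij]
      exact map_zero _) (rowY x₀ ρ)
    have h2 : upD (pol c) (rowA R) (rowB b) (rowY x₀ ρ) = 0 := by
      unfold upD
      rw [h1]
      rfl
    ext i j
    obtain rfl : i = 0 := Subsingleton.elim _ _
    have h3 : ∀ (s : Finset (List X)), upD (∑ w ∈ s, c w • mon K w) (rowA R) (rowB b) (rowY x₀ ρ)
        = ∑ w ∈ s, c w • upD (mon K w) (rowA R) (rowB b) (rowY x₀ ρ) := by
      intro s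
      induction s using Finset.cons_induction with
      | empty =>
        rw [Finset.sum_empty, Finset.sum_empty]
        have := upD_algebraMap (0 : K) (rowA R) (rowB b) (rowY x₀ ρ)
        rwa [map_zero] at this
      | cons w s hw ih =>
        rw [Finset.sum_cons, Finset.sum_cons, upD_add, ih]
        congr 1
        unfold upD
        rw [map_smul]
        rfl
    have h4 : ∑ w ∈ c.support, MvPolynomial.coeff (cnt u₀)
        (c w • upD (mon K w) (rowA R) (rowB b) (rowY x₀ ρ) 0 j) = 0 := by
      have h5 := congrArg (MvPolynomial.coeff (cnt u₀)) (congrFun (congrFun h2 0) j)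
      rw [pol, Finsupp.sum, h3, Matrix.sum_apply, MvPolynomial.coeff_sum] at h5
      simpa using h5
    have h6 : (ρ * FreeAlgebra.lift K b (pol (quo u₀ x₀ c))) 0 j
        = ∑ v ∈ (quo u₀ x₀ c).support, c (u₀ ++ x₀ :: v) • (ρ * FreeAlgebra.lift K b (mon K v)) 0 j := by
      rw [pol, Finsupp.sum, map_sum, Matrix.mul_sum, Matrix.sum_apply]
      apply Finset.sum_congr rfl
      intro v _
      rw [map_smul, Matrix.mul_smul, Matrix.smul_apply, quo_apply]
    rw [h6, Matrix.zero_apply, ← h4]
    apply Finset.sum_of_injOn (fun v => u₀ ++ x₀ :: v)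
    · intro v _ v' _ h
      simpa using h
    · intro v hv
      simp only [Finset.mem_coe, Finsupp.mem_support_iff, quo_apply] at hv ⊢
      exact hv
    · intro w hw hw'
      rw [MvPolynomial.coeff_smul]
      rcases coeff_word (K := K) b x₀ ρ w (cnt u₀) with ⟨u, v, h7, h8, -⟩ | ⟨-, h8⟩
      · exfalso
        apply hw'
        have := hu w hw u v h7 h8
        subst this
        refine ⟨v, ?_, h7.symm⟩
        rw [Finset.mem_coe, Finsupp.mem_support_iff, quo_apply, ← h7]
        exact Finsupp.mem_support_iff.mp hw
      · rw [h8, smul_zero]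
    · intro v hv
      have hv' : u₀ ++ x₀ :: v ∈ c.support := by
        rw [Finsupp.mem_support_iff, quo_apply] at hv
        exact Finsupp.mem_support_iff.mpr hv
      rw [MvPolynomial.coeff_smul]
      rcases coeff_word (K := K) b x₀ ρ (u₀ ++ x₀ :: v) (cnt u₀) with ⟨u, v', h7, h8, h9⟩ | ⟨h8, -⟩
      · have := hu _ hv' u v' h7 h8
        subst this
        have h10 : v = v' := by simpa using h7
        subst h10
        rw [h9]
      · exact absurd rfl (h8 u₀ v rfl)
  ext i j
  have h6 := hrow (Matrix.of fun _ k => if k = i then 1 else 0)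
  have h7 := congrFun (congrFun h6 0) j
  rw [Matrix.mul_apply] at h7
  simpa using h7

end Row

/-- A nonzero polynomial vanishing on upper triangular `m × m` tuples contains, for every letter
`y`, a monomial `y ^ b v` with `v` not starting with `y` and having at least `2m` syllables. -/
theorem exists_word (m : ℕ) : ∀ c : List X →₀ K, c ≠ 0 → UTV m (pol c) → ∀ y : X,
    ∃ b v, c (List.replicate b y ++ v) ≠ 0 ∧ v.head? ≠ some y ∧ 2 * m ≤ syllables v := by
  induction m with
  | zero =>
    intro c hc _ y
    obtain ⟨w, hw⟩ := Finsupp.ne_iff.mp hc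
    obtain ⟨b, v, rfl, hv⟩ := exists_replicate y w
    exact ⟨b, v, hw, hv, by omega⟩
  | succ m ih =>
    intro c hc hv y
    -- the minimal exponent of `y`
    have hex : ∃ b, ∃ v, c (List.replicate b y ++ v) ≠ 0 ∧ v.head? ≠ some y := by
      obtain ⟨w, hw⟩ := Finsupp.ne_iff.mp hc
      obtain ⟨b, v, rfl, hv⟩ := exists_replicate y w
      exact ⟨b, v, hw, hv⟩
    classical
    obtain ⟨v₁, hv₁, hy₁⟩ := Nat.find_spec hex
    set b := Nat.find hex with hb
    have hpre : ∀ w ∈ c.support, ∃ v, w = List.replicate b y ++ v := by
      intro w hw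
      rw [Finsupp.mem_support_iff] at hw
      obtain ⟨b', v, rfl, hv⟩ := exists_replicate y w
      have hbb : b ≤ b' := Nat.find_min' hex ⟨v, hw, hv⟩
      refine ⟨List.replicate (b' - b) y ++ v, ?_⟩
      rw [← List.append_assoc, ← List.replicate_add]
      congr 2
      omega
    have hzero : ∀ (a : ℕ) (z : X), y ≠ z → c (List.replicate b y ++ List.replicate a z) = 0 := by
      intro a z hyz
      apply hv.commutative
      intro w hw hcnt
      obtain ⟨v, hv⟩ := hpre w hw
      exact cnt_replicate_eq hyz hcnt hv
    have hzero' : c (List.replicate b y) = 0 := by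
      apply hv.commutative
      intro w hw hcnt
      obtain ⟨v, hv⟩ := hpre w hw
      subst hv
      rw [cnt_append] at hcnt
      have h1 : cnt v = 0 := by
        have : cnt (List.replicate b y) + cnt v = cnt (List.replicate b y) + 0 := by
          rw [hcnt, add_zero]
        exact add_left_cancel this
      have h2 : v = [] := by
        cases v with
        | nil => rfl
        | cons z v =>
          rw [cnt_cons] at h1
          have := DFunLike.congr_fun h1 z
          simp at this
      rw [h2, List.append_nil]
    -- the second syllable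
    obtain ⟨z, v₂, rfl⟩ : ∃ z v₂, v₁ = z :: v₂ := by
      cases v₁ with
      | nil =>
        rw [List.append_nil] at hv₁
        exact absurd hzero' hv₁
      | cons z v₂ => exact ⟨z, v₂, rfl⟩
    have hyz : y ≠ z := by
      rintro rfl
      simp at hy₁
    obtain ⟨a, v₃, hv₃, hz₃⟩ := exists_replicate z v₂
    subst hv₃
    have hsucc : z :: (List.replicate a z ++ v₃) = List.replicate (a + 1) z ++ v₃ := by
      rw [List.replicate_succ, List.cons_append]
    rw [hsucc] at hv₁
    obtain ⟨x, v₄, rfl⟩ : ∃ x v₄, v₃ = x :: v₄ := by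
      cases v₃ with
      | nil =>
        rw [List.append_nil] at hv₁
        exact absurd (hzero (a + 1) z hyz) hv₁
      | cons x v₄ => exact ⟨x, v₄, rfl⟩
    have hzx : z ≠ x := by
      rintro rfl
      simp at hz₃
    -- the left quotient
    have hquo := hv.quotient (u₀ := List.replicate b y ++ List.replicate (a + 1) z) (x₀ := x) (by
      intro w hw u v hwu hcnt
      obtain ⟨v', hv'⟩ := hpre w hw
      have hlen : u.length = b + (a + 1) := by
        have := (perm_of_cnt hcnt).length_eq
        simpa using this
      have h1 : u = List.replicate b y ++ v'.take (a + 1) := by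
        have h2 : u = w.take (b + (a + 1)) := by
          rw [hwu, ← hlen, List.take_left']
          rfl
        rw [h2, hv', List.take_append, List.length_replicate, List.take_of_length_le]
        · congr 2
          omega
        · rw [List.length_replicate]
          omega
      exact cnt_replicate_eq hyz hcnt h1)
    have hne : quo (List.replicate b y ++ List.replicate (a + 1) z) x c ≠ 0 := by
      intro h0
      have := DFunLike.congr_fun h0 v₄
      rw [quo_apply, Finsupp.zero_apply, List.append_assoc] at this
      exact hv₁ this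
    obtain ⟨b', v', h1, h2, h3⟩ := ih _ hne hquo x
    rw [quo_apply, List.append_assoc] at h1
    have h4 : x :: (List.replicate b' x ++ v') = List.replicate (b' + 1) x ++ v' := by
      rw [List.replicate_succ, List.cons_append]
    rw [h4] at h1
    refine ⟨b, List.replicate (a + 1) z ++ (List.replicate (b' + 1) x ++ v'), h1, ?_, ?_⟩
    · rw [List.replicate_succ, List.cons_append, List.head?_cons]
      intro h5
      exact hyz (Option.some.inj h5).symm
    · rw [syllables_replicate_ne, syllables_replicate_ne _ h2]
      · omega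
      · rw [List.replicate_succ, List.cons_append, List.head?_cons]
        intro h5
        exact hzx (Option.some.inj h5).symm

/-- A nonzero polynomial vanishing on upper triangular `n × n` tuples has a monomial with at least
`2n` syllables. -/
theorem exists_syllables {n : ℕ} {c : List X →₀ K} (hc : c ≠ 0) (h : UTV n (pol c)) :
    ∃ w, c w ≠ 0 ∧ 2 * n ≤ syllables w := by
  by_cases hX : Nonempty X
  · obtain ⟨y⟩ := hX
    obtain ⟨b, v, h1, -, h3⟩ := exists_word n c hc h y
    exact ⟨_, h1, h3.trans (syllables_le_append _ _)⟩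
  · have hempty : ∀ w : List X, w = [] := by
      intro w
      cases w with
      | nil => rfl
      | cons x _ => exact absurd ⟨x⟩ hX
    obtain ⟨w, hw⟩ := Finsupp.ne_iff.mp hc
    rw [hempty w] at hw
    cases n with
    | zero => exact ⟨[], hw, by omega⟩
    | succ n =>
      exfalso
      apply hw
      rw [Finsupp.zero_apply]
      apply h.commutative
      intro w _ _
      exact hempty w

section Bound

/-- Words with property `G` and length at most `M`. -/
noncomputable def gLE (K : Type*) [Field K] {X : Type*} (G : List X → Prop) (M : ℕ) :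
    Submodule K (FreeAlgebra K X) :=
  Submodule.span K {q | ∃ w : List X, (G w ∧ w.length ≤ M) ∧ q = mon K w}

/-- Words with property `G` and length `M`. -/
noncomputable def gEQ (K : Type*) [Field K] {X : Type*} (G : List X → Prop) (M : ℕ) :
    Submodule K (FreeAlgebra K X) :=
  Submodule.span K {q | ∃ w : List X, (G w ∧ w.length = M) ∧ q = mon K w}

theorem gLE_split {G : List X → Prop} {M : ℕ} {p : FreeAlgebra K X} (hp : p ∈ gLE K G (M + 1)) :
    ∃ q r, q ∈ gLE K G M ∧ r ∈ gEQ K G (M + 1) ∧ p = q + r := by
  unfold gLE at hp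
  induction hp using Submodule.span_induction with
  | mem q hq =>
    obtain ⟨w, ⟨hG, hw⟩, rfl⟩ := hq
    rcases Nat.lt_or_ge w.length (M + 1) with h | h
    · exact ⟨mon K w, 0, Submodule.subset_span ⟨w, ⟨hG, by omega⟩, rfl⟩, Submodule.zero_mem _,
        by simp⟩
    · exact ⟨0, mon K w, Submodule.zero_mem _, Submodule.subset_span ⟨w, ⟨hG, by omega⟩, rfl⟩,
        by simp⟩
  | zero => exact ⟨0, 0, Submodule.zero_mem _, Submodule.zero_mem _, by simp⟩
  | add p p' _ _ hp hp' =>
    obtain ⟨q, r, hq, hr, h⟩ := hp
    obtain ⟨q', r', hq', hr', h'⟩ := hp'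
    exact ⟨q + q', r + r', Submodule.add_mem _ hq hq', Submodule.add_mem _ hr hr', by
      rw [h, h']; abel⟩
  | smul c p _ hp =>
    obtain ⟨q, r, hq, hr, h⟩ := hp
    exact ⟨c • q, c • r, Submodule.smul_mem _ _ hq, Submodule.smul_mem _ _ hr, by
      rw [h, smul_add]⟩

theorem gLE_mono {G : List X → Prop} {M N : ℕ} (h : M ≤ N) : gLE K G M ≤ gLE K G N := by
  apply Submodule.span_mono
  rintro q ⟨w, ⟨hG, hw⟩, rfl⟩
  exact ⟨w, ⟨hG, hw.trans h⟩, rfl⟩

theorem exists_gLE {G : List X → Prop} {p : FreeAlgebra K X}
    (hp : p ∈ Submodule.span K {q : FreeAlgebra K X | ∃ w : List X, G w ∧ q = mon K w}) :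
    ∃ M, p ∈ gLE K G M := by
  induction hp using Submodule.span_induction with
  | mem q hq =>
    obtain ⟨w, hG, rfl⟩ := hq
    exact ⟨w.length, Submodule.subset_span ⟨w, ⟨hG, le_rfl⟩, rfl⟩⟩
  | zero => exact ⟨0, Submodule.zero_mem _⟩
  | add p q _ _ hp hq =>
    obtain ⟨M, hM⟩ := hp
    obtain ⟨N, hN⟩ := hq
    exact ⟨max M N, Submodule.add_mem _ (gLE_mono (le_max_left _ _) hM)
      (gLE_mono (le_max_right _ _) hN)⟩
  | smul c p _ hp =>
    obtain ⟨M, hM⟩ := hp
    exact ⟨M, Submodule.smul_mem _ _ hM⟩

theorem gEQ_le {G : List X → Prop} {M : ℕ} : gEQ K G M ≤ wtEQ K (fun _ : X => 1) M := by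
  apply Submodule.span_mono
  rintro q ⟨w, ⟨hG, hw⟩, rfl⟩
  exact ⟨w, by simpa using hw, rfl⟩

theorem gLE_le {G : List X → Prop} {M : ℕ} : gLE K G M ≤ wtLE K (fun _ : X => 1) M := by
  apply Submodule.span_mono
  rintro q ⟨w, ⟨hG, hw⟩, rfl⟩
  exact ⟨w, by simpa using hw, rfl⟩

theorem gEQ_pol {G : List X → Prop} {M : ℕ} {p : FreeAlgebra K X} (hp : p ∈ gEQ K G M) :
    ∃ c : List X →₀ K, p = pol c ∧ ∀ w, c w ≠ 0 → G w := by
  unfold gEQ at hp
  have himg : {q | ∃ w : List X, (G w ∧ w.length = M) ∧ q = mon K w}
      = (mon K) '' {w : List X | G w ∧ w.length = M} := by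
    ext q
    constructor
    · rintro ⟨w, hw, rfl⟩
      exact ⟨w, hw, rfl⟩
    · rintro ⟨w, hw, rfl⟩
      exact ⟨w, hw, rfl⟩
  rw [himg, Finsupp.mem_span_image_iff_linearCombination] at hp
  obtain ⟨c, hc, rfl⟩ := hp
  refine ⟨c, rfl, fun w hw => ?_⟩
  rw [Finsupp.mem_supported] at hc
  exact (hc (Finsupp.mem_support_iff.mpr hw)).1

theorem UTV_of_powScalar [Infinite K] {n : ℕ} (hn : 3 ≤ n) {ν : ℕ} (hν : ν ≠ 0) {d : ℕ}
    (hd0 : d ≠ 0) {p : FreeAlgebra K X} (hp : p ∈ len K X d)
    (hpow : PowScalar n ν p) : UTV n p := by
  obtain ⟨n, rfl⟩ : ∃ n', n = n' + 1 := ⟨n - 1, by omega⟩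
  obtain ⟨e, -⟩ := exists_equiv_inl (0 : Fin (n + 1))
  have hpow' := powScalarOn_of_fin e hpow
  have : NeZero n := ⟨by omega⟩
  intro R _ _ a ha
  rcases dichotomy_final (m := Fin 1) (n := Fin n) (by simp; omega) hν (len_const_zero hd0 hp)
    hpow' with h | h
  · apply zero_of_column (h R) 0 a
    intro x i hi
    exact ha x i 0 (Fin.pos_of_ne_zero hi)
  · apply zero_of_row (h R) (Fin.last n) a
    intro x i hi
    exact ha x (Fin.last n) i (Fin.lt_last_iff_ne_last.mpr hi)

theorem bound_syllables_aux [Infinite K] {n : ℕ} (hn : 3 ≤ n) {ν : ℕ} (hν : ν ≠ 0) (M : ℕ) :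
    ∀ p : FreeAlgebra K X, p ∈ gLE K (fun w => syllables w < 2 * n) M → PowScalar n ν p →
      ∃ c : K, p = algebraMap K (FreeAlgebra K X) c := by
  induction M with
  | zero =>
    intro p hp _
    have hp' : p ∈ len K X 0 := by
      refine Submodule.span_mono ?_ hp
      rintro q ⟨w, ⟨hG, hw⟩, rfl⟩
      exact ⟨w, by simpa using hw, rfl⟩
    obtain ⟨c, hc⟩ := len_zero hp'
    exact ⟨c, by rw [hc, Algebra.algebraMap_eq_smul_one]⟩
  | succ M ih =>
    intro p hp hpow
    obtain ⟨q, r, hq, hr, rfl⟩ := gLE_split hp
    have hrpow := top_powScalar (by omega) (gLE_le hq) (gEQ_le hr) hpow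
    have hr0 : r = 0 := by
      have h1 := UTV_of_powScalar hn hν (Nat.succ_ne_zero M) (gEQ_le hr) hrpow
      obtain ⟨c, rfl, hc⟩ := gEQ_pol hr
      by_cases h0 : c = 0
      · subst h0
        simp [pol]
      · obtain ⟨w, hw, h2⟩ := exists_syllables h0 h1
        have := hc w hw
        omega
    rw [hr0, add_zero] at hpow ⊢
    exact ih q hq hpow

/-- Polynomials all of whose monomials have less than `2n` syllables. -/
theorem bound_syllables [Infinite K] {n : ℕ} (hn : 3 ≤ n) {ν : ℕ} (hν : 1 ≤ ν)
    (p : FreeAlgebra K X)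
    (hp : p ∈ Submodule.span K {q : FreeAlgebra K X |
      ∃ w : List X, syllables w < 2 * n ∧ q = (w.map (FreeAlgebra.ι K)).prod})
    (hpow : ∀ a : X → Matrix (Fin n) (Fin n) K,
      ∃ c : K, (FreeAlgebra.lift K a p) ^ ν = Matrix.scalar (Fin n) c) :
    ∃ c : K, p = algebraMap K (FreeAlgebra K X) c := by
  obtain ⟨M, hM⟩ := exists_gLE (K := K) (G := fun w : List X => syllables w < 2 * n) (p := p) hp
  exact bound_syllables_aux hn (by omega) M p hM hpow

end Bound

end Pool.Agent.Helper12

namespace Pool.Agent.Helper12

theorem destutter'_length {X : Type*} [DecidableEq X] (l : List X) (a : X) :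
    (List.destutter' (· ≠ ·) a l).length = syllables (a :: l) := by
  induction l generalizing a with
  | nil => simp [syllables]
  | cons b l ih =>
    rw [List.destutter'_cons]
    by_cases h : a = b
    · subst h
      rw [if_neg (by simp), ih, syllables_cons_self]
    · rw [if_pos h, List.length_cons, ih]
      simp [syllables, h]

theorem destutter_length {X : Type*} [DecidableEq X] (l : List X) :
    (l.destutter (· ≠ ·)).length = syllables l := by
  cases l with
  | nil => rfl
  | cons a l => rw [List.destutter_cons', destutter'_length]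

end Pool.Agent.Helper12
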